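import Pool.Agent.AF80.Defs
import Pool.Agent.FT80.Theta

/-!
# The additive fragment: twisted polynomials over `F_p(t)`
-/

set_option autoImplicit false
set_option maxSynthPendingDepth 10
set_option linter.unusedSectionVars false

open Polynomial Filter

namespace AF80

open FT80 BF80

section act

variable {p : ℕ} [hp : Fact p.Prime] {F B B' : Type*} [Field F] [CommRing B] [CommRing B']

theorem act_zero_left (ι : F →+* B) (x : B) : act p ι 0 x = 0 := by
  unfold act
  exact Polynomial.sum_zero_index _

theorem act_add_left (ι : F →+* B) (L K : F[X]) (x : B) :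
    act p ι (L + K) x = act p ι L x + act p ι K x := by
  unfold act
  refine Polynomial.sum_add_index L K _ (fun i => ?_) (fun i a b => ?_)
  · rw [map_zero, zero_mul]
  · rw [map_add, add_mul]

theorem act_monomial (ι : F →+* B) (n : ℕ) (c : F) (x : B) :
    act p ι (monomial n c) x = ι c * x ^ p ^ n := by
  unfold act
  refine Polynomial.sum_monomial_index c _ ?_
  rw [map_zero, zero_mul]

theorem act_C_mul (ι : F →+* B) (c : F) (L : F[X]) (x : B) :
    act p ι (C c * L) x = ι c * act p ι L x := by
  induction L using Polynomial.induction_on' with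
  | add L K hL hK => rw [mul_add, act_add_left, act_add_left, hL, hK, mul_add]
  | monomial n a => rw [C_mul_monomial, act_monomial, act_monomial, map_mul, mul_assoc]

theorem act_neg_left (ι : F →+* B) (L : F[X]) (x : B) : act p ι (-L) x = - act p ι L x := by
  have h := act_add_left (p := p) ι (-L) L x
  rw [neg_add_cancel, act_zero_left] at h
  exact eq_neg_of_add_eq_zero_left h.symm

theorem act_sub_left (ι : F →+* B) (L K : F[X]) (x : B) :
    act p ι (L - K) x = act p ι L x - act p ι K x := by
  rw [sub_eq_add_neg, act_add_left, act_neg_left, ← sub_eq_add_neg]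

theorem act_C (ι : F →+* B) (c : F) (x : B) : act p ι (C c) x = ι c * x := by
  rw [← monomial_zero_left, act_monomial, pow_zero, pow_one]

theorem act_one (ι : F →+* B) (x : B) : act p ι 1 x = x := by
  rw [← C_1, act_C, map_one, one_mul]

theorem act_X (ι : F →+* B) (x : B) : act p ι X x = x ^ p := by
  rw [← monomial_one_one_eq_X, act_monomial, map_one, one_mul, pow_one]

theorem act_sum_left {κ : Type*} (ι : F →+* B) (S : Finset κ) (f : κ → F[X]) (x : B) :
    act p ι (∑ k ∈ S, f k) x = ∑ k ∈ S, act p ι (f k) x := by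
  classical
  induction S using Finset.induction_on with
  | empty => rw [Finset.sum_empty, Finset.sum_empty, act_zero_left]
  | insert a S ha ih => rw [Finset.sum_insert ha, Finset.sum_insert ha, act_add_left, ih]

theorem map_act (g : B →+* B') (ι : F →+* B) (L : F[X]) (x : B) :
    g (act p ι L x) = act p (g.comp ι) L (g x) := by
  induction L using Polynomial.induction_on' with
  | add L K hL hK => rw [act_add_left, act_add_left, map_add, hL, hK]
  | monomial n a => rw [act_monomial, act_monomial, map_mul, map_pow, RingHom.comp_apply]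

theorem act_zero_right (ι : F →+* B) (L : F[X]) : act p ι L 0 = 0 := by
  induction L using Polynomial.induction_on' with
  | add L K hL hK => rw [act_add_left, hL, hK, add_zero]
  | monomial n a => rw [act_monomial, zero_pow (pow_ne_zero _ hp.out.ne_zero), mul_zero]

theorem act_add_right [CharP B p] (ι : F →+* B) (L : F[X]) (x y : B) :
    act p ι L (x + y) = act p ι L x + act p ι L y := by
  induction L using Polynomial.induction_on' with
  | add L K hL hK => rw [act_add_left, act_add_left, act_add_left, hL, hK]; ring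
  | monomial n a => rw [act_monomial, act_monomial, act_monomial, add_pow_char_pow, mul_add]

theorem act_neg_right [CharP B p] (ι : F →+* B) (L : F[X]) (x : B) :
    act p ι L (-x) = - act p ι L x := by
  have h := act_add_right (p := p) ι L (-x) x
  rw [neg_add_cancel, act_zero_right] at h
  exact eq_neg_of_add_eq_zero_left h.symm

theorem act_sub_right [CharP B p] (ι : F →+* B) (L : F[X]) (x y : B) :
    act p ι L (x - y) = act p ι L x - act p ι L y := by
  rw [sub_eq_add_neg, act_add_right, act_neg_right, ← sub_eq_add_neg]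

theorem act_sum_right [CharP B p] {κ : Type*} (ι : F →+* B) (L : F[X]) (S : Finset κ) (f : κ → B) :
    act p ι L (∑ k ∈ S, f k) = ∑ k ∈ S, act p ι L (f k) := by
  classical
  induction S using Finset.induction_on with
  | empty => rw [Finset.sum_empty, Finset.sum_empty, act_zero_right]
  | insert a S ha ih => rw [Finset.sum_insert ha, Finset.sum_insert ha, act_add_right, ih]

/-- composition of twisted polynomials -/
noncomputable def star (p : ℕ) [Fact p.Prime] {F : Type*} [Field F] [CharP F p] (D L : F[X]) :
    F[X] :=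
  D.sum fun i d => C d * L.map (iterateFrobenius F p i) * X ^ i

theorem act_mul_X_pow (ι : F →+* B) (L : F[X]) (i : ℕ) (x : B) :
    act p ι (L * X ^ i) x = act p ι L (x ^ p ^ i) := by
  induction L using Polynomial.induction_on' with
  | add L K hL hK => rw [add_mul, act_add_left, act_add_left, hL, hK]
  | monomial n a =>
    rw [monomial_mul_X_pow, act_monomial, act_monomial, ← pow_mul, ← pow_add, add_comm n i]

theorem act_map_frob [CharP F p] [CharP B p] (ι : F →+* B) (L : F[X]) (i : ℕ) (x : B) :
    act p ι (L.map (iterateFrobenius F p i)) (x ^ p ^ i) = act p ι L x ^ p ^ i := by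
  induction L using Polynomial.induction_on' with
  | add L K hL hK => rw [Polynomial.map_add, act_add_left, act_add_left, hL, hK, add_pow_char_pow]
  | monomial n a =>
    rw [map_monomial, act_monomial, act_monomial, iterateFrobenius_def, map_pow, mul_pow,
      ← pow_mul, ← pow_mul, mul_comm (p ^ i) (p ^ n)]

theorem act_star [CharP F p] [CharP B p] (ι : F →+* B) (D L : F[X]) (x : B) :
    act p ι (star p D L) x = act p ι D (act p ι L x) := by
  unfold star
  rw [Polynomial.sum_def, act_sum_left]
  conv_rhs => unfold act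
  rw [Polynomial.sum_def]
  refine Finset.sum_congr rfl fun i _ => ?_
  rw [mul_assoc, act_C_mul, act_mul_X_pow, act_map_frob]
  rfl

theorem coeff_star [CharP F p] (D L : F[X]) (n : ℕ) :
    (star p D L).coeff n =
      ∑ i ∈ Finset.range (n + 1), D.coeff i * L.coeff (n - i) ^ p ^ i := by
  unfold star
  rw [Polynomial.sum_def, finsetSum_coeff]
  have h1 : ∀ i, (C (D.coeff i) * L.map (iterateFrobenius F p i) * X ^ i).coeff n =
      if i ≤ n then D.coeff i * L.coeff (n - i) ^ p ^ i else 0 := by
    intro i
    rw [coeff_mul_X_pow']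
    split_ifs with h
    · rw [coeff_C_mul, coeff_map, iterateFrobenius_def]
    · rfl
  rw [Finset.sum_congr rfl fun i _ => h1 i]
  have h2 : ∑ i ∈ D.support, (if i ≤ n then D.coeff i * L.coeff (n - i) ^ p ^ i else 0) =
      ∑ i ∈ D.support ∪ Finset.range (n + 1),
        (if i ≤ n then D.coeff i * L.coeff (n - i) ^ p ^ i else 0) := by
    refine Finset.sum_subset Finset.subset_union_left fun i _ hi => ?_
    rw [notMem_support_iff.1 hi, zero_mul, ite_self]
  have h3 : ∑ i ∈ Finset.range (n + 1), D.coeff i * L.coeff (n - i) ^ p ^ i =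
      ∑ i ∈ D.support ∪ Finset.range (n + 1),
        (if i ≤ n then D.coeff i * L.coeff (n - i) ^ p ^ i else 0) := by
    rw [← Finset.sum_subset (Finset.subset_union_right (s₁ := D.support)
      (s₂ := Finset.range (n + 1)))]
    · refine Finset.sum_congr rfl fun i hi => ?_
      rw [if_pos (Nat.lt_succ_iff.1 (Finset.mem_range.1 hi))]
    · intro i _ hi
      rw [if_neg]
      intro h
      exact hi (Finset.mem_range.2 (Nat.lt_succ_iff.2 h))
  rw [h2, h3]

theorem star_add_left [CharP F p] (D E L : F[X]) : star p (D + E) L = star p D L + star p E L := by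
  ext n
  rw [coeff_add, coeff_star, coeff_star, coeff_star, ← Finset.sum_add_distrib]
  refine Finset.sum_congr rfl fun i _ => ?_
  rw [coeff_add, add_mul]

theorem star_smul_left [CharP F p] (c : F) (D L : F[X]) : star p (c • D) L = c • star p D L := by
  ext n
  rw [coeff_smul, coeff_star, coeff_star, Finset.smul_sum]
  refine Finset.sum_congr rfl fun i _ => ?_
  rw [coeff_smul, smul_eq_mul, smul_eq_mul, mul_assoc]

end act

section ff

variable {p : ℕ} [hp : Fact p.Prime]

instance charP_FF : CharP (FF p) p :=
  charP_of_injective_algebraMap (IsFractionRing.injective (P1 p) (FF p)) p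

/-- the element `t` -/
noncomputable def tF (p : ℕ) [Fact p.Prime] : FF p := algebraMap (P1 p) (FF p) X

theorem tau_injective : Function.Injective (tau p) := Polynomial.coe_injective _

theorem tau_X : tau p X = PowerSeries.X := by
  simp [tau]

theorem poly_basis (f : P1 p) : f = ∑ s ∈ Finset.range p, X ^ s * sec s f ^ p := by
  apply tau_injective
  rw [map_sum, ← tau_sec f]
  refine Finset.sum_congr rfl fun s _ => ?_
  rw [map_mul, map_pow, map_pow, tau_X]

theorem ff_basis (c : FF p) : ∃ f : ℕ → FF p, c = ∑ s ∈ Finset.range p, tF p ^ s * f s ^ p := by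
  obtain ⟨a, b, hb, rfl⟩ := IsFractionRing.div_surjective (A := P1 p) c
  have hb0 : algebraMap (P1 p) (FF p) b ≠ 0 := by
    intro h
    rw [map_eq_zero_iff _ (IsFractionRing.injective (P1 p) (FF p))] at h
    exact nonZeroDivisors.ne_zero hb h
  have h1 : algebraMap (P1 p) (FF p) a / algebraMap (P1 p) (FF p) b =
      algebraMap (P1 p) (FF p) (a * b ^ (p - 1)) / algebraMap (P1 p) (FF p) b ^ p := by
    rw [map_mul, map_pow, div_eq_div_iff hb0 (pow_ne_zero _ hb0), mul_assoc, ← pow_succ,
      Nat.sub_add_cancel hp.out.one_le]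
  refine ⟨fun s => algebraMap (P1 p) (FF p) (sec s (a * b ^ (p - 1))) /
    algebraMap (P1 p) (FF p) b, ?_⟩
  rw [h1]
  conv_lhs => rw [poly_basis (a * b ^ (p - 1)), map_sum, Finset.sum_div]
  refine Finset.sum_congr rfl fun s _ => ?_
  rw [map_mul, map_pow, map_pow, div_pow, mul_div_assoc]
  rfl

theorem ff_indep (f : ℕ → FF p) (h : ∑ s ∈ Finset.range p, tF p ^ s * f s ^ p = 0) :
    ∀ s < p, f s = 0 := by
  classical
  obtain ⟨b, hb⟩ := IsLocalization.exist_integer_multiples (nonZeroDivisors (P1 p))
    (Finset.range p) f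
  have hb0 : algebraMap (P1 p) (FF p) b ≠ 0 := by
    intro h0
    rw [map_eq_zero_iff _ (IsFractionRing.injective (P1 p) (FF p))] at h0
    exact nonZeroDivisors.ne_zero b.2 h0
  have hb' : ∀ s, ∃ g : P1 p, s ∈ Finset.range p →
      algebraMap (P1 p) (FF p) g = algebraMap (P1 p) (FF p) b * f s := by
    intro s
    by_cases hs : s ∈ Finset.range p
    · obtain ⟨g, hg⟩ := hb s hs
      refine ⟨g, fun _ => ?_⟩
      rw [hg, Algebra.smul_def]
    · exact ⟨0, fun h => absurd h hs⟩
  choose g hg using hb'
  have h1 : ∑ s ∈ Finset.range p, (X : P1 p) ^ s * g s ^ p = 0 := by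
    apply IsFractionRing.injective (P1 p) (FF p)
    rw [map_zero, map_sum]
    have h2 : ∑ s ∈ Finset.range p, algebraMap (P1 p) (FF p) (X ^ s * g s ^ p) =
        algebraMap (P1 p) (FF p) b ^ p * ∑ s ∈ Finset.range p, tF p ^ s * f s ^ p := by
      rw [Finset.mul_sum]
      refine Finset.sum_congr rfl fun s hs => ?_
      rw [map_mul, map_pow, map_pow, hg s hs, mul_pow]
      unfold tF
      ring
    rw [h2, h, mul_zero]
  have h3 := indep_pow (p := p) (fun s => tau p (g s)) (by
    have := congrArg (tau p) h1
    rw [map_zero, map_sum] at this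
    rw [← this]
    refine Finset.sum_congr rfl fun s _ => ?_
    rw [map_mul, map_pow, map_pow, tau_X])
  intro s hs
  have h4 : g s = 0 := by
    apply tau_injective
    rw [h3 s hs, map_zero]
  have h5 := hg s (Finset.mem_range.2 hs)
  rw [h4, map_zero] at h5
  exact (mul_eq_zero.1 h5.symm).resolve_left hb0

/-- decomposition of inseparable operators -/
theorem act_split (L : (FF p)[X]) (h : L.coeff 0 = 0) :
    ∃ K : ℕ → (FF p)[X], (∀ s, (K s).natDegree ≤ L.natDegree - 1) ∧
      ∀ (B : Type) [CommRing B] [CharP B p] (ι : FF p →+* B) (x : B),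
        act p ι L x = ∑ s ∈ Finset.range p, ι (tF p) ^ s * act p ι (K s) x ^ p := by
  have hb := ff_basis (p := p)
  choose f hf using hb
  refine ⟨fun s => ∑ i ∈ Finset.range L.natDegree, monomial i (f (L.coeff (i + 1)) s), ?_, ?_⟩
  · intro s
    refine natDegree_sum_le_of_forall_le _ _ fun i hi => ?_
    rw [Finset.mem_range] at hi
    exact (natDegree_monomial_le _).trans (by omega)
  · intro B _ _ ι x
    have h1 : act p ι L x = ∑ i ∈ Finset.range L.natDegree,
        ι (L.coeff (i + 1)) * x ^ p ^ (i + 1) := by
      unfold act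
      rw [Polynomial.sum_over_range _ (fun i => by rw [map_zero, zero_mul]),
        Finset.sum_range_succ', h, map_zero, zero_mul, add_zero]
    have h2 : ∀ s, act p ι (∑ i ∈ Finset.range L.natDegree,
        monomial i (f (L.coeff (i + 1)) s)) x ^ p =
        ∑ i ∈ Finset.range L.natDegree, ι (f (L.coeff (i + 1)) s) ^ p * x ^ p ^ (i + 1) := by
      intro s
      rw [act_sum_left, sum_pow_char]
      refine Finset.sum_congr rfl fun i _ => ?_
      rw [act_monomial, mul_pow, ← pow_mul, ← pow_succ]
    have h3 : ∑ s ∈ Finset.range p, ι (tF p) ^ s * act p ι (∑ i ∈ Finset.range L.natDegree,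
        monomial i (f (L.coeff (i + 1)) s)) x ^ p = ∑ s ∈ Finset.range p,
        ∑ i ∈ Finset.range L.natDegree,
          ι (tF p) ^ s * (ι (f (L.coeff (i + 1)) s) ^ p * x ^ p ^ (i + 1)) := by
      refine Finset.sum_congr rfl fun s _ => ?_
      rw [h2 s, Finset.mul_sum]
    rw [h1, h3, Finset.sum_comm]
    refine Finset.sum_congr rfl fun i _ => ?_
    conv_lhs => rw [hf (L.coeff (i + 1)), map_sum, Finset.sum_mul]
    refine Finset.sum_congr rfl fun s _ => ?_
    rw [map_mul, map_pow, map_pow, mul_assoc]

/-! ### The Ore condition -/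

section ore

variable {F : Type*} [Field F] [CharP F p]

theorem star_coeff_zero (D K : F[X]) : (star p D K).coeff 0 = D.coeff 0 * K.coeff 0 := by
  rw [coeff_star, Finset.sum_range_one, pow_zero, pow_one]

theorem star_coeff_add (D K : F[X]) :
    (star p D K).coeff (D.natDegree + K.natDegree) =
      D.leadingCoeff * K.leadingCoeff ^ p ^ D.natDegree := by
  rw [coeff_star, Finset.sum_eq_single_of_mem D.natDegree
    (Finset.mem_range.2 (by omega)), Nat.add_sub_cancel_left]
  · rfl
  · intro i _ hi
    rcases lt_or_gt_of_ne hi with h | h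
    · rw [coeff_eq_zero_of_natDegree_lt (p := K) (by omega),
        zero_pow (pow_ne_zero _ hp.out.ne_zero), mul_zero]
    · rw [coeff_eq_zero_of_natDegree_lt (p := D) h, zero_mul]

theorem star_ne_zero {D K : F[X]} (hD : D ≠ 0) (hK : K ≠ 0) : star p D K ≠ 0 := by
  intro h
  have h1 := star_coeff_add (p := p) D K
  rw [h, coeff_zero] at h1
  exact mul_ne_zero (leadingCoeff_ne_zero.2 hD)
    (pow_ne_zero _ (leadingCoeff_ne_zero.2 hK)) h1.symm

theorem star_coeff_large {D K : F[X]} {d k n : ℕ} (hD : D.natDegree ≤ d) (hK : K.natDegree ≤ k)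
    (hn : d + k < n) : (star p D K).coeff n = 0 := by
  rw [coeff_star]
  refine Finset.sum_eq_zero fun i hi => ?_
  by_cases h : i ≤ d
  · rw [coeff_eq_zero_of_natDegree_lt (p := K) (by omega),
      zero_pow (pow_ne_zero _ hp.out.ne_zero), mul_zero]
  · rw [coeff_eq_zero_of_natDegree_lt (p := D) (by omega), zero_mul]

/-- composition as a linear map -/
noncomputable def starL (p : ℕ) [Fact p.Prime] {F : Type*} [Field F] [CharP F p] (K : F[X]) :
    F[X] →ₗ[F] F[X] where
  toFun D := star p D K
  map_add' D E := star_add_left D E K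
  map_smul' c D := star_smul_left c D K

/-- the polynomial with given coefficients -/
noncomputable def pol (F : Type*) [Field F] (m : ℕ) : (Fin m → F) →ₗ[F] F[X] :=
  ∑ i : Fin m, (monomial (i : ℕ)).comp (LinearMap.proj i)

theorem pol_apply (m : ℕ) (d : Fin m → F) : pol F m d = ∑ i : Fin m, monomial (i : ℕ) (d i) := by
  unfold pol
  rw [LinearMap.sum_apply]
  rfl

theorem coeff_pol (m : ℕ) (d : Fin m → F) (i : Fin m) : (pol F m d).coeff i = d i := by
  rw [pol_apply, finsetSum_coeff, Finset.sum_eq_single i]
  · rw [coeff_monomial, if_pos rfl]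
  · intro j _ hj
    rw [coeff_monomial, if_neg]
    intro h
    exact hj (Fin.ext h)
  · intro h
    exact absurd (Finset.mem_univ _) h

theorem natDegree_pol (m : ℕ) (d : Fin (m + 1) → F) : (pol F (m + 1) d).natDegree ≤ m := by
  rw [pol_apply]
  refine natDegree_sum_le_of_forall_le _ _ fun i _ => ?_
  exact (natDegree_monomial_le _).trans (by omega)

theorem exists_star_eq (K L : F[X]) (hL : L ≠ 0) :
    ∃ D E : F[X], D ≠ 0 ∧ star p D K = star p E L := by
  set k := K.natDegree with hk
  set l := L.natDegree with hl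
  let Ψ : (Fin (l + 1) → F) × (Fin (k + 1) → F) →ₗ[F] F[X] :=
    (starL p K).comp ((pol F (l + 1)).comp (LinearMap.fst F _ _)) -
      (starL p L).comp ((pol F (k + 1)).comp (LinearMap.snd F _ _))
  let Φ : (Fin (l + 1) → F) × (Fin (k + 1) → F) →ₗ[F] (Fin (k + l + 1) → F) :=
    LinearMap.pi fun n => (lcoeff F (n : ℕ)).comp Ψ
  have hker : LinearMap.ker Φ ≠ ⊥ := by
    apply LinearMap.ker_ne_bot_of_finrank_lt
    rw [Module.finrank_prod, Module.finrank_fin_fun, Module.finrank_fin_fun,
      Module.finrank_fin_fun]
    omega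
  obtain ⟨⟨d, e⟩, hmem, hne⟩ := Submodule.exists_mem_ne_zero_of_ne_bot hker
  have hΨ : ∀ n, (star p (pol F (l + 1) d) K - star p (pol F (k + 1) e) L).coeff n = 0 := by
    intro n
    by_cases hn : n < k + l + 1
    · have h1 := congrFun (LinearMap.mem_ker.1 hmem) ⟨n, hn⟩
      exact h1
    · rw [coeff_sub, star_coeff_large (natDegree_pol l d) (le_refl k) (by omega),
        star_coeff_large (natDegree_pol k e) (le_refl l) (by omega), sub_zero]
  have heq : star p (pol F (l + 1) d) K = star p (pol F (k + 1) e) L := by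
    rw [← sub_eq_zero]
    ext n
    rw [hΨ n, coeff_zero]
  refine ⟨pol F (l + 1) d, pol F (k + 1) e, ?_, heq⟩
  intro hD
  have h2 : star p (pol F (k + 1) e) L = 0 := by
    rw [← heq, hD]
    exact map_zero (starL p K)
  have h3 : pol F (k + 1) e = 0 := by
    by_contra h
    exact star_ne_zero h hL h2
  apply hne
  refine Prod.ext ?_ ?_
  · funext i
    have h4 : d i = 0 := by rw [← coeff_pol (l + 1) d i, hD, coeff_zero]
    exact h4
  · funext i
    have h4 : e i = 0 := by rw [← coeff_pol (k + 1) e i, h3, coeff_zero]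
    exact h4

end ore

/-- coordinates of the coefficients -/
theorem exists_crd : ∃ κ : ℕ → (FF p)[X] → (FF p)[X],
    (∀ A : (FF p)[X], ∀ s < p, (κ s A).natDegree ≤ A.natDegree - 1) ∧
    (∀ A : (FF p)[X], ∀ i, A.coeff (i + 1) =
      ∑ s ∈ Finset.range p, tF p ^ s * (κ s A).coeff i ^ p) := by
  have hb := ff_basis (p := p)
  choose f hf using hb
  have hf0 : ∀ s < p, f 0 s = 0 := ff_indep (f 0) (hf 0).symm
  have hc : ∀ (A : (FF p)[X]) (s i : ℕ), s < p →
      (∑ i ∈ Finset.range A.natDegree, monomial i (f (A.coeff (i + 1)) s)).coeff i =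
        f (A.coeff (i + 1)) s := by
    intro A s i hs
    rw [finsetSum_coeff]
    simp only [coeff_monomial]
    rw [Finset.sum_ite_eq']
    split_ifs with h
    · rfl
    · rw [Finset.mem_range, not_lt] at h
      rw [coeff_eq_zero_of_natDegree_lt (p := A) (by omega), hf0 s hs]
  refine ⟨fun s A => ∑ i ∈ Finset.range A.natDegree, monomial i (f (A.coeff (i + 1)) s), ?_, ?_⟩
  · intro A s _
    refine natDegree_sum_le_of_forall_le _ _ fun i hi => ?_
    rw [Finset.mem_range] at hi
    exact (natDegree_monomial_le _).trans (by omega)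
  · intro A i
    conv_lhs => rw [hf (A.coeff (i + 1))]
    refine Finset.sum_congr rfl fun s hs => ?_
    rw [hc A s i (Finset.mem_range.1 hs)]

theorem ore_aux (K L : (FF p)[X]) (hL : L.coeff 0 ≠ 0) (n : ℕ) : ∀ D E : (FF p)[X],
    D ≠ 0 → D.natDegree ≤ n → star p D K = star p E L →
      ∃ D E : (FF p)[X], D.coeff 0 ≠ 0 ∧ star p D K = star p E L := by
  induction n with
  | zero =>
    intro D E hD hn h
    refine ⟨D, E, ?_, h⟩
    intro h0
    apply hD
    rw [eq_C_of_natDegree_le_zero hn, h0, C_0]
  | succ n ih =>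
    intro D E hD hn h
    by_cases h0 : D.coeff 0 = 0
    · have hE0 : E.coeff 0 = 0 := by
        have h1 := congrArg (fun q => Polynomial.coeff q 0) h
        simp only [star_coeff_zero] at h1
        rw [h0, zero_mul] at h1
        exact (mul_eq_zero.1 h1.symm).resolve_right hL
      obtain ⟨κ, hdeg, hκ⟩ := exists_crd (p := p)
      have key : ∀ (A B : (FF p)[X]), A.coeff 0 = 0 → ∀ m, (star p A B).coeff (m + 1) =
          ∑ s ∈ Finset.range p, tF p ^ s * (star p (κ s A) B).coeff m ^ p := by
        intro A B hA m
        rw [coeff_star, Finset.sum_range_succ', hA, zero_mul, add_zero]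
        have h2 : ∀ s, (star p (κ s A) B).coeff m ^ p = ∑ i ∈ Finset.range (m + 1),
            (κ s A).coeff i ^ p * B.coeff (m - i) ^ p ^ (i + 1) := by
          intro s
          rw [coeff_star, sum_pow_char]
          refine Finset.sum_congr rfl fun i _ => ?_
          rw [mul_pow, ← pow_mul, ← pow_succ]
        have h3 : ∑ s ∈ Finset.range p, tF p ^ s * (star p (κ s A) B).coeff m ^ p =
            ∑ s ∈ Finset.range p, ∑ i ∈ Finset.range (m + 1),
              tF p ^ s * ((κ s A).coeff i ^ p * B.coeff (m - i) ^ p ^ (i + 1)) := by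
          refine Finset.sum_congr rfl fun s _ => ?_
          rw [h2 s, Finset.mul_sum]
        rw [h3, Finset.sum_comm]
        refine Finset.sum_congr rfl fun i _ => ?_
        rw [hκ A i, Finset.sum_mul, Nat.add_sub_add_right]
        refine Finset.sum_congr rfl fun s _ => ?_
        rw [mul_assoc]
      have heq : ∀ s < p, star p (κ s D) K = star p (κ s E) L := by
        intro s hs
        ext m
        have h4 : (star p D K).coeff (m + 1) = (star p E L).coeff (m + 1) := by rw [h]
        rw [key D K h0 m, key E L hE0 m] at h4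
        have h5 : ∑ s ∈ Finset.range p, tF p ^ s *
            ((star p (κ s D) K).coeff m - (star p (κ s E) L).coeff m) ^ p = 0 := by
          rw [← sub_eq_zero.2 h4, ← Finset.sum_sub_distrib]
          refine Finset.sum_congr rfl fun s _ => ?_
          rw [sub_pow_char, mul_sub]
        exact sub_eq_zero.1 (ff_indep _ h5 s hs)
      have hne : ∃ s < p, κ s D ≠ 0 := by
        by_contra hcon
        push Not at hcon
        apply hD
        ext i
        rw [coeff_zero]
        rcases Nat.eq_zero_or_pos i with rfl | hi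
        · exact h0
        · obtain ⟨j, rfl⟩ : ∃ j, i = j + 1 := ⟨i - 1, by omega⟩
          rw [hκ D j]
          refine Finset.sum_eq_zero fun s hs => ?_
          rw [hcon s (Finset.mem_range.1 hs), coeff_zero, zero_pow hp.out.ne_zero, mul_zero]
      obtain ⟨s, hs, hsne⟩ := hne
      exact ih (κ s D) (κ s E) hsne ((hdeg D s hs).trans (by omega)) (heq s hs)
    · exact ⟨D, E, h0, h⟩

/-- the Ore condition, with a separable multiplier -/
theorem ore (K L : (FF p)[X]) (hL : L.coeff 0 ≠ 0) :
    ∃ D E : (FF p)[X], D.coeff 0 ≠ 0 ∧ star p D K = star p E L := by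
  have hL0 : L ≠ 0 := by
    rintro rfl
    exact hL (coeff_zero 0)
  obtain ⟨D, E, hD, h⟩ := exists_star_eq (p := p) K L hL0
  exact ore_aux K L hL D.natDegree D E hD le_rfl h

instance countable_P1 : Countable (P1 p) := by
  have h0 : Finite (ZMod p) := by
    have : NeZero p := ⟨hp.out.ne_zero⟩
    infer_instance
  have h1 : Countable (ℕ →₀ ZMod p) := inferInstance
  have h2 : Function.Injective (fun q : P1 p => (Finsupp.onFinset q.support q.coeff
      (fun i hi => mem_support_iff.2 hi) : ℕ →₀ ZMod p)) := by
    intro q r h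
    ext i
    exact DFunLike.congr_fun h i
  exact h2.countable

instance countable_FF : Countable (FF p) := by
  have h1 : Countable (P1 p × P1 p) := inferInstance
  have h2 : Function.Surjective (fun x : P1 p × P1 p =>
      algebraMap (P1 p) (FF p) x.1 / algebraMap (P1 p) (FF p) x.2) := by
    intro c
    obtain ⟨a, b, -, h⟩ := IsFractionRing.div_surjective (A := P1 p) c
    exact ⟨(a, b), h⟩
  exact h2.countable

end ff

end AF80
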