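import Pool.Agent.AF80.Lam

/-!
# The additive fragment: partial isomorphisms preserve the atomic formulas
-/

set_option autoImplicit false
set_option maxSynthPendingDepth 10

open Polynomial Filter

namespace AF80

open FT80 BF80

variable {p : ℕ} [hp : Fact p.Prime] {P Q : Type} [Field P] [Field Q] {σ : P1 p →+* P}
  {τ : P1 p →+* Q}

/-- `p e`-th powers in terms of the coordinates -/
theorem pow_pb_iff (hM : Mdl p σ) (f : ℕ → P) (e : ℕ) :
    (∃ y : P, y ^ (p * e) = ∑ s ∈ Finset.range p, σ X ^ s * f s ^ p) ↔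
      (∀ s, 0 < s → s < p → f s = 0) ∧ ∃ y : P, y ^ e = f 0 := by
  have hp0 : 0 < p := hp.out.pos
  have hsum : ∀ g : ℕ → P, (∀ s, 0 < s → s < p → g s = 0) →
      ∑ s ∈ Finset.range p, σ X ^ s * g s ^ p = g 0 ^ p := by
    intro g hg
    rw [Finset.sum_eq_single_of_mem 0 (Finset.mem_range.2 hp0)]
    · rw [pow_zero, one_mul]
    · intro s hs hs0
      rw [hg s (Nat.pos_of_ne_zero hs0) (Finset.mem_range.1 hs), zero_pow hp.out.ne_zero, mul_zero]
  constructor
  · rintro ⟨y, hy⟩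
    have h1 := hsum (fun s => if s = 0 then y ^ e else 0) (fun s hs _ => if_neg hs.ne')
    have h2 : ∑ s ∈ Finset.range p, σ X ^ s * f s ^ p =
        ∑ s ∈ Finset.range p, σ X ^ s * (if s = 0 then y ^ e else 0) ^ p := by
      rw [h1, if_pos rfl, ← hy, ← pow_mul, mul_comm]
    have h3 := pb_unique hM f (fun s => if s = 0 then y ^ e else 0) h2
    refine ⟨fun s hs hsp => ?_, y, ?_⟩
    · rw [h3 s hsp]
      exact if_neg hs.ne'
    · rw [h3 0 hp0]
      exact (if_pos rfl).symm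
  · rintro ⟨h1, y, hy⟩
    refine ⟨y, ?_⟩
    rw [hsum f h1, ← hy, ← pow_mul, mul_comm]

variable {hP : Mdl p σ} {hQ : Mdl p τ} {G : Set (P × Q)} {Λ : Subgroup (hP.VGˣ × hQ.VGˣ)}

theorem GA.zero_iff (h : GA hP hQ G Λ) {a : P × Q} (ha : a ∈ G) : a.1 = 0 ↔ a.2 = 0 :=
  RVC.zero_iff (h.rvc a ha)

theorem GA.eq_iff (h : GA hP hQ G Λ) {a b : P × Q} (ha : a ∈ G) (hb : b ∈ G) :
    a.1 = b.1 ↔ a.2 = b.2 := by
  have h1 := h.zero_iff (h.sub a ha b hb)
  rw [Prod.fst_sub, Prod.snd_sub, sub_eq_zero, sub_eq_zero] at h1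
  exact h1

theorem GA.vo_iff (h : GA hP hQ G Λ) {a : P × Q} (ha : a ∈ G) :
    VO (σ X) a.1 ↔ VO (τ X) a.2 := by
  have h1 := RVC.fv_le h.iso (h.rvc a ha) (h.rvc _ h.one)
  rw [map_one, map_one] at h1
  rw [← hP.fv_le_one, ← hQ.fv_le_one]
  exact h1

theorem GA.dvd_iff (h : GA hP hQ G Λ) {a b c d : P × Q} (ha : a ∈ G) (hb : b ∈ G) (hc : c ∈ G)
    (hd : d ∈ G) : DV (σ X) (a.1 * b.1) (c.1 * d.1) ↔ DV (τ X) (a.2 * b.2) (c.2 * d.2) := by
  rw [hP.DV_iff, hQ.DV_iff]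
  exact RVC.fv_le h.iso ((h.rvc c hc).mul (h.rvc d hd)) ((h.rvc a ha).mul (h.rvc b hb))

theorem GA.pow_iff (h : GA hP hQ G Λ) {a : P × Q} (ha : a ∈ G) (d : ℕ) :
    (∃ y : P, y ^ d = a.1) ↔ ∃ y : Q, y ^ d = a.2 := by
  induction d using Nat.strong_induction_on generalizing a with
  | _ d ih =>
    rcases Nat.eq_zero_or_pos d with rfl | hd0
    · simp only [pow_zero, exists_const]
      exact h.eq_iff h.one ha
    by_cases hpd : p ∣ d
    · obtain ⟨e, rfl⟩ := hpd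
      obtain ⟨f, hf, hfa⟩ := h.lam a ha
      have h1 : a.1 = ∑ s ∈ Finset.range p, σ X ^ s * (f s).1 ^ p := by
        conv_lhs => rw [hfa]
        rw [Prod.fst_sum]
        rfl
      have h2 : a.2 = ∑ s ∈ Finset.range p, τ X ^ s * (f s).2 ^ p := by
        conv_lhs => rw [hfa]
        rw [Prod.snd_sum]
        rfl
      rw [h1, h2, pow_pb_iff hP (fun s => (f s).1) e, pow_pb_iff hQ (fun s => (f s).2) e]
      have he : e < p * e := by
        have he0 : 0 < e := by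
          rcases Nat.eq_zero_or_pos e with rfl | he0
          · rw [mul_zero] at hd0
            exact absurd hd0 (lt_irrefl _)
          · exact he0
        exact lt_mul_of_one_lt_left he0 hp.out.one_lt
      refine and_congr ?_ (ih e he (hf 0))
      exact forall_congr' fun s => forall₂_congr fun _ _ => h.zero_iff (hf s)
    · rcases h.rvc a ha with ⟨h1, h2⟩ | ⟨⟨h1, h2, h3⟩, h4⟩
      · rw [h1, h2]
        exact ⟨fun _ => ⟨0, zero_pow hd0.ne'⟩, fun _ => ⟨0, zero_pow hd0.ne'⟩⟩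
      · rw [pow_iff_ac hP hpd h1, pow_iff_ac hQ hpd h2, h4]
        exact and_congr (h.iso.dvd d hd0.ne' _ h3) Iff.rfl

theorem GA.zero_mem (h : GA hP hQ G Λ) : ((0 : P), (0 : Q)) ∈ G := by
  have h1 := h.sub _ h.one _ h.one
  rw [sub_self] at h1
  exact h1

theorem GA.add_mem (h : GA hP hQ G Λ) {a b : P × Q} (ha : a ∈ G) (hb : b ∈ G) : a + b ∈ G := by
  have h1 := h.sub a ha _ (h.sub _ h.zero_mem b hb)
  have h2 : a - (((0 : P), (0 : Q)) - b) = a + b := by
    rw [Prod.mk_zero_zero, zero_sub, sub_neg_eq_add]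
  rwa [h2] at h1

theorem GA.term (h : GA hP hQ G Λ) {e : ℕ → P} {e' : ℕ → Q} (he : ∀ i, (e i, e' i) ∈ G)
    (a : AT) : (a.val p (σ X) e, a.val p (τ X) e') ∈ G := by
  induction a with
  | zero => exact h.zero_mem
  | one => exact h.one
  | var k => exact he k
  | add a b ha hb => exact h.add_mem ha hb
  | sub a b ha hb => exact h.sub _ ha _ hb
  | tm a ha =>
    have h1 := h.smul (tF p) _ ha
    rw [io_tF, io_tF] at h1
    exact h1
  | fr a ha => exact h.frob _ ha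

end AF80
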