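import Pool.Agent.AF80.Defs
import Pool.Agent.BF80.AxiomsV

/-!
# The axioms of the models of the additive fragment
-/

set_option autoImplicit false
set_option maxSynthPendingDepth 10

open Polynomial

namespace AF80

open FT80 BF80

namespace AxA

open Ax AxV

section

variable {M : Type} [Field M] (t : M)

/-- `x_v` is a sum `y_0 ^ p + t y_1 ^ p + … + t ^ (k - 1) y_(k - 1) ^ p` -/
def pbF (p : ℕ) : ℕ → ℕ → FR
  | 0, v => .zero v
  | k + 1, v => .ex 2 (.ex (2 * p + 11) (.and (WF p) (.ex (v + 1) (.and (pbF p k (v + 1))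
      (.ex 1 (.and (.tt 1) (.ex (v + 2) (.and (.mul 1 (v + 1) (v + 2))
        (.add (2 * p + 11) (v + 2) v)))))))))

theorem sat_pbF (p k : ℕ) : ∀ (v : ℕ) (e : ℕ → M), 2 * p + 12 ≤ v →
    (Sat (ringRS t) e (pbF p k v) ↔
      ∃ y : ℕ → M, e v = ∑ s ∈ Finset.range k, t ^ s * y s ^ p) := by
  induction k with
  | zero =>
    intro v e hv
    simp [pbF, Sat, ringRS]
  | succ k ih =>
    intro v e hv
    rw [pbF]
    simp only [Sat, sat_WF]
    have ih' := fun e' => ih (v + 1) e' (by omega)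
    simp only [ih']
    simp only [ringRS, Function.update_apply]
    have h1 : 2 ≠ 2 * p + 11 := by omega
    have h2 : 2 * p + 11 ≠ v + 1 := by omega
    have h3 : 2 * p + 11 ≠ v + 2 := by omega
    have h4 : 2 * p + 11 ≠ 1 := by omega
    have h5 : v ≠ v + 1 := by omega
    have h6 : v ≠ v + 2 := by omega
    have h7 : v ≠ 1 := by omega
    have h8 : v ≠ 2 := by omega
    have h9 : v ≠ 2 * p + 11 := by omega
    have h10 : 1 ≠ v + 2 := by omega
    have h11 : v + 1 ≠ v + 2 := by omega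
    have h12 : v + 1 ≠ 1 := by omega
    simp only [h1, h2, h3, h4, h5, h6, h7, h8, h9, h10, h11, h12, if_true, if_false]
    constructor
    · rintro ⟨y, w, hw, z, ⟨f, hf⟩, T, hT, u, hu, h⟩
      refine ⟨fun s => Nat.casesOn s y f, ?_⟩
      rw [Finset.sum_range_succ', ← h, ← hu, hT, hf, hw, Finset.mul_sum, pow_zero, one_mul,
        add_comm]
      congr 1
      exact Finset.sum_congr rfl fun s _ => by rw [pow_succ', mul_assoc]
    · rintro ⟨y, hy⟩
      refine ⟨y 0, _, rfl, _, ⟨fun s => y (s + 1), rfl⟩, t, rfl, _, rfl, ?_⟩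
      rw [hy, Finset.sum_range_succ', Finset.mul_sum, pow_zero, one_mul, add_comm]
      congr 1
      exact Finset.sum_congr rfl fun s _ => by rw [pow_succ', mul_assoc]

theorem sat_pb (p : ℕ) : (∀ e, Sat (ringRS t) e (pbF p p (2 * p + 12))) ↔ ∀ x : M,
    ∃ y : ℕ → M, x = ∑ s ∈ Finset.range p, t ^ s * y s ^ p := by
  constructor
  · intro h x
    exact (sat_pbF t p p _ (fun _ => x) le_rfl).1 (h _)
  · intro h e
    exact (sat_pbF t p p _ e le_rfl).2 (h _)

end

end AxA

open AxA AxV in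
/-- the axioms of the models of the additive fragment as a primitive recursive list -/
theorem exists_axiomsA (p : ℕ) [Fact p.Prime] : ∃ Ax : ℕ → FR, (Primrec fun n => (Ax n).code) ∧
    (∀ (M : Type) [Field M] (σ : P1 p →+* M), MdlA p σ → ∀ n e, Sat (ringRS (σ X)) e (Ax n)) ∧
    (∀ (α : Type) [Nonempty α] (R : RS α), (∀ n e, Sat R e (Ax n)) →
      ∃ (_ : Field α) (σ : P1 p →+* α), R = ringRS (σ X) ∧ MdlA p σ) := by
  obtain ⟨A, hA, h1, h2⟩ := exists_axiomsV p
  refine ⟨axs A (pbF p p (2 * p + 12)), prim_axs A hA _, ?_, ?_⟩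
  · intro M _ σ hM n e
    cases n with
    | zero => exact (sat_pb _ p).2 hM.pb e
    | succ n => exact h1 M σ hM.toMdlV n e
  · intro α _ R hR
    obtain ⟨F, σ, rfl, hM⟩ := h2 α R fun n e => hR (n + 1) e
    exact ⟨F, σ, rfl, ⟨hM, (sat_pb _ p).1 fun e => hR 0 e⟩⟩

end AF80
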