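import Pool.Agent.AF80.Lam

/-!
# The additive fragment: countable closures
-/

set_option autoImplicit false
set_option maxSynthPendingDepth 10

open Polynomial Filter

namespace AF80

open FT80 BF80

variable {p : ℕ} [hp : Fact p.Prime] {P Q : Type} [Field P] [Field Q] {σ : P1 p →+* P}
  {τ : P1 p →+* Q}

namespace CloA

/-- one step of the closure -/
noncomputable def step (hP : Mdl p σ) (w : P → ℕ → P) (B : Set P) : Set P :=
  B ∪ ((fun x : FF p × (P × P) => x.2.1 - io hP x.1 * x.2.2) '' (Set.univ ×ˢ (B ×ˢ B)) ∪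
    ((fun a => a ^ p) '' B ∪ (fun x : P × ℕ => w x.1 x.2) '' (B ×ˢ Set.univ)))

theorem subset_step (hP : Mdl p σ) (w : P → ℕ → P) (B : Set P) : B ⊆ step hP w B :=
  Set.subset_union_left

theorem step_countable (hP : Mdl p σ) (w : P → ℕ → P) {B : Set P} (hB : B.Countable) :
    (step hP w B).Countable := by
  refine hB.union (Set.Countable.union ?_ (Set.Countable.union ?_ ?_))
  · exact ((Set.countable_univ).prod (hB.prod hB)).image _
  · exact hB.image _
  · exact (hB.prod Set.countable_univ).image _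

/-- the closure -/
noncomputable def clo (hP : Mdl p σ) (w : P → ℕ → P) (A : Set P) (n : ℕ) : Set P :=
  (step hP w)^[n] A

theorem clo_succ (hP : Mdl p σ) (w : P → ℕ → P) (A : Set P) (n : ℕ) :
    clo hP w A (n + 1) = step hP w (clo hP w A n) :=
  Function.iterate_succ_apply' _ _ _

theorem clo_mono (hP : Mdl p σ) (w : P → ℕ → P) (A : Set P) : Monotone (clo hP w A) := by
  apply monotone_nat_of_le_succ
  intro n
  rw [clo_succ]
  exact subset_step hP w _

theorem clo_countable (hP : Mdl p σ) (w : P → ℕ → P) {A : Set P} (hA : A.Countable) (n : ℕ) :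
    (clo hP w A n).Countable := by
  induction n with
  | zero => exact hA
  | succ n ih =>
    rw [clo_succ]
    exact step_countable hP w ih

end CloA

open CloA

theorem exists_closed (hP : MdlA p σ) (A : Set P) (hA : A.Countable)
    (hO : ∀ a ∈ A, a ∈ hP.toMdl.OC) : ∃ T : Set P, A ⊆ T ∧ T.Countable ∧
      (∀ a ∈ T, a ∈ hP.toMdl.OC) ∧
      (∀ c : FF p, ∀ a ∈ T, ∀ b ∈ T, a - io hP.toMdl c * b ∈ T) ∧
      (∀ a ∈ T, a ^ p ∈ T) ∧
      (∀ a ∈ T, ∃ f : ℕ → P, (∀ s, f s ∈ T) ∧ a = ∑ s ∈ Finset.range p, σ X ^ s * f s ^ p) := by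
  classical
  have hpb := hP.pb
  choose y hy using hpb
  set w : P → ℕ → P := fun a s => if s < p then y a s else a with hw
  have hO' : ∀ n, ∀ a ∈ clo hP.toMdl w A n, a ∈ hP.toMdl.OC := by
    intro n
    induction n with
    | zero => exact hO
    | succ n ih =>
      intro a ha
      rw [clo_succ] at ha
      rcases ha with ha | ⟨⟨c, x, z⟩, ⟨-, hx, hz⟩, rfl⟩ | ⟨x, hx, rfl⟩ | ⟨⟨x, s⟩, ⟨hx, -⟩, rfl⟩
      · exact ih a ha
      · exact sub_mem (ih x hx) (mul_mem (io_mem_OC hP.toMdl c) (ih z hz))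
      · exact pow_mem (ih x hx) p
      · simp only [hw]
        split_ifs with hs
        · refine pb_mem_OC hP.toMdl (y x) ?_ s hs
          rw [← hy x]
          exact ih x hx
        · exact ih x hx
  refine ⟨⋃ n, clo hP.toMdl w A n, ?_, ?_, ?_, ?_, ?_, ?_⟩
  · intro a ha
    exact Set.mem_iUnion.2 ⟨0, ha⟩
  · exact Set.countable_iUnion fun n => clo_countable hP.toMdl w hA n
  · intro a ha
    obtain ⟨n, hn⟩ := Set.mem_iUnion.1 ha
    exact hO' n a hn
  · intro c a ha b hb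
    obtain ⟨n, hn⟩ := Set.mem_iUnion.1 ha
    obtain ⟨m, hm⟩ := Set.mem_iUnion.1 hb
    refine Set.mem_iUnion.2 ⟨max n m + 1, ?_⟩
    rw [clo_succ]
    have h1 := clo_mono hP.toMdl w A (le_max_left n m) hn
    have h2 := clo_mono hP.toMdl w A (le_max_right n m) hm
    exact Or.inr (Or.inl ⟨(c, (a, b)), ⟨Set.mem_univ _, h1, h2⟩, rfl⟩)
  · intro a ha
    obtain ⟨n, hn⟩ := Set.mem_iUnion.1 ha
    refine Set.mem_iUnion.2 ⟨n + 1, ?_⟩
    rw [clo_succ]
    exact Or.inr (Or.inr (Or.inl ⟨a, hn, rfl⟩))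
  · intro a ha
    obtain ⟨n, hn⟩ := Set.mem_iUnion.1 ha
    refine ⟨w a, fun s => ?_, ?_⟩
    · refine Set.mem_iUnion.2 ⟨n + 1, ?_⟩
      rw [clo_succ]
      exact Or.inr (Or.inr (Or.inr ⟨(a, s), ⟨hn, Set.mem_univ _⟩, rfl⟩))
    · conv_lhs => rw [hy a]
      refine Finset.sum_congr rfl fun s hs => ?_
      simp only [hw, if_pos (Finset.mem_range.1 hs)]

end AF80
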