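import Pool.Agent.AF80.Defs
import Pool.Agent.BF80.CompileV

/-!
# Compilation of the formulas of the additive fragment into relational formulas

The variable `x_i` is register `2 i + 1`.
-/

set_option autoImplicit false
set_option maxSynthPendingDepth 10

open Polynomial

namespace AF80

open FT80 BF80

namespace CmpA

open CmpV

/-! ### The relational formula of a formula -/

/-- the variable `x_k` -/
def vF (k : ℕ) : ℕ × FR := (0, .eq (2 * k + 1) 0)
/-- the constant `t` -/
def tF : ℕ × FR := (0, .tt 0)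
/-- powers -/
def fPow (n : ℕ) (q : ℕ × FR) : ℕ × FR := Nat.rec (0, .one 0) (fun _ r => fMul r q) n

/-- formula of a term and the value variable -/
def atF (p : ℕ) : AT → ℕ × FR
  | .zero => (0, .zero 0)
  | .one => (0, .one 0)
  | .var k => vF k
  | .add a b => fAdd (atF p a) (atF p b)
  | .sub a b => fSub (atF p a) (atF p b)
  | .tm a => fMul tF (atF p a)
  | .fr a => fPow p (atF p a)

/-- `x_i` is in the valuation ring, `x_k` is an auxiliary variable -/
def vrF (i k : ℕ) : FR :=
  .ex (2 * k + 1) (eqT (fAdd (fMul (vF k) (vF k)) (vF k)) (fMul tF (fMul (vF i) (vF i))))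

/-- divisibility, with the auxiliary variables `x_m` and `x_(m+1)` -/
def dvF (i j k l m : ℕ) : FR :=
  .ex (2 * m + 1) (.and (vrF m (m + 1))
    (eqT (fMul (vF m) (fMul (vF i) (vF j))) (fMul (vF k) (vF l))))

/-- powers, with the auxiliary variable `x_m` -/
def pwF (d i m : ℕ) : FR := .ex (2 * m + 1) (eqT (fPow d (vF m)) (vF i))

/-- relational formula of a formula -/
def cF (p : ℕ) : AFm → FR
  | .eq a b => eqT (atF p a) (atF p b)
  | .dvd i j k l => dvF i j k l (i + j + k + l + 1)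
  | .pow d i => pwF d i (i + 1)
  | .not φ => .neg (cF p φ)
  | .and φ ψ => .and (cF p φ) (cF p ψ)
  | .or φ ψ => .neg (.and (.neg (cF p φ)) (.neg (cF p ψ)))
  | .ex i φ => .ex (2 * i + 1) (.and (vrF i (i + 1)) (cF p φ))
  | .all i φ => .neg (.ex (2 * i + 1) (.and (vrF i (i + 1)) (.neg (cF p φ))))

/-! ### Semantics -/

section sem

variable {R : Type}

theorem lc_upd_odd (E : ℕ → R) (i : ℕ) (a : R) :
    lc (Function.update E (2 * i + 1) a) = Function.update (lc E) i a := by
  funext k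
  by_cases h : k = i
  · subst h
    rw [Function.update_self]
    show Function.update E (2 * k + 1) a (2 * k + 1) = a
    rw [Function.update_self]
  · rw [Function.update_of_ne h]
    show Function.update E (2 * i + 1) a (2 * k + 1) = E (2 * k + 1)
    rw [Function.update_of_ne (by omega)]

variable [CommRing R] {t : R}

theorem ok_v (k : ℕ) : Ok t (vF k) (fun x => x k) := ⟨rfl, fun _ => Iff.rfl⟩

theorem ok_t : Ok t tF (fun _ => t) := ⟨rfl, fun _ => eq_comm⟩

theorem ok_pow (n : ℕ) {q : ℕ × FR} {v : (ℕ → R) → R} (hq : Ok t q v) :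
    Ok t (fPow n q) (fun x => v x ^ n) := by
  induction n with
  | zero =>
    simp only [pow_zero]
    exact ⟨rfl, fun _ => eq_comm⟩
  | succ n ih =>
    simp only [pow_succ]
    exact ok_mul ih hq

theorem ok_at (p : ℕ) (a : AT) : Ok t (atF p a) (fun x => a.val p t x) := by
  induction a with
  | zero => exact ⟨rfl, fun E => eq_comm⟩
  | one => exact ⟨rfl, fun E => eq_comm⟩
  | var k => exact ok_v k
  | add a b iha ihb => exact ok_add iha ihb
  | sub a b iha ihb => exact ok_sub iha ihb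
  | tm a ih => exact ok_mul ok_t ih
  | fr a ih => exact ok_pow p ih

theorem sat_vrF (i k : ℕ) (hk : i ≠ k) (E : ℕ → R) :
    Sat (ringRS t) E (vrF i k) ↔ VR t (lc E i) := by
  refine exists_congr fun y => ?_
  rw [sat_eqT (ok_add (ok_mul (ok_v k) (ok_v k)) (ok_v k))
    (ok_mul ok_t (ok_mul (ok_v i) (ok_v i))), lc_upd_odd]
  simp only [Function.update_self, Function.update_of_ne hk, pow_two]

theorem sat_dvF (i j k l m : ℕ) (hi : i < m) (hj : j < m) (hk : k < m) (hl : l < m)
    (E : ℕ → R) :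
    Sat (ringRS t) E (dvF i j k l m) ↔ DV t (lc E i * lc E j) (lc E k * lc E l) := by
  refine exists_congr fun c => and_congr ?_ ?_
  · rw [sat_vrF _ _ (by omega), lc_upd_odd, Function.update_self]
    exact Iff.rfl
  · rw [sat_eqT (ok_mul (ok_v m) (ok_mul (ok_v i) (ok_v j))) (ok_mul (ok_v k) (ok_v l)),
      lc_upd_odd]
    simp only [Function.update_self, Function.update_of_ne hi.ne, Function.update_of_ne hj.ne,
      Function.update_of_ne hk.ne, Function.update_of_ne hl.ne]

theorem sat_pwF (d i m : ℕ) (hi : i < m) (E : ℕ → R) :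
    Sat (ringRS t) E (pwF d i m) ↔ ∃ y : R, y ^ d = lc E i := by
  refine exists_congr fun y => ?_
  rw [sat_eqT (ok_pow d (ok_v m)) (ok_v i), lc_upd_odd]
  simp only [Function.update_self, Function.update_of_ne hi.ne]

theorem sat_cF (p : ℕ) (φ : AFm) (E : ℕ → R) :
    Sat (ringRS t) E (cF p φ) ↔ φ.HoldsV p t (lc E) := by
  induction φ generalizing E with
  | eq a b => exact sat_eqT (ok_at p a) (ok_at p b) E
  | dvd i j k l => exact sat_dvF i j k l _ (by omega) (by omega) (by omega) (by omega) E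
  | pow d i => exact sat_pwF d i _ (by omega) E
  | not φ ih => exact not_congr (ih E)
  | and φ ψ ih ih' => exact and_congr (ih E) (ih' E)
  | or φ ψ ih ih' =>
    exact (not_congr (and_congr (not_congr (ih E)) (not_congr (ih' E)))).trans
      or_iff_not_and_not.symm
  | ex i φ ih =>
    refine exists_congr fun a => and_congr ?_ ?_
    · rw [sat_vrF _ _ (by omega), lc_upd_odd, Function.update_self]
    · rw [ih, lc_upd_odd]
  | all i φ ih =>
    show ¬ (∃ a, _ ∧ ¬ _) ↔ ∀ a, _ → _
    rw [not_exists]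
    refine forall_congr' fun a => ?_
    rw [sat_vrF _ _ (by omega), lc_upd_odd, Function.update_self, ih, lc_upd_odd, not_and,
      not_not]

end sem

/-! ### The same on codes -/

/-- `vF` on codes -/
def vC (k : ℕ) : ℕ × ℕ := (0, Nat.pair 0 (Nat.pair (2 * k + 1) 0))
/-- `tF` on codes -/
def tC : ℕ × ℕ := (0, Nat.pair 5 0)
/-- the constant `1` on codes -/
def oneC : ℕ × ℕ := (0, Nat.pair 4 0)
/-- `fPow` on codes -/
def cPow (n : ℕ) (q : ℕ × ℕ) : ℕ × ℕ := Nat.rec oneC (fun _ r => cMul r q) n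

theorem tc_pow (n : ℕ) (q : ℕ × FR) : tc (fPow n q) = cPow n (tc q) := by
  induction n with
  | zero => rfl
  | succ n ih =>
    show tc (fMul (fPow n q) q) = cMul (cPow n (tc q)) (tc q)
    rw [tc_mul, ih]

/-- `vrF` on codes -/
def vrC (i k : ℕ) : ℕ :=
  Nat.pair 8 (Nat.pair (2 * k + 1) (eqC (cAdd (cMul (vC k) (vC k)) (vC k))
    (cMul tC (cMul (vC i) (vC i)))))

theorem tc_v (k : ℕ) : tc (vF k) = vC k := rfl
theorem tc_t : tc tF = tC := rfl

theorem code_vrF (i k : ℕ) : (vrF i k).code = vrC i k := by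
  simp only [vrF, vrC, FR.code, code_eqT, tc_add, tc_mul, tc_v, tc_t]

/-- `dvF` on codes -/
def dvC (i j k l m : ℕ) : ℕ :=
  Nat.pair 8 (Nat.pair (2 * m + 1) (Nat.pair 7 (Nat.pair (vrC m (m + 1))
    (eqC (cMul (vC m) (cMul (vC i) (vC j))) (cMul (vC k) (vC l))))))

theorem code_dvF (i j k l m : ℕ) : (dvF i j k l m).code = dvC i j k l m := by
  simp only [dvF, dvC, FR.code, code_vrF, code_eqT, tc_mul, tc_v]

/-- `pwF` on codes -/
def pwC (d i m : ℕ) : ℕ :=
  Nat.pair 8 (Nat.pair (2 * m + 1) (eqC (cPow d (vC m)) (vC i)))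

theorem code_pwF (d i m : ℕ) : (pwF d i m).code = pwC d i m := by
  simp only [pwF, pwC, FR.code, code_eqT, tc_pow, tc_v]

/-- code of `ex` -/
def exC (i : ℕ) (a : ℕ) : ℕ :=
  Nat.pair 8 (Nat.pair (2 * i + 1) (Nat.pair 7 (Nat.pair (vrC i (i + 1)) a)))
/-- code of `all` -/
def allC (i : ℕ) (a : ℕ) : ℕ :=
  Nat.pair 6 (Nat.pair 8 (Nat.pair (2 * i + 1) (Nat.pair 7 (Nat.pair (vrC i (i + 1))
    (Nat.pair 6 a)))))

theorem code_ex (p i : ℕ) (φ : AFm) : (cF p (.ex i φ)).code = exC i (cF p φ).code := by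
  simp only [cF, exC, FR.code, code_vrF]

theorem code_all (p i : ℕ) (φ : AFm) : (cF p (.all i φ)).code = allC i (cF p φ).code := by
  simp only [cF, allC, FR.code, code_vrF]

/-- state of the parser: stack of terms and stack of formulas -/
abbrev StA := List (ℕ × ℕ) × List ℕ

/-- default term -/
def dT : ℕ × ℕ := (0, Nat.pair 3 0)
/-- default formula -/
def dF : ℕ := dvC 0 0 0 0 1

/-- first argument -/
def arg1 (s : StA) : ℕ × ℕ := s.1.getD 0 dT
/-- second argument -/
def arg2 (s : StA) : ℕ × ℕ := s.1.getD 1 dT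
/-- first formula -/
def frg1 (s : StA) : ℕ := s.2.getD 0 dF
/-- second formula -/
def frg2 (s : StA) : ℕ := s.2.getD 1 dF

/-- the code of an atom of divisibility -/
def dC (m : ℕ) : ℕ := dvC m.unpair.1.unpair.1 m.unpair.1.unpair.2 m.unpair.2.unpair.1
  m.unpair.2.unpair.2 (m.unpair.1.unpair.1 + m.unpair.1.unpair.2 + m.unpair.2.unpair.1 +
    m.unpair.2.unpair.2 + 1)

/-- the code of an atom of powers -/
def pC (m : ℕ) : ℕ := pwC m.unpair.1 m.unpair.2 (m.unpair.2 + 1)

/-- one step of the parser (the word is read from right to left) -/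
def step (p n : ℕ) (s : StA) : StA :=
  if n = 0 then ((0, Nat.pair 3 0) :: s.1, s.2)
  else if n = 1 then ((0, Nat.pair 4 0) :: s.1, s.2)
  else if n = 2 then (cMul tC (arg1 s) :: s.1.drop 1, s.2)
  else if n = 3 then (cAdd (arg1 s) (arg2 s) :: s.1.drop 2, s.2)
  else if n = 4 then (cSub (arg1 s) (arg2 s) :: s.1.drop 2, s.2)
  else if n = 5 then (cPow p (arg1 s) :: s.1.drop 1, s.2)
  else if n = 6 then (s.1, Nat.pair 6 (frg1 s) :: s.2.drop 1)
  else if n = 7 then (s.1, Nat.pair 7 (Nat.pair (frg1 s) (frg2 s)) :: s.2.drop 2)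
  else if n = 8 then
    (s.1, Nat.pair 6 (Nat.pair 7 (Nat.pair (Nat.pair 6 (frg1 s)) (Nat.pair 6 (frg2 s)))) ::
      s.2.drop 2)
  else if (n - 9) % 8 = 0 then (vC ((n - 9) / 8) :: s.1, s.2)
  else if (n - 9) % 8 = 1 then
    (s.1, exC ((n - 9) / 8) (frg1 s) :: s.2.drop 1)
  else if (n - 9) % 8 = 2 then
    (s.1, allC ((n - 9) / 8) (frg1 s) :: s.2.drop 1)
  else if (n - 9) % 8 = 3 then (s.1.drop 2, eqC (arg1 s) (arg2 s) :: s.2)
  else if (n - 9) % 8 = 4 then (s.1, dC ((n - 9) / 8) :: s.2)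
  else if (n - 9) % 8 = 5 then (s.1, pC ((n - 9) / 8) :: s.2)
  else s

/-- parser -/
def parse (p : ℕ) (w : List ℕ) : StA := w.foldr (step p) ([], [])

/-- the code of the compiled formula with code `w` -/
def comp (p : ℕ) (w : List ℕ) : ℕ := frg1 (parse p w)

theorem step_ge (p n : ℕ) (hn : 9 ≤ n) (s : StA) : step p n s =
  if (n - 9) % 8 = 0 then (vC ((n - 9) / 8) :: s.1, s.2)
  else if (n - 9) % 8 = 1 then
    (s.1, exC ((n - 9) / 8) (frg1 s) :: s.2.drop 1)
  else if (n - 9) % 8 = 2 then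
    (s.1, allC ((n - 9) / 8) (frg1 s) :: s.2.drop 1)
  else if (n - 9) % 8 = 3 then (s.1.drop 2, eqC (arg1 s) (arg2 s) :: s.2)
  else if (n - 9) % 8 = 4 then (s.1, dC ((n - 9) / 8) :: s.2)
  else if (n - 9) % 8 = 5 then (s.1, pC ((n - 9) / 8) :: s.2)
  else s := by
  unfold step
  rw [if_neg (by omega), if_neg (by omega), if_neg (by omega), if_neg (by omega),
    if_neg (by omega), if_neg (by omega), if_neg (by omega), if_neg (by omega),
    if_neg (by omega)]

theorem foldr_tm (p : ℕ) (a : AT) (s : StA) :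
    a.code.foldr (step p) s = (tc (atF p a) :: s.1, s.2) := by
  induction a generalizing s with
  | zero => rfl
  | one => rfl
  | var k =>
    have h1 : (9 + 8 * k - 9) % 8 = 0 := by omega
    have h2 : (9 + 8 * k - 9) / 8 = k := by omega
    simp only [AT.code, List.foldr_cons, List.foldr_nil]
    rw [step_ge _ _ (by omega), if_pos h1, h2]
    rfl
  | add a b iha ihb =>
    simp [AT.code, List.foldr_append, iha, ihb, step, arg1, arg2, atF, tc_add]
  | sub a b iha ihb =>
    simp [AT.code, List.foldr_append, iha, ihb, step, arg1, arg2, atF, tc_sub]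
  | tm a ih =>
    rw [AT.code, List.foldr_cons, ih]
    rfl
  | fr a ih =>
    rw [AT.code, List.foldr_cons, ih, atF, tc_pow]
    rfl

theorem foldr_fml (p : ℕ) (φ : AFm) (s : StA) :
    φ.code.foldr (step p) s = (s.1, (cF p φ).code :: s.2) := by
  induction φ generalizing s with
  | eq a b =>
    rw [AFm.code, List.foldr_cons, List.foldr_append, foldr_tm, foldr_tm]
    rfl
  | dvd i j k l =>
    have h2 : (13 + 8 * Nat.pair (Nat.pair i j) (Nat.pair k l) - 9) / 8 =
      Nat.pair (Nat.pair i j) (Nat.pair k l) := by omega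
    rw [AFm.code, List.foldr_cons, List.foldr_nil, step_ge _ _ (by omega), if_neg (by omega),
      if_neg (by omega), if_neg (by omega), if_neg (by omega), if_pos (by omega), h2, cF,
      code_dvF, dC]
    simp only [Nat.unpair_pair]
  | pow d i =>
    have h2 : (14 + 8 * Nat.pair d i - 9) / 8 = Nat.pair d i := by omega
    rw [AFm.code, List.foldr_cons, List.foldr_nil, step_ge _ _ (by omega), if_neg (by omega),
      if_neg (by omega), if_neg (by omega), if_neg (by omega), if_neg (by omega),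
      if_pos (by omega), h2, cF, code_pwF, pC]
    simp only [Nat.unpair_pair]
  | not φ ih =>
    rw [AFm.code, List.foldr_cons, ih]
    rfl
  | and φ ψ ih ih' =>
    rw [AFm.code, List.foldr_cons, List.foldr_append, ih', ih]
    rfl
  | or φ ψ ih ih' =>
    rw [AFm.code, List.foldr_cons, List.foldr_append, ih', ih]
    rfl
  | ex i φ ih =>
    have h2 : (10 + 8 * i - 9) / 8 = i := by omega
    rw [AFm.code, List.foldr_cons, ih, step_ge _ _ (by omega), if_neg (by omega),
      if_pos (by omega), h2, code_ex]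
    rfl
  | all i φ ih =>
    have h2 : (11 + 8 * i - 9) / 8 = i := by omega
    rw [AFm.code, List.foldr_cons, ih, step_ge _ _ (by omega), if_neg (by omega),
      if_neg (by omega), if_pos (by omega), h2, code_all]
    rfl

theorem comp_code (p : ℕ) (φ : AFm) : comp p φ.code = (cF p φ).code := by
  simp [comp, parse, foldr_fml, frg1]

/-! ### Every word compiles to something -/

/-- all entries of the stacks are values -/
def Good (p : ℕ) (s : StA) : Prop :=
  (∀ x ∈ s.1, ∃ a, x = tc (atF p a)) ∧ ∀ x ∈ s.2, ∃ φ, x = (cF p φ).code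

variable {p : ℕ}

theorem Good.arg {s : StA} (h : Good p s) (n : ℕ) : ∃ a, s.1.getD n dT = tc (atF p a) := by
  rcases getD_mem s.1 n dT with h1 | h1
  · exact h.1 _ h1
  · exact ⟨.zero, h1⟩

theorem Good.frg {s : StA} (h : Good p s) (n : ℕ) : ∃ φ, s.2.getD n dF = (cF p φ).code := by
  rcases getD_mem s.2 n dF with h1 | h1
  · exact h.2 _ h1
  · exact ⟨.dvd 0 0 0 0, h1.trans (code_dvF 0 0 0 0 1).symm⟩

theorem Good.pushT {s : StA} (h : Good p s) (n : ℕ) {x : ℕ × ℕ} (hx : ∃ a, x = tc (atF p a)) :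
    Good p (x :: s.1.drop n, s.2) := by
  refine ⟨fun y hy => ?_, h.2⟩
  rcases List.mem_cons.1 hy with rfl | hy
  · exact hx
  · exact h.1 _ (List.mem_of_mem_drop hy)

theorem Good.pushF {s : StA} (h : Good p s) (m n : ℕ) {x : ℕ} (hx : ∃ φ, x = (cF p φ).code) :
    Good p (s.1.drop m, x :: s.2.drop n) := by
  refine ⟨fun y hy => h.1 _ (List.mem_of_mem_drop hy), fun y hy => ?_⟩
  rcases List.mem_cons.1 hy with rfl | hy
  · exact hx
  · exact h.2 _ (List.mem_of_mem_drop hy)

theorem good_ite {c : Prop} [Decidable c] {s s' : StA} (h : Good p s) (h' : Good p s') :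
    Good p (if c then s else s') := by
  by_cases hc : c
  · rw [if_pos hc]
    exact h
  · rw [if_neg hc]
    exact h'

theorem good_step (n : ℕ) {s : StA} (h : Good p s) : Good p (step p n s) := by
  obtain ⟨a, ha⟩ := h.arg 0
  obtain ⟨b, hb⟩ := h.arg 1
  obtain ⟨φ, hφ⟩ := h.frg 0
  obtain ⟨ψ, hψ⟩ := h.frg 1
  have ha' : arg1 s = tc (atF p a) := ha
  have hb' : arg2 s = tc (atF p b) := hb
  have hφ' : frg1 s = (cF p φ).code := hφ
  have hψ' : frg2 s = (cF p ψ).code := hψ
  unfold step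
  rw [ha', hb', hφ', hψ']
  refine good_ite (h.pushT 0 ⟨.zero, rfl⟩) (good_ite (h.pushT 0 ⟨.one, rfl⟩)
    (good_ite (h.pushT 1 ⟨.tm a, rfl⟩) (good_ite (h.pushT 2 ⟨.add a b, rfl⟩)
    (good_ite (h.pushT 2 ⟨.sub a b, rfl⟩) (good_ite (h.pushT 1 ⟨.fr a, ?_⟩)
    (good_ite (h.pushF 0 1 ⟨.not φ, rfl⟩) (good_ite (h.pushF 0 2 ⟨.and φ ψ, rfl⟩)
    (good_ite (h.pushF 0 2 ⟨.or φ ψ, rfl⟩) (good_ite (h.pushT 0 ⟨.var ((n - 9) / 8), rfl⟩)
    (good_ite (h.pushF 0 1 ⟨.ex ((n - 9) / 8) φ, (code_ex _ _ _).symm⟩)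
    (good_ite (h.pushF 0 1 ⟨.all ((n - 9) / 8) φ, (code_all _ _ _).symm⟩)
    (good_ite (h.pushF 2 0 ⟨.eq a b, rfl⟩)
    (good_ite (h.pushF 0 0 ⟨.dvd ((n - 9) / 8).unpair.1.unpair.1
      ((n - 9) / 8).unpair.1.unpair.2 ((n - 9) / 8).unpair.2.unpair.1
      ((n - 9) / 8).unpair.2.unpair.2, ?_⟩)
    (good_ite (h.pushF 0 0 ⟨.pow ((n - 9) / 8).unpair.1 ((n - 9) / 8).unpair.2, ?_⟩)
      h))))))))))))))
  · rw [atF, tc_pow]
  · rw [cF, code_dvF, dC]
  · rw [cF, code_pwF, pC]

theorem good_parse (w : List ℕ) : Good p (parse p w) := by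
  unfold parse
  induction w with
  | nil => exact ⟨fun x hx => absurd hx (List.not_mem_nil),
      fun x hx => absurd hx (List.not_mem_nil)⟩
  | cons n w ih => exact good_step n ih

theorem comp_total (w : List ℕ) : ∃ φ, comp p w = (cF p φ).code := (good_parse w).frg 0

/-! ### Primitive recursiveness -/

section pr

variable {α : Type} [Primcodable α]

theorem primrec_odd {f : α → ℕ} (hf : Primrec f) : Primrec fun x => 2 * f x + 1 :=
  Primrec.nat_add.comp (Primrec.nat_mul.comp (Primrec.const 2) hf) (Primrec.const 1)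

theorem primrec_vC {f : α → ℕ} (hf : Primrec f) : Primrec fun x => vC (f x) := by
  unfold vC
  exact Primrec.pair (Primrec.const 0) (Primrec₂.natPair.comp (Primrec.const 0)
    (Primrec₂.natPair.comp (primrec_odd hf) (Primrec.const 0)))

theorem primrec_cPow1 {q : α → ℕ × ℕ} (hq : Primrec q) :
    Primrec fun x : α × (ℕ × (ℕ × ℕ)) => cMul x.2.2 (q x.1) := by
  have h2 : Primrec fun x : α × (ℕ × (ℕ × ℕ)) => x.2.2 := Primrec.snd.comp Primrec.snd
  have h3 : Primrec fun x : α × (ℕ × (ℕ × ℕ)) => q x.1 := hq.comp Primrec.fst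
  exact primrec_cMul h2 h3

theorem primrec_cPow2 {n : α → ℕ} {q : α → ℕ × ℕ} (hn : Primrec n)
    (h : Primrec₂ fun (a : α) (r : ℕ × (ℕ × ℕ)) => cMul r.2 (q a)) :
    Primrec fun x => (Nat.rec oneC (fun k r => cMul (k, r).2 (q x)) (n x) : ℕ × ℕ) := by
  have h1 := Primrec.nat_rec' (g := fun _ : α => oneC) hn (Primrec.const oneC) h
  exact h1

theorem primrec_cPow {n : α → ℕ} {q : α → ℕ × ℕ} (hn : Primrec n) (hq : Primrec q) :
    Primrec fun x => cPow (n x) (q x) := primrec_cPow2 hn (primrec_cPow1 hq)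

theorem primrec_vrC {i k : α → ℕ} (hi : Primrec i) (hk : Primrec k) :
    Primrec fun x => vrC (i x) (k x) := by
  unfold vrC
  have h1 := primrec_vC hk
  have h2 := primrec_vC hi
  exact Primrec₂.natPair.comp (Primrec.const 8) (Primrec₂.natPair.comp (primrec_odd hk)
    (primrec_eqC (primrec_cAdd (primrec_cMul h1 h1) h1)
      (primrec_cMul (Primrec.const tC) (primrec_cMul h2 h2))))

theorem primrec_exC {i a : α → ℕ} (hi : Primrec i) (ha : Primrec a) :
    Primrec fun x => exC (i x) (a x) := by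
  unfold exC
  exact Primrec₂.natPair.comp (Primrec.const 8) (Primrec₂.natPair.comp (primrec_odd hi)
    (Primrec₂.natPair.comp (Primrec.const 7)
      (Primrec₂.natPair.comp (primrec_vrC hi (Primrec.succ.comp hi)) ha)))

theorem primrec_allC {i a : α → ℕ} (hi : Primrec i) (ha : Primrec a) :
    Primrec fun x => allC (i x) (a x) := by
  unfold allC
  exact Primrec₂.natPair.comp (Primrec.const 6) (Primrec₂.natPair.comp (Primrec.const 8)
    (Primrec₂.natPair.comp (primrec_odd hi) (Primrec₂.natPair.comp (Primrec.const 7)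
      (Primrec₂.natPair.comp (primrec_vrC hi (Primrec.succ.comp hi))
        (Primrec₂.natPair.comp (Primrec.const 6) ha)))))

theorem primrec_dvC {i j k l m : α → ℕ} (hi : Primrec i) (hj : Primrec j) (hk : Primrec k)
    (hl : Primrec l) (hm : Primrec m) : Primrec fun x => dvC (i x) (j x) (k x) (l x) (m x) := by
  unfold dvC
  exact Primrec₂.natPair.comp (Primrec.const 8) (Primrec₂.natPair.comp (primrec_odd hm)
    (Primrec₂.natPair.comp (Primrec.const 7) (Primrec₂.natPair.comp
      (primrec_vrC hm (Primrec.succ.comp hm))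
      (primrec_eqC (primrec_cMul (primrec_vC hm) (primrec_cMul (primrec_vC hi) (primrec_vC hj)))
        (primrec_cMul (primrec_vC hk) (primrec_vC hl))))))

theorem primrec_pwC {d i m : α → ℕ} (hd : Primrec d) (hi : Primrec i) (hm : Primrec m) :
    Primrec fun x => pwC (d x) (i x) (m x) := by
  unfold pwC
  exact Primrec₂.natPair.comp (Primrec.const 8) (Primrec₂.natPair.comp (primrec_odd hm)
    (primrec_eqC (primrec_cPow hd (primrec_vC hm)) (primrec_vC hi)))

theorem primrec_dC {m : α → ℕ} (hm : Primrec m) : Primrec fun x => dC (m x) := by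
  unfold dC
  have hu := Primrec.unpair.comp hm
  have h1 := Primrec.unpair.comp (Primrec.fst.comp hu)
  have h2 := Primrec.unpair.comp (Primrec.snd.comp hu)
  have a1 := Primrec.fst.comp h1
  have a2 := Primrec.snd.comp h1
  have a3 := Primrec.fst.comp h2
  have a4 := Primrec.snd.comp h2
  exact primrec_dvC a1 a2 a3 a4 (Primrec.nat_add.comp (Primrec.nat_add.comp
    (Primrec.nat_add.comp (Primrec.nat_add.comp a1 a2) a3) a4) (Primrec.const 1))

theorem primrec_pC {m : α → ℕ} (hm : Primrec m) : Primrec fun x => pC (m x) := by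
  unfold pC
  have hu := Primrec.unpair.comp hm
  have h1 := Primrec.fst.comp hu
  have h2 := Primrec.snd.comp hu
  exact primrec_pwC h1 h2 (Primrec.succ.comp h2)

end pr

theorem primrec_step (p : ℕ) : Primrec₂ (step p) := by
  unfold step
  have hn : Primrec fun q : ℕ × StA => q.1 := Primrec.fst
  have hs1 : Primrec fun q : ℕ × StA => q.2.1 := Primrec.fst.comp Primrec.snd
  have hs2 : Primrec fun q : ℕ × StA => q.2.2 := Primrec.snd.comp Primrec.snd
  have ha1 : Primrec fun q : ℕ × StA => arg1 q.2 :=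
    (Primrec.list_getD dT).comp hs1 (Primrec.const 0)
  have ha2 : Primrec fun q : ℕ × StA => arg2 q.2 :=
    (Primrec.list_getD dT).comp hs1 (Primrec.const 1)
  have hf1 : Primrec fun q : ℕ × StA => frg1 q.2 :=
    (Primrec.list_getD dF).comp hs2 (Primrec.const 0)
  have hf2 : Primrec fun q : ℕ × StA => frg2 q.2 :=
    (Primrec.list_getD dF).comp hs2 (Primrec.const 1)
  have hd1 : Primrec fun q : ℕ × StA => q.2.1.drop 2 :=
    Primrec.list_drop.comp (Primrec.const 2) hs1
  have hd1' : Primrec fun q : ℕ × StA => q.2.1.drop 1 :=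
    Primrec.list_drop.comp (Primrec.const 1) hs1
  have hd2 : Primrec fun q : ℕ × StA => q.2.2.drop 2 :=
    Primrec.list_drop.comp (Primrec.const 2) hs2
  have hd3 : Primrec fun q : ℕ × StA => q.2.2.drop 1 :=
    Primrec.list_drop.comp (Primrec.const 1) hs2
  have hn9 : Primrec fun q : ℕ × StA => q.1 - 9 := Primrec.nat_sub.comp hn (Primrec.const 9)
  have hm : Primrec fun q : ℕ × StA => (q.1 - 9) % 8 :=
    Primrec.nat_mod.comp hn9 (Primrec.const 8)
  have hk : Primrec fun q : ℕ × StA => (q.1 - 9) / 8 :=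
    Primrec.nat_div.comp hn9 (Primrec.const 8)
  have hc : ∀ k : ℕ, PrimrecPred fun q : ℕ × StA => q.1 = k := fun k =>
    Primrec.eq.comp hn (Primrec.const k)
  have hr : ∀ k : ℕ, PrimrecPred fun q : ℕ × StA => (q.1 - 9) % 8 = k := fun k =>
    Primrec.eq.comp hm (Primrec.const k)
  have push : ∀ c : ℕ × ℕ, Primrec fun q : ℕ × StA => ((c :: q.2.1, q.2.2) : StA) := fun c =>
    Primrec.pair (Primrec.list_cons.comp (Primrec.const c) hs1) hs2
  refine Primrec.ite (hc 0) (push _) (Primrec.ite (hc 1) (push _) (Primrec.ite (hc 2) ?_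
    (Primrec.ite (hc 3) ?_ (Primrec.ite (hc 4) ?_ (Primrec.ite (hc 5) ?_
    (Primrec.ite (hc 6) ?_ (Primrec.ite (hc 7) ?_ (Primrec.ite (hc 8) ?_
    (Primrec.ite (hr 0) ?_ (Primrec.ite (hr 1) ?_ (Primrec.ite (hr 2) ?_
    (Primrec.ite (hr 3) ?_ (Primrec.ite (hr 4) ?_ (Primrec.ite (hr 5) ?_
    Primrec.snd))))))))))))))
  · exact Primrec.pair (Primrec.list_cons.comp (primrec_cMul (Primrec.const tC) ha1) hd1') hs2
  · exact Primrec.pair (Primrec.list_cons.comp (primrec_cAdd ha1 ha2) hd1) hs2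
  · exact Primrec.pair (Primrec.list_cons.comp (primrec_cSub ha1 ha2) hd1) hs2
  · exact Primrec.pair (Primrec.list_cons.comp (primrec_cPow (Primrec.const p) ha1) hd1') hs2
  · exact Primrec.pair hs1 (Primrec.list_cons.comp
      (Primrec₂.natPair.comp (Primrec.const 6) hf1) hd3)
  · exact Primrec.pair hs1 (Primrec.list_cons.comp
      (Primrec₂.natPair.comp (Primrec.const 7) (Primrec₂.natPair.comp hf1 hf2)) hd2)
  · exact Primrec.pair hs1 (Primrec.list_cons.comp
      (Primrec₂.natPair.comp (Primrec.const 6) (Primrec₂.natPair.comp (Primrec.const 7)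
        (Primrec₂.natPair.comp (Primrec₂.natPair.comp (Primrec.const 6) hf1)
          (Primrec₂.natPair.comp (Primrec.const 6) hf2)))) hd2)
  · exact Primrec.pair (Primrec.list_cons.comp (primrec_vC hk) hs1) hs2
  · exact Primrec.pair hs1 (Primrec.list_cons.comp (primrec_exC hk hf1) hd3)
  · exact Primrec.pair hs1 (Primrec.list_cons.comp (primrec_allC hk hf1) hd3)
  · exact Primrec.pair hd1 (Primrec.list_cons.comp (primrec_eqC ha1 ha2) hs2)
  · exact Primrec.pair hs1 (Primrec.list_cons.comp (primrec_dC hk) hs2)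
  · exact Primrec.pair hs1 (Primrec.list_cons.comp (primrec_pC hk) hs2)

theorem primrec_parse (p : ℕ) : Primrec (parse p) := by
  unfold parse
  have h : Primrec₂ fun (_ : List ℕ) (q : ℕ × StA) => step p q.1 q.2 :=
    (primrec_step p).comp (Primrec.fst.comp Primrec.snd) (Primrec.snd.comp Primrec.snd)
  exact Primrec.list_foldr Primrec.id (Primrec.const ([], [])) h

theorem primrec_comp (p : ℕ) : Primrec (comp p) := by
  unfold comp
  exact (Primrec.list_getD dF).comp (Primrec.snd.comp (primrec_parse p)) (Primrec.const 0)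

end CmpA

theorem exists_compileA (p : ℕ) : ∃ (c : AFm → FR) (f : List ℕ → ℕ), Primrec f ∧
    (∀ φ, f φ.code = (c φ).code) ∧ (∀ w, ∃ φ, f w = (c φ).code) ∧
    ∀ (R : Type) [CommRing R] (t : R) (φ : AFm),
      (Sat (ringRS t) (fun _ => 0) (c φ) ↔ φ.HoldsV p t (fun _ => 0)) :=
  ⟨CmpA.cF p, CmpA.comp p, CmpA.primrec_comp p, CmpA.comp_code p, CmpA.comp_total,
    fun _ _ _ φ => CmpA.sat_cF p φ _⟩

end AF80
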