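import Pool.Agent.AF80.Rv

/-!
# The additive fragment: coordinates with respect to `1, t, …, t ^ (p - 1)`
-/

set_option autoImplicit false
set_option maxSynthPendingDepth 10

open Polynomial Filter

namespace AF80

open FT80 BF80

variable {p : ℕ} [hp : Fact p.Prime] {M N : Type} [Field M] [Field N] {σ : P1 p →+* M}
  {τ : P1 p →+* N}

namespace LamA

theorem fv_ne (hM : Mdl p σ) {s s' : ℕ} (hs : s < p) (hs' : s' < p) (hne : s ≠ s') {a b : M}
    (ha : a ≠ 0) (_hb : b ≠ 0) :
    hM.fv (σ X ^ s * a ^ p) ≠ hM.fv (σ X ^ s' * b ^ p) := by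
  intro h
  have ht0 : hM.fv (σ X) ≠ 0 := (Valuation.ne_zero_iff _).2 hM.t_ne
  have ha0 : hM.fv a ≠ 0 := (Valuation.ne_zero_iff _).2 ha
  have h2 : hM.fv (b * a⁻¹) ^ p = hM.fv (σ X) ^ ((s : ℤ) - s') := by
    rw [map_mul, map_mul, map_pow, map_pow, map_pow, map_pow] at h
    rw [map_mul, map_inv₀, mul_pow, inv_pow, zpow_sub₀ ht0, zpow_natCast, zpow_natCast,
      ← div_eq_mul_inv, div_eq_div_iff (pow_ne_zero _ ha0) (pow_ne_zero _ ht0), h, mul_comm]
  have h3 := fv_pow_eq hM hp.out.ne_zero h2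
  apply hne
  obtain ⟨c, hc⟩ := h3
  have hs1 : (s : ℤ) < p := by exact_mod_cast hs
  have hs2 : (s' : ℤ) < p := by exact_mod_cast hs'
  have hc0 : c = 0 := by
    by_contra hcc
    rcases lt_or_gt_of_ne hcc with h4 | h4
    · have : (p : ℤ) * c ≤ p * (-1) := mul_le_mul_of_nonneg_left (by omega) (by omega)
      omega
    · have : (p : ℤ) * 1 ≤ p * c := mul_le_mul_of_nonneg_left (by omega) (by omega)
      omega
  rw [hc0, mul_zero] at hc
  omega

theorem sum_val (hM : Mdl p σ) (f : ℕ → M) (n : ℕ) (hn : n ≤ p) :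
    (∀ s < n, hM.fv (σ X ^ s * f s ^ p) ≤
      hM.fv (∑ s ∈ Finset.range n, σ X ^ s * f s ^ p)) ∧
    (∑ s ∈ Finset.range n, σ X ^ s * f s ^ p ≠ 0 → ∃ s < n, f s ≠ 0 ∧
      hM.fv (∑ s ∈ Finset.range n, σ X ^ s * f s ^ p) =
        hM.fv (σ X ^ s * f s ^ p)) := by
  induction n with
  | zero =>
    refine ⟨fun s hs => absurd hs (Nat.not_lt_zero s), fun h => ?_⟩
    rw [Finset.range_zero, Finset.sum_empty] at h
    exact absurd rfl h
  | succ n ih =>
    obtain ⟨ih1, ih2⟩ := ih (by omega)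
    rw [Finset.sum_range_succ]
    set S := ∑ s ∈ Finset.range n, σ X ^ s * f s ^ p with hS
    by_cases hT : f n = 0
    · have hT' : σ X ^ n * f n ^ p = 0 := by
        rw [hT, zero_pow hp.out.ne_zero, mul_zero]
      rw [hT', add_zero]
      constructor
      · intro s hs
        rcases Nat.lt_succ_iff_lt_or_eq.1 hs with h | rfl
        · exact ih1 s h
        · rw [hT', map_zero]
          exact zero_le
      · intro h
        obtain ⟨s, hs, h1, h2⟩ := ih2 h
        exact ⟨s, by omega, h1, h2⟩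
    · by_cases hS0 : S = 0
      · rw [hS0, zero_add]
        constructor
        · intro s hs
          rcases Nat.lt_succ_iff_lt_or_eq.1 hs with h | rfl
          · refine (ih1 s h).trans ?_
            rw [hS0, map_zero]
            exact zero_le
          · exact le_rfl
        · intro h
          exact ⟨n, by omega, hT, rfl⟩
      · obtain ⟨s0, hs0, h1, h2⟩ := ih2 hS0
        have h3 : hM.fv S ≠ hM.fv (σ X ^ n * f n ^ p) := by
          rw [h2]
          exact fv_ne hM (by omega) (by omega) (by omega) h1 hT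
        have h4 := Valuation.map_add_of_distinct_val hM.fv h3
        rw [h4]
        constructor
        · intro s hs
          rcases Nat.lt_succ_iff_lt_or_eq.1 hs with h | rfl
          · exact (ih1 s h).trans (le_max_left _ _)
          · exact le_max_right _ _
        · intro _
          rcases le_total (hM.fv S) (hM.fv (σ X ^ n * f n ^ p)) with h | h
          · exact ⟨n, by omega, hT, max_eq_right h⟩
          · exact ⟨s0, by omega, h1, (max_eq_left h).trans h2⟩

end LamA

open LamA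

theorem pb_unique (hM : Mdl p σ) (f g : ℕ → M)
    (h : ∑ s ∈ Finset.range p, σ X ^ s * f s ^ p = ∑ s ∈ Finset.range p, σ X ^ s * g s ^ p) :
    ∀ s < p, f s = g s := by
  intro s hs
  have hch : CharP M p := charP_of hM
  have h1 : ∑ s ∈ Finset.range p, σ X ^ s * (f s - g s) ^ p = 0 := by
    rw [← sub_eq_zero.2 h, ← Finset.sum_sub_distrib]
    refine Finset.sum_congr rfl fun s _ => ?_
    rw [sub_pow_char, mul_sub]
  have h2 := (sum_val hM (fun s => f s - g s) p le_rfl).1 s hs
  rw [h1, map_zero, le_zero_iff, map_eq_zero, mul_eq_zero] at h2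
  rcases h2 with h2 | h2
  · exact absurd h2 (pow_ne_zero _ hM.t_ne)
  · exact sub_eq_zero.1 (pow_eq_zero_iff hp.out.ne_zero |>.1 h2)

theorem pb_mem_OC (hM : Mdl p σ) (f : ℕ → M)
    (h : ∑ s ∈ Finset.range p, σ X ^ s * f s ^ p ∈ hM.OC) :
    ∀ s < p, f s ∈ hM.OC := by
  intro s hs
  have h2 := (sum_val hM f p le_rfl).1 s hs
  set S := ∑ s ∈ Finset.range p, σ X ^ s * f s ^ p with hS
  have h3 : σ X ^ s * f s ^ p ∈ hM.OC := by
    rw [← Mdl.DV_iff] at h2
    obtain ⟨c, hc, hcS⟩ := h2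
    rw [← hcS]
    exact mul_mem (hM.OC_of_VO hc) h
  rw [← hM.vc_le_one, map_mul, map_pow, hM.vc_t, one_pow, one_mul, map_pow] at h3
  rw [← hM.vc_le_one]
  exact (pow_le_one_iff hp.out.ne_zero).1 h3

theorem RVC_pb {hM : Mdl p σ} {hN : Mdl p τ}
    {Λ : Subgroup (hM.VGˣ × hN.VGˣ)} (hΛ : PIso Λ)
    (ht : VIn hM hN Λ (σ X) (τ X)) (f : ℕ → M) (g : ℕ → N)
    (h : ∀ s < p, RVC hM hN Λ (f s) (g s)) :
    RVC hM hN Λ (∑ s ∈ Finset.range p, σ X ^ s * f s ^ p)
      (∑ s ∈ Finset.range p, τ X ^ s * g s ^ p) := by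
  have hT : RVC hM hN Λ (σ X) (τ X) := Or.inr ⟨ht, (ac_t hM).trans (ac_t hN).symm⟩
  have key : ∀ n ≤ p, RVC hM hN Λ (∑ s ∈ Finset.range n, σ X ^ s * f s ^ p)
      (∑ s ∈ Finset.range n, τ X ^ s * g s ^ p) := by
    intro n
    induction n with
    | zero =>
      intro _
      rw [Finset.range_zero, Finset.sum_empty, Finset.sum_empty]
      exact Or.inl ⟨rfl, rfl⟩
    | succ n ih =>
      intro hn
      rw [Finset.sum_range_succ, Finset.sum_range_succ]
      refine RVC.add hΛ (ih (by omega)) (RVC.mul (RVC.pow hT n) (RVC.pow (h n (by omega)) p)) ?_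
      intro h1 h2
      obtain ⟨s, hs, h3, h4⟩ := (sum_val hM f n (by omega)).2 h1
      rw [h4]
      refine fv_ne hM (by omega) (by omega) (by omega) h3 ?_
      intro h5
      apply h2
      rw [h5, zero_pow hp.out.ne_zero, mul_zero]
  exact key p le_rfl

end AF80
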