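import Pool.Agent.AF80.Near
import Pool.Agent.AF80.Lam

/-!
# Affine forms and their values
-/

set_option autoImplicit false
set_option maxSynthPendingDepth 10

open Polynomial Filter

namespace AF80

open FT80 BF80

/-! ### Lists -/

theorem list_bound {α : Type*} (l : List α) (A : α → ℕ → Prop)
    (mono : ∀ x m n, m ≤ n → A x m → A x n) (h : ∀ x ∈ l, ∃ n, A x n) :
    ∃ N, ∀ x ∈ l, A x N := by
  induction l with
  | nil => exact ⟨0, fun x hx => absurd hx (List.not_mem_nil)⟩
  | cons a l ih =>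
    obtain ⟨N, hN⟩ := ih fun x hx => h x (List.mem_cons_of_mem _ hx)
    obtain ⟨n, hn⟩ := h a (List.mem_cons_self ..)
    refine ⟨max N n, fun x hx => ?_⟩
    rcases List.mem_cons.1 hx with rfl | hx
    · exact mono _ _ _ (le_max_right _ _) hn
    · exact mono _ _ _ (le_max_left _ _) (hN x hx)

theorem finset_bound {α : Type*} (S : Finset α) (A : α → ℕ → Prop)
    (mono : ∀ x m n, m ≤ n → A x m → A x n) (h : ∀ x ∈ S, ∃ n, A x n) :
    ∃ N, ∀ x ∈ S, A x N := by
  obtain ⟨N, hN⟩ := list_bound S.toList A mono fun x hx => h x (Finset.mem_toList.1 hx)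
  exact ⟨N, fun x hx => hN x (Finset.mem_toList.2 hx)⟩

theorem list_min {α β : Type*} [LinearOrder β] (f : α → β) (l : List α) (hl : l ≠ []) :
    ∃ x ∈ l, ∀ y ∈ l, f x ≤ f y := by
  induction l with
  | nil => exact absurd rfl hl
  | cons a l ih =>
    by_cases h : l = []
    · subst h
      refine ⟨a, List.mem_cons_self .., fun y hy => ?_⟩
      rw [List.mem_singleton] at hy
      rw [hy]
    · obtain ⟨x, hx, hmin⟩ := ih h
      rcases le_total (f a) (f x) with h1 | h1
      · refine ⟨a, List.mem_cons_self .., fun y hy => ?_⟩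
        rcases List.mem_cons.1 hy with rfl | hy
        · exact le_rfl
        · exact h1.trans (hmin y hy)
      · refine ⟨x, List.mem_cons_of_mem _ hx, fun y hy => ?_⟩
        rcases List.mem_cons.1 hy with rfl | hy
        · exact h1
        · exact hmin y hy

/-! ### Values of affine forms in one model -/

section one

variable {p : ℕ} [hp : Fact p.Prime] {M : Type} [Field M] {σ : P1 p →+* M}

/-- the value of an affine form -/
noncomputable def fval (hM : Mdl p σ) (S : Finset ℕ) (L : ℕ → (FF p)[X]) (e : ℕ → M) (a : M) : M :=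
  ∑ k ∈ S, act p (io hM) (L k) (e k) + a

theorem fval_congr (hM : Mdl p σ) (S : Finset ℕ) (L : ℕ → (FF p)[X]) {e e' : ℕ → M}
    (h : ∀ k ∈ S, e k = e' k) (a : M) : fval hM S L e a = fval hM S L e' a := by
  unfold fval
  rw [Finset.sum_congr rfl fun k hk => by rw [h k hk]]

theorem fval_erase (hM : Mdl p σ) {S : Finset ℕ} {j : ℕ} (hj : j ∈ S) (L : ℕ → (FF p)[X])
    (e : ℕ → M) (a : M) :
    fval hM S L e a = act p (io hM) (L j) (e j) + fval hM (S.erase j) L e a := by
  unfold fval
  rw [← Finset.add_sum_erase S _ hj, add_assoc]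

theorem fval_update (hM : Mdl p σ) {S : Finset ℕ} {j : ℕ} (hj : j ∈ S) (L : ℕ → (FF p)[X])
    (e : ℕ → M) (z a : M) :
    fval hM S L (Function.update e j z) a =
      act p (io hM) (L j) z + fval hM (S.erase j) L e a := by
  rw [fval_erase hM hj, Function.update_self]
  congr 1
  apply fval_congr
  intro k hk
  rw [Function.update_of_ne (Finset.ne_of_mem_erase hk)]

theorem fval_act (hM : Mdl p σ) (S : Finset ℕ) (D : (FF p)[X]) (L : ℕ → (FF p)[X]) (e : ℕ → M)
    (a : M) :
    fval hM S (fun k => star p D (L k)) e (act p (io hM) D a) =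
      act p (io hM) D (fval hM S L e a) := by
  have := charP_of hM
  unfold fval
  rw [act_add_right, act_sum_right]
  congr 1
  exact Finset.sum_congr rfl fun k _ => act_star _ _ _ _

theorem fval_add (hM : Mdl p σ) (S : Finset ℕ) (L K : ℕ → (FF p)[X]) (e : ℕ → M)
    (a b : M) :
    fval hM S (fun k => L k + K k) e (a + b) = fval hM S L e a + fval hM S K e b := by
  unfold fval
  rw [Finset.sum_congr rfl fun k _ => act_add_left _ _ _ _, Finset.sum_add_distrib]
  ring

theorem fval_sub (hM : Mdl p σ) (S : Finset ℕ) (L K : ℕ → (FF p)[X]) (e : ℕ → M)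
    (a b : M) :
    fval hM S (fun k => L k - K k) e (a - b) = fval hM S L e a - fval hM S K e b := by
  unfold fval
  rw [Finset.sum_congr rfl fun k _ => act_sub_left _ _ _ _, Finset.sum_sub_distrib]
  ring

theorem fval_smul (hM : Mdl p σ) (S : Finset ℕ) (c : FF p) (L : ℕ → (FF p)[X]) (e : ℕ → M)
    (a : M) :
    fval hM S (fun k => C c * L k) e (io hM c * a) = io hM c * fval hM S L e a := by
  unfold fval
  rw [Finset.sum_congr rfl fun k _ => act_C_mul _ _ _ _, ← Finset.mul_sum]
  ring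

theorem fval_zero (hM : Mdl p σ) (S : Finset ℕ) (L : ℕ → (FF p)[X]) (hL : ∀ k ∈ S, L k = 0)
    (e : ℕ → M) (a : M) : fval hM S L e a = a := by
  unfold fval
  rw [Finset.sum_eq_zero fun k hk => by rw [hL k hk, act_zero_left], zero_add]

/-- elimination of the variable `j` -/
theorem fval_elim (hM : Mdl p σ) {S : Finset ℕ} {j : ℕ} (hj : j ∈ S) (D E : (FF p)[X])
    (L K : ℕ → (FF p)[X]) (h : star p D (L j) = star p E (K j)) (e : ℕ → M) (a b : M) :
    fval hM (S.erase j) (fun k => star p D (L k) - star p E (K k)) e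
        (act p (io hM) D a - act p (io hM) E b) =
      act p (io hM) D (fval hM S L e a) - act p (io hM) E (fval hM S K e b) := by
  rw [← fval_act, ← fval_act, ← fval_sub, fval_erase hM hj, h, sub_self, act_zero_left, zero_add]

theorem fval_mem_OC (hM : Mdl p σ) (S : Finset ℕ) (L : ℕ → (FF p)[X]) {e : ℕ → M}
    (he : ∀ k ∈ S, e k ∈ hM.OC) {a : M} (ha : a ∈ hM.OC) : fval hM S L e a ∈ hM.OC := by
  unfold fval
  refine hM.OC.add_mem _ _ (sum_mem fun k hk => act_mem_OC hM _ (he k hk)) ha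

/-- infinitesimal elements -/
theorem inf_iff (hM : Mdl p σ) (x : M) :
    hM.vc x < 1 ↔ ∀ n : ℕ, hM.fv x ≤ hM.fv (σ X) ^ n := by
  rw [hM.vc_lt_one]
  refine forall_congr' fun n => ?_
  have h0 : (0 : hM.VG) < hM.fv (σ X) ^ n :=
    zero_lt_iff.2 (pow_ne_zero _ ((Valuation.ne_zero_iff _).2 hM.t_ne))
  rw [← hM.fv_le_one, map_div₀, map_pow, div_le_one₀ h0]

theorem fvt_pos (hM : Mdl p σ) (n : ℕ) : (0 : hM.VG) < hM.fv (σ X) ^ n :=
  zero_lt_iff.2 (pow_ne_zero _ ((Valuation.ne_zero_iff _).2 hM.t_ne))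

theorem fvt_le (hM : Mdl p σ) {m n : ℕ} (h : m ≤ n) : hM.fv (σ X) ^ n ≤ hM.fv (σ X) ^ m := by
  obtain ⟨k, rfl⟩ := Nat.exists_eq_add_of_le h
  rw [pow_add]
  exact mul_le_of_le_one_right' (pow_le_one' hM.fv_t_lt.le k)

theorem fvt_le_one (hM : Mdl p σ) (n : ℕ) : hM.fv (σ X) ^ n ≤ 1 := pow_le_one' hM.fv_t_lt.le n

end one

end AF80
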