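import Pool.Agent.AF80.Core0

/-!
# Affine forms in two models
-/

set_option autoImplicit false
set_option maxSynthPendingDepth 10

open Polynomial Filter

namespace AF80

open FT80 BF80

section two

variable {p : ℕ} [hp : Fact p.Prime] {P Q : Type} [Field P] [Field Q] {σ : P1 p →+* P}
  {τ : P1 p →+* Q}

/-! ### Common approximations -/

/-- `a` and `b` are close to the same rational function -/
def Near (hP : Mdl p σ) (hQ : Mdl p τ) (n : ℕ) (a : P) (b : Q) : Prop :=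
  ∃ c : FF p, hP.fv (a - io hP c) ≤ hP.fv (σ X) ^ n ∧ hQ.fv (b - io hQ c) ≤ hQ.fv (τ X) ^ n

theorem Near.mono {hP : Mdl p σ} {hQ : Mdl p τ} {m n : ℕ} {a : P} {b : Q}
    (h : Near hP hQ n a b) (hmn : m ≤ n) : Near hP hQ m a b := by
  obtain ⟨c, h1, h2⟩ := h
  exact ⟨c, h1.trans (fvt_le hP hmn), h2.trans (fvt_le hQ hmn)⟩

theorem Near.zero (hP : Mdl p σ) (hQ : Mdl p τ) (n : ℕ) : Near hP hQ n 0 0 := by
  refine ⟨0, ?_, ?_⟩
  · rw [map_zero, sub_zero, map_zero]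
    exact zero_le
  · rw [map_zero, sub_zero, map_zero]
    exact zero_le

theorem Near.add {hP : Mdl p σ} {hQ : Mdl p τ} {n : ℕ} {a a' : P} {b b' : Q}
    (h : Near hP hQ n a b) (h' : Near hP hQ n a' b') : Near hP hQ n (a + a') (b + b') := by
  obtain ⟨c, h1, h2⟩ := h
  obtain ⟨c', h1', h2'⟩ := h'
  refine ⟨c + c', ?_, ?_⟩
  · have e : a + a' - io hP (c + c') = (a - io hP c) + (a' - io hP c') := by
      rw [map_add]; ring
    rw [e]
    exact Valuation.map_add_le _ h1 h1'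
  · have e : b + b' - io hQ (c + c') = (b - io hQ c) + (b' - io hQ c') := by
      rw [map_add]; ring
    rw [e]
    exact Valuation.map_add_le _ h2 h2'

theorem Near.sum {hP : Mdl p σ} {hQ : Mdl p τ} {n : ℕ} (S : Finset ℕ) {f : ℕ → P} {g : ℕ → Q}
    (h : ∀ k ∈ S, Near hP hQ n (f k) (g k)) : Near hP hQ n (∑ k ∈ S, f k) (∑ k ∈ S, g k) := by
  classical
  induction S using Finset.induction_on with
  | empty => simpa using Near.zero hP hQ n
  | insert a S ha ih =>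
    rw [Finset.sum_insert ha, Finset.sum_insert ha]
    exact (h a (Finset.mem_insert_self _ _)).add
      (ih fun k hk => h k (Finset.mem_insert_of_mem hk))

theorem fv_act_small (L : (FF p)[X]) (n : ℕ) : ∃ m : ℕ, ∀ (M : Type) [Field M]
    (σ : P1 p →+* M) (hM : Mdl p σ) (z : M), hM.fv z ≤ hM.fv (σ X) ^ m →
    hM.fv (act p (io hM) L z) ≤ hM.fv (σ X) ^ n := by
  obtain ⟨m, hm⟩ := fv_act_le L
  refine ⟨n + m, fun M _ σ hM z hz => ?_⟩
  have h1 := hm M σ hM z (hz.trans (fvt_le_one hM _))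
  have h2 := h1.trans hz
  rw [pow_add] at h2
  exact le_of_mul_le_mul_right h2 (fvt_pos hM m)

theorem near_act (hP : Mdl p σ) (hQ : Mdl p τ) (L : (FF p)[X]) (n : ℕ) : ∃ m : ℕ,
    ∀ (a : P) (b : Q), Near hP hQ m a b →
      Near hP hQ n (act p (io hP) L a) (act p (io hQ) L b) := by
  obtain ⟨m, hm⟩ := fv_act_small L n
  refine ⟨m, ?_⟩
  rintro a b ⟨c, h1, h2⟩
  have cP := charP_of hP
  have cQ := charP_of hQ
  refine ⟨act p (RingHom.id _) L c, ?_, ?_⟩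
  · rw [map_act, RingHom.comp_id, ← act_sub_right]
    exact hm P σ hP _ h1
  · rw [map_act, RingHom.comp_id, ← act_sub_right]
    exact hm Q τ hQ _ h2

theorem near_fval (hP : Mdl p σ) (hQ : Mdl p τ) (S : Finset ℕ) (L : ℕ → (FF p)[X]) (n : ℕ) :
    ∃ m : ℕ, n ≤ m ∧ ∀ (e : ℕ → P) (e' : ℕ → Q), (∀ k ∈ S, Near hP hQ m (e k) (e' k)) →
      ∀ (a : P) (b : Q), Near hP hQ n a b → Near hP hQ n (fval hP S L e a) (fval hQ S L e' b) := by
  obtain ⟨N, hN⟩ := finset_bound S (fun k m => ∀ (a : P) (b : Q), Near hP hQ m a b →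
    Near hP hQ n (act p (io hP) (L k) a) (act p (io hQ) (L k) b))
    (fun k m m' hmm h a b hab => h a b (hab.mono hmm)) (fun k _ => near_act hP hQ (L k) n)
  refine ⟨max n N, le_max_left _ _, fun e e' he a b hab => ?_⟩
  exact (Near.sum S fun k hk => hN k hk _ _ ((he k hk).mono (le_max_right _ _))).add hab

theorem Near.small {hP : Mdl p σ} {hQ : Mdl p τ} {n : ℕ} {a : P} {b : Q}
    (h : Near hP hQ n a b) (ha : hP.fv a ≤ hP.fv (σ X) ^ n) : hQ.fv b ≤ hQ.fv (τ X) ^ n := by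
  obtain ⟨c, h1, h2⟩ := h
  have h3 : hP.fv (io hP c) ≤ hP.fv (σ X) ^ n := by
    have e : io hP c = a - (a - io hP c) := by ring
    rw [e]
    exact Valuation.map_sub_le _ ha h1
  rw [io_small hP hQ] at h3
  have e : b = (b - io hQ c) + io hQ c := by ring
  rw [e]
  exact Valuation.map_add_le _ h2 h3

theorem near_io (hP : Mdl p σ) (hQ : Mdl p τ) {a : P} {c : FF p} {n : ℕ}
    (h : hP.fv (a - io hP c) ≤ hP.fv (σ X) ^ n) : Near hP hQ n a (io hQ c) := by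
  refine ⟨c, h, ?_⟩
  rw [sub_self, map_zero]
  exact zero_le

end two

section twoV

variable {p : ℕ} [hp : Fact p.Prime] {P Q : Type} [Field P] [Field Q] {σ : P1 p →+* P}
  {τ : P1 p →+* Q} {hP : Mdl p σ} {hQ : Mdl p τ} {Λ : Subgroup (hP.VGˣ × hQ.VGˣ)}

theorem Near.rvc (hΛ : PIso Λ) (ht : VIn hP hQ Λ (σ X) (τ X)) {n : ℕ} {a : P} {b : Q}
    (h : Near hP hQ n a b) (ha : ¬ hP.fv a ≤ hP.fv (σ X) ^ n) :
    RVC hP hQ Λ a b := by
  obtain ⟨c, h1, h2⟩ := h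
  rw [not_le] at ha
  have h3 : RVeq hP (io hP c) a := by
    unfold RVeq
    rw [Valuation.map_sub_swap]
    exact h1.trans_lt ha
  have h4 : ¬ hQ.fv (io hQ c) ≤ hQ.fv (τ X) ^ n := by
    rw [← io_small hP hQ, h3.fv_eq]
    exact not_le.2 ha
  have h5 : RVeq hQ b (io hQ c) := h2.trans_lt (not_le.1 h4)
  exact (RVC.congr_right h5).2 ((RVC.congr_left h3).1 (RVC_io hΛ ht c))

theorem rvc_tpow (hΛ : PIso Λ) (ht : VIn hP hQ Λ (σ X) (τ X)) (n : ℕ) :
    RVC hP hQ Λ (σ X ^ n) (τ X ^ n) := by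
  have h := RVC_io hΛ ht (tF p ^ n)
  rw [map_pow, map_pow, io_tF, io_tF] at h
  exact h

theorem rvc_small (hΛ : PIso Λ) (ht : VIn hP hQ Λ (σ X) (τ X)) {a : P} {b : Q}
    (h : RVC hP hQ Λ a b) (n : ℕ) :
    hP.fv a ≤ hP.fv (σ X) ^ n ↔ hQ.fv b ≤ hQ.fv (τ X) ^ n := by
  have h1 := RVC.fv_le hΛ h (rvc_tpow hΛ ht n)
  rwa [map_pow, map_pow] at h1

theorem rvc_inf (hΛ : PIso Λ) (ht : VIn hP hQ Λ (σ X) (τ X)) {a : P} {b : Q}
    (h : RVC hP hQ Λ a b) : hP.vc a < 1 ↔ hQ.vc b < 1 := by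
  rw [inf_iff, inf_iff]
  exact forall_congr' fun n => rvc_small hΛ ht h n

theorem rvc_act (hΛ : PIso Λ) (ht : VIn hP hQ Λ (σ X) (τ X)) (L : (FF p)[X]) :
    ∃ m : ℕ, ∀ (a : P) (b : Q), hP.fv a ≤ hP.fv (σ X) ^ m →
      hQ.fv b ≤ hQ.fv (τ X) ^ m → RVC hP hQ Λ a b →
      RVC hP hQ Λ (act p (io hP) L a) (act p (io hQ) L b) := by
  rcases eq_or_ne L 0 with rfl | hL
  · refine ⟨0, fun a b _ _ _ => ?_⟩
    rw [act_zero_left, act_zero_left]
    exact Or.inl ⟨rfl, rfl⟩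
  obtain ⟨m, hm⟩ := act_lead L hL
  refine ⟨m, fun a b ha hb hab => ?_⟩
  rcases eq_or_ne a 0 with rfl | ha0
  · have hb0 : b = 0 := hab.zero_iff.1 rfl
    subst hb0
    rw [act_zero_right, act_zero_right]
    exact Or.inl ⟨rfl, rfl⟩
  · have hb0 : b ≠ 0 := fun h => ha0 (hab.zero_iff.2 h)
    have h1 := hm P σ hP a ha0 ha
    have h2 := hm Q τ hQ b hb0 hb
    exact (RVC.congr_left h1).2 ((RVC.congr_right h2).2 ((RVC_io hΛ ht _).mul (hab.pow _)))

theorem rvc_of_act (hΛ : PIso Λ) (ht : VIn hP hQ Λ (σ X) (τ X)) (L : (FF p)[X])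
    (hL : L.coeff 0 ≠ 0) :
    ∃ m : ℕ, ∀ (a : P) (b : Q), hP.fv a ≤ hP.fv (σ X) ^ m →
      hQ.fv b ≤ hQ.fv (τ X) ^ m →
      RVC hP hQ Λ (act p (io hP) L a) (act p (io hQ) L b) →
      RVC hP hQ Λ a b := by
  have hL0 : L ≠ 0 := by
    rintro rfl
    exact hL (coeff_zero 0)
  obtain ⟨m, hm⟩ := act_lead L hL0
  refine ⟨m, fun a b ha hb hab => ?_⟩
  have hk : L.natTrailingDegree = 0 := by
    rw [natTrailingDegree_eq_zero]
    exact Or.inr hL
  have hc : io hP L.trailingCoeff ≠ 0 ∧ io hQ L.trailingCoeff ≠ 0 := by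
    have : L.trailingCoeff ≠ 0 := by
      rw [Ne, trailingCoeff_eq_zero]
      exact hL0
    exact ⟨(_root_.map_ne_zero _).2 this, (_root_.map_ne_zero _).2 this⟩
  have zP : a ≠ 0 → act p (io hP) L a ≠ 0 := fun h => (hm P σ hP a h ha).ne_left
  have zQ : b ≠ 0 → act p (io hQ) L b ≠ 0 := fun h => (hm Q τ hQ b h hb).ne_left
  rcases eq_or_ne a 0 with rfl | ha0
  · have h1 := hab.zero_iff.1 (act_zero_right _ _)
    have hb0 : b = 0 := by
      by_contra h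
      exact zQ h h1
    exact Or.inl ⟨rfl, hb0⟩
  · have hb0 : b ≠ 0 := by
      rintro rfl
      exact zP ha0 (hab.zero_iff.2 (act_zero_right _ _))
    have h1 := hm P σ hP a ha0 ha
    have h2 := hm Q τ hQ b hb0 hb
    have h3 := (RVC.congr_left h1).1 ((RVC.congr_right h2).1 hab)
    rw [hk, pow_zero, pow_one, pow_one] at h3
    have h4 := (RVC_io hΛ ht L.trailingCoeff).inv.mul h3
    rw [inv_mul_cancel_left₀ hc.1, inv_mul_cancel_left₀ hc.2] at h4
    exact h4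

/-! ### Closure properties -/

variable {G : Set (P × Q)}

theorem GA.zero (hG : GA hP hQ G Λ) : (0 : P × Q) ∈ G := by
  have := hG.sub _ hG.one _ hG.one
  rwa [sub_self] at this

theorem GA.neg (hG : GA hP hQ G Λ) {a : P × Q} (ha : a ∈ G) : -a ∈ G := by
  have := hG.sub _ hG.zero _ ha
  rwa [zero_sub] at this

theorem GA.add (hG : GA hP hQ G Λ) {a b : P × Q} (ha : a ∈ G) (hb : b ∈ G) :
    a + b ∈ G := by
  have := hG.sub _ ha _ (hG.neg hb)
  rwa [sub_neg_eq_add] at this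

theorem GA.io_mem (hG : GA hP hQ G Λ) (c : FF p) :
    (io hP c, io hQ c) ∈ G := by
  have := hG.smul c _ hG.one
  simpa using this

theorem GA.frobs (hG : GA hP hQ G Λ) {a : P × Q} (ha : a ∈ G) (i : ℕ) :
    a ^ p ^ i ∈ G := by
  induction i with
  | zero => rwa [pow_zero, pow_one]
  | succ i ih =>
    rw [pow_succ, pow_mul]
    exact hG.frob _ ih

theorem GA.act_mem (hG : GA hP hQ G Λ) (L : (FF p)[X]) {a : P × Q} (ha : a ∈ G) :
    (act p (io hP) L a.1, act p (io hQ) L a.2) ∈ G := by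
  induction L using Polynomial.induction_on' with
  | add L K hL hK =>
    rw [act_add_left, act_add_left]
    exact hG.add hL hK
  | monomial i c =>
    rw [act_monomial, act_monomial]
    exact hG.smul c _ (hG.frobs ha i)

theorem GA.near (hG : GA hP hQ G Λ) {a : P × Q} (ha : a ∈ G) (n : ℕ) :
    Near hP hQ n a.1 a.2 := by
  obtain ⟨c, hc⟩ := exists_io_near hP (hG.oc a ha) n
  have h1 := hG.sub _ ha _ (hG.io_mem c)
  exact ⟨c, hc, (rvc_small hG.iso hG.tt (hG.rvc _ h1) n).1 hc⟩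

end twoV

end AF80
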