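import Pool.Agent.AF80.Core1

/-!
# Elimination of one variable
-/

set_option autoImplicit false
set_option maxSynthPendingDepth 10

open Polynomial Filter

namespace AF80

open FT80 BF80

/-! ### One model -/

section one

variable {p : ℕ} [hp : Fact p.Prime] {M : Type} [Field M] {σ : P1 p →+* M}

theorem fval_split (hM : Mdl p σ) (S : Finset ℕ) (L : ℕ → (FF p)[X]) (K : ℕ → ℕ → (FF p)[X])
    (h : ∀ k ∈ S, ∀ x : M, act p (io hM) (L k) x =
      ∑ s ∈ Finset.range p, io hM (tF p) ^ s * act p (io hM) (K k s) x ^ p)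
    (e : ℕ → M) (a : M) (f : ℕ → M) (ha : a = ∑ s ∈ Finset.range p, σ X ^ s * f s ^ p) :
    fval hM S L e a =
      ∑ s ∈ Finset.range p, σ X ^ s * fval hM S (fun k => K k s) e (f s) ^ p := by
  have := charP_of hM
  unfold fval
  rw [Finset.sum_congr rfl fun k hk => h k hk (e k), Finset.sum_comm, ha,
    ← Finset.sum_add_distrib]
  refine Finset.sum_congr rfl fun s _ => ?_
  rw [add_pow_char, sum_pow_char, io_tF, mul_add, Finset.mul_sum]

theorem vc_of_fv (hM : Mdl p σ) {x y : M} (h : hM.fv x = hM.fv y) : hM.vc x = hM.vc y := by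
  have key : ∀ {x y : M}, hM.fv x = hM.fv y → hM.vc x ≤ hM.vc y := by
    intro x y h
    rcases eq_or_ne y 0 with rfl | hy
    · rw [map_zero, map_eq_zero] at h
      rw [h]
    · have h1 : hM.fv (x / y) ≤ 1 := by
        rw [map_div₀, h, div_self ((Valuation.ne_zero_iff _).2 hy)]
      have h2 : hM.vc (x / y) ≤ 1 := hM.vc_le_one.2 (hM.OC_of_VO ((hM.fv_le_one _).1 h1))
      rw [map_div₀] at h2
      exact (div_le_one₀ (zero_lt_iff.2 ((Valuation.ne_zero_iff _).2 hy))).1 h2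
  exact le_antisymm (key h) (key h.symm)

theorem vc_io (hM : Mdl p σ) {c : FF p} (hc : c ≠ 0) : hM.vc (io hM c) = 1 := by
  have h1 : hM.vc (io hM c) ≤ 1 := hM.vc_le_one.2 (io_mem_OC hM c)
  have h2 : hM.vc (io hM c⁻¹) ≤ 1 := hM.vc_le_one.2 (io_mem_OC hM c⁻¹)
  rw [map_inv₀, map_inv₀] at h2
  have h3 : (0 : hM.OC.ValueGroup) < hM.vc (io hM c) :=
    zero_lt_iff.2 ((Valuation.ne_zero_iff _).2 ((_root_.map_ne_zero _).2 hc))
  exact le_antisymm h1 ((inv_le_one₀ h3).1 h2)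

theorem exists_le_fv_io (hM : Mdl p σ) {c : FF p} (hc : c ≠ 0) :
    ∃ m : ℕ, hM.fv (σ X) ^ m ≤ hM.fv (io hM c) := by
  obtain ⟨m, hm⟩ := (hM.mem_OC).1 (io_mem_OC hM c⁻¹)
  refine ⟨m, ?_⟩
  rw [← hM.fv_le_one, map_mul, map_pow, map_inv₀, map_inv₀] at hm
  have h3 : (0 : hM.VG) < hM.fv (io hM c) :=
    zero_lt_iff.2 ((Valuation.ne_zero_iff _).2 ((_root_.map_ne_zero _).2 hc))
  rwa [← div_eq_mul_inv, div_le_one₀ h3] at hm

/-- the leading term of a separable operator at an infinitesimal element -/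
theorem fv_act_sep (hM : Mdl p σ) (D : (FF p)[X]) (hD : D.coeff 0 ≠ 0) {x : M}
    (hx : hM.vc x < 1) : hM.fv (act p (io hM) D x) = hM.fv (io hM (D.coeff 0)) * hM.fv x := by
  rcases eq_or_ne x 0 with rfl | hx0
  · rw [act_zero_right, map_zero, mul_zero]
  have hD0 : D ≠ 0 := by
    rintro rfl
    exact hD (coeff_zero 0)
  obtain ⟨m, hm⟩ := act_lead D hD0
  have h1 := (hm M σ hM x hx0 ((inf_iff hM x).1 hx m)).fv_eq
  have hk : D.natTrailingDegree = 0 := by
    rw [natTrailingDegree_eq_zero]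
    exact Or.inr hD
  rw [trailingCoeff, hk, pow_zero, pow_one, map_mul] at h1
  exact h1

theorem dom_bound (hM : Mdl p σ) {x y : M} (hx0 : x ≠ 0) (hy : hM.vc y < 1)
    (hle : hM.vc x ≤ hM.vc y) (D E : (FF p)[X]) (hD : D.coeff 0 ≠ 0) :
    ∃ N : ℕ, ∀ u : M, hM.fv u ≤ hM.fv x * hM.fv (σ X) ^ N →
      hM.fv (act p (io hM) E u) < hM.fv (act p (io hM) D y) := by
  have hx1 : hM.vc x < 1 := hle.trans_lt hy
  have hy0 : y ≠ 0 := by
    rintro rfl
    rw [map_zero, le_zero_iff, map_eq_zero] at hle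
    exact hx0 hle
  have hvy : (0 : hM.VG) < hM.fv y := zero_lt_iff.2 ((Valuation.ne_zero_iff _).2 hy0)
  obtain ⟨m1, hm1⟩ : ∃ m : ℕ, hM.fv x * hM.fv (σ X) ^ m ≤ hM.fv y := by
    have h1 : x / y ∈ hM.OC := by
      rw [← hM.vc_le_one, map_div₀]
      exact (div_le_one₀ (zero_lt_iff.2 ((Valuation.ne_zero_iff _).2 hy0))).2 hle
    obtain ⟨m, hm⟩ := hM.mem_OC.1 h1
    refine ⟨m, ?_⟩
    rw [← hM.fv_le_one, map_mul, map_pow, map_div₀, ← mul_div_assoc, div_le_one₀ hvy,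
      mul_comm] at hm
    exact hm
  obtain ⟨m2, hm2⟩ := fv_act_le E
  obtain ⟨m3, hm3⟩ := exists_le_fv_io hM hD
  refine ⟨m1 + m2 + m3 + 1, fun u hu => ?_⟩
  have hxle : hM.fv x ≤ 1 := by
    have := (inf_iff hM x).1 hx1 0
    rwa [pow_zero] at this
  have hu1 : hM.fv u ≤ 1 := hu.trans (mul_le_one' hxle (fvt_le_one hM _))
  have h1 := hm2 M σ hM u hu1
  rw [fv_act_sep hM D hD hy]
  have h2 : hM.fv (act p (io hM) E u) * hM.fv (σ X) ^ m2 ≤
      (hM.fv y * (hM.fv (σ X) ^ m3 * hM.fv (σ X))) * hM.fv (σ X) ^ m2 := by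
    calc hM.fv (act p (io hM) E u) * hM.fv (σ X) ^ m2 ≤ hM.fv u := h1
      _ ≤ hM.fv x * hM.fv (σ X) ^ (m1 + m2 + m3 + 1) := hu
      _ = (hM.fv x * hM.fv (σ X) ^ m1) *
          (hM.fv (σ X) ^ m3 * hM.fv (σ X) * hM.fv (σ X) ^ m2) := by
          rw [pow_succ, pow_add, pow_add]
          simp only [mul_assoc, mul_comm, mul_left_comm]
      _ ≤ hM.fv y * (hM.fv (σ X) ^ m3 * hM.fv (σ X) * hM.fv (σ X) ^ m2) :=
          mul_le_mul_left hm1 _
      _ = _ := by simp only [mul_assoc]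
  have h3 := le_of_mul_le_mul_right h2 (fvt_pos hM m2)
  refine h3.trans_lt ?_
  rw [mul_comm (hM.fv (io hM (D.coeff 0)))]
  have h4 : hM.fv (σ X) ^ m3 * hM.fv (σ X) < hM.fv (io hM (D.coeff 0)) := by
    refine lt_of_lt_of_le ?_ hm3
    have := mul_lt_mul_of_pos_left hM.fv_t_lt (fvt_pos hM m3)
    rwa [mul_one] at this
  exact mul_lt_mul_of_pos_left h4 hvy

theorem vc_eq_of (hM : Mdl p σ) {x y z : M} (hx0 : x ≠ 0) (hy : hM.vc y < 1)
    (hle : hM.vc x ≤ hM.vc y) (D E : (FF p)[X]) (hD : D.coeff 0 ≠ 0)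
    (hz : z = act p (io hM) D y - act p (io hM) E x) (hE : act p (io hM) E x ≠ 0)
    (hf : hM.fv z = hM.fv (act p (io hM) E x)) : hM.vc z = hM.vc x := by
  have hx1 : hM.vc x < 1 := hle.trans_lt hy
  have hE0 : E ≠ 0 := by
    rintro rfl
    exact hE (act_zero_left _ _)
  obtain ⟨m, hm⟩ := act_lead E hE0
  have h1 := vc_of_fv hM (hm M σ hM x hx0 ((inf_iff hM x).1 hx1 m)).fv_eq
  have hec : E.trailingCoeff ≠ 0 := by
    rw [Ne, trailingCoeff_eq_zero]
    exact hE0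
  rw [map_mul, vc_io hM hec, one_mul, map_pow] at h1
  have h2 : hM.vc (act p (io hM) D y) = hM.vc y := by
    have h3 := fv_act_sep hM D hD hy
    rw [← map_mul] at h3
    have h4 := vc_of_fv hM h3
    rwa [map_mul, vc_io hM hD, one_mul] at h4
  have h3 : hM.vc z = hM.vc (act p (io hM) E x) := vc_of_fv hM hf
  have h4 : hM.vc y ≤ hM.vc x ^ p ^ E.natTrailingDegree := by
    rw [← h2]
    have e : act p (io hM) D y = z + act p (io hM) E x := by rw [hz]; ring
    rw [e, ← h1]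
    exact Valuation.map_add_le _ h3.le le_rfl
  have h5 : E.natTrailingDegree = 0 := by
    by_contra hk
    have h6 : 1 < p ^ E.natTrailingDegree := Nat.one_lt_pow hk hp.out.one_lt
    have h7 : hM.vc x ^ p ^ E.natTrailingDegree < hM.vc x ^ 1 :=
      pow_lt_pow_right_of_lt_one₀ (zero_lt_iff.2 ((Valuation.ne_zero_iff _).2 hx0)) hx1 h6
    rw [pow_one] at h7
    exact absurd (hle.trans h4) (not_le.2 h7)
  rw [h3, h1, h5, pow_zero, pow_one]

end one

/-! ### Two models -/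

section two

variable {p : ℕ} [hp : Fact p.Prime] {P Q : Type} [Field P] [Field Q] {σ : P1 p →+* P}
  {τ : P1 p →+* Q} {hP : Mdl p σ} {hQ : Mdl p τ} {Λ : Subgroup (hP.VGˣ × hQ.VGˣ)}
  {G : Set (P × Q)}

/-- affine forms -/
structure Fo (p : ℕ) [Fact p.Prime] (P Q : Type) where
  L : ℕ → (FF p)[X]
  c : P × Q

/-- the value of a form in the first model -/
noncomputable def Fo.vP (hP : Mdl p σ) (S : Finset ℕ) (e : ℕ → P) (x : Fo p P Q) : P :=
  fval hP S x.L e x.c.1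

/-- the value of a form in the second model -/
noncomputable def Fo.vQ (hQ : Mdl p τ) (S : Finset ℕ) (e : ℕ → Q) (x : Fo p P Q) : Q :=
  fval hQ S x.L e x.c.2

theorem reduce (hG : GA hP hQ G Λ) (S : Finset ℕ) : ∀ (n : ℕ) (x : Fo p P Q), x.c ∈ G →
    (∀ k ∈ S, (x.L k).natDegree ≤ n) → ∃ R : List (Fo p P Q),
      (∀ y ∈ R, y.c ∈ G ∧ ∃ k ∈ S, (y.L k).coeff 0 ≠ 0) ∧
      ∀ (e : ℕ → P) (e' : ℕ → Q), (∀ y ∈ R, RVC hP hQ Λ (y.vP hP S e) (y.vQ hQ S e')) →
        RVC hP hQ Λ (x.vP hP S e) (x.vQ hQ S e') := by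
  intro n
  induction n with
  | zero =>
    intro x hx hd
    by_cases hs : ∃ k ∈ S, (x.L k).coeff 0 ≠ 0
    · refine ⟨[x], fun y hy => ?_, fun e e' h => h x (List.mem_singleton_self x)⟩
      rw [List.mem_singleton] at hy
      subst hy
      exact ⟨hx, hs⟩
    · push Not at hs
      have h0 : ∀ k ∈ S, x.L k = 0 := by
        intro k hk
        rw [eq_C_of_natDegree_le_zero (hd k hk), hs k hk, C_0]
      refine ⟨[], fun y hy => absurd hy (List.not_mem_nil), fun e e' _ => ?_⟩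
      unfold Fo.vP Fo.vQ
      rw [fval_zero hP S x.L h0, fval_zero hQ S x.L h0]
      exact hG.rvc _ hx
  | succ n ih =>
    intro x hx hd
    by_cases hs : ∃ k ∈ S, (x.L k).coeff 0 ≠ 0
    · refine ⟨[x], fun y hy => ?_, fun e e' h => h x (List.mem_singleton_self x)⟩
      rw [List.mem_singleton] at hy
      subst hy
      exact ⟨hx, hs⟩
    · push Not at hs
      have h0 : ∀ k : ℕ, ∃ K : ℕ → (FF p)[X], k ∈ S → ((∀ s, (K s).natDegree ≤ n) ∧
          ∀ (B : Type) [CommRing B] [CharP B p] (ι : FF p →+* B) (x' : B),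
          act p ι (x.L k) x' = ∑ s ∈ Finset.range p, ι (tF p) ^ s * act p ι (K s) x' ^ p) := by
        intro k
        by_cases hk : k ∈ S
        · obtain ⟨K, hK1, hK2⟩ := act_split (x.L k) (hs k hk)
          refine ⟨K, fun _ => ⟨fun s => (hK1 s).trans ?_, hK2⟩⟩
          have := hd k hk
          omega
        · exact ⟨fun _ => 0, fun h => absurd h hk⟩
      choose K hK using h0
      obtain ⟨f, hf, hxf⟩ := hG.lam _ hx
      have h1 : ∀ s : ℕ, ∃ R : List (Fo p P Q),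
          (∀ y ∈ R, y.c ∈ G ∧ ∃ k ∈ S, (y.L k).coeff 0 ≠ 0) ∧
          ∀ (e : ℕ → P) (e' : ℕ → Q), (∀ y ∈ R, RVC hP hQ Λ (y.vP hP S e) (y.vQ hQ S e')) →
            RVC hP hQ Λ (Fo.vP hP S e ⟨fun k => K k s, f s⟩)
              (Fo.vQ hQ S e' ⟨fun k => K k s, f s⟩) := by
        intro s
        exact ih ⟨fun k => K k s, f s⟩ (hf s) fun k hk => (hK k hk).1 s
      choose R hR1 hR2 using h1
      refine ⟨(List.range p).flatMap R, fun y hy => ?_, fun e e' h => ?_⟩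
      · obtain ⟨s, _, hys⟩ := List.mem_flatMap.1 hy
        exact hR1 s y hys
      · have cP := charP_of hP
        have cQ := charP_of hQ
        have e1 : x.vP hP S e = ∑ s ∈ Finset.range p,
            σ X ^ s * fval hP S (fun k => K k s) e (f s).1 ^ p := by
          refine fval_split hP S x.L K (fun k hk y => (hK k hk).2 P (io hP) y) e x.c.1 _ ?_
          have h2 := congrArg (RingHom.fst P Q) hxf
          rw [map_sum] at h2
          simpa using h2
        have e2 : x.vQ hQ S e' = ∑ s ∈ Finset.range p,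
            τ X ^ s * fval hQ S (fun k => K k s) e' (f s).2 ^ p := by
          refine fval_split hQ S x.L K (fun k hk y => (hK k hk).2 Q (io hQ) y) e' x.c.2 _ ?_
          have h2 := congrArg (RingHom.snd P Q) hxf
          rw [map_sum] at h2
          simpa using h2
        rw [e1, e2]
        refine RVC_pb hG.iso hG.tt _ _ fun s hs' => ?_
        exact hR2 s e e' fun y hy => h y (List.mem_flatMap.2 ⟨s, List.mem_range.2 hs', hy⟩)

/-- a separable equation near given digits -/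
theorem solve (hG : GA hP hQ G Λ) {S : Finset ℕ} {j : ℕ} (hj : j ∈ S) (L : ℕ → (FF p)[X])
    (hL : (L j).coeff 0 ≠ 0) {c : P × Q} (hc : c ∈ G) {e : ℕ → P} (he : ∀ k, e k ∈ hP.OC)
    (hinf : hP.vc (fval hP S L e c.1) < 1) (n : ℕ) : ∃ N : ℕ, n ≤ N ∧ ∀ e'' : ℕ → Q,
      (∀ k ∈ S.erase j, Near hP hQ N (e k) (e'' k)) → ∀ w : Q, hQ.fv w ≤ hQ.fv (τ X) ^ N →
      ∃ z : Q, Near hP hQ n (e j) z ∧ fval hQ S L (Function.update e'' j z) c.2 = w := by
  obtain ⟨m, hm⟩ := exists_act_eq (L j) hL n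
  obtain ⟨N, hmN, hN⟩ := near_fval hP hQ S L m
  refine ⟨max n N, le_max_left _ _, fun e'' he'' w hw => ?_⟩
  have cQ := charP_of hQ
  obtain ⟨c0, hc0⟩ := exists_io_near hP (he j) (max n N)
  set e3 : ℕ → Q := Function.update e'' j (io hQ c0) with he3
  have near3 : ∀ k ∈ S, Near hP hQ N (e k) (e3 k) := by
    intro k hk
    by_cases hkj : k = j
    · subst hkj
      rw [he3, Function.update_self]
      exact (near_io hP hQ hc0).mono (le_max_right _ _)
    · rw [he3, Function.update_of_ne hkj]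
      exact (he'' k (Finset.mem_erase.2 ⟨hkj, hk⟩)).mono (le_max_right _ _)
  have h1 := (hN e e3 near3 c.1 c.2 (hG.near hc m)).small ((inf_iff _ _).1 hinf m)
  have h2 : hQ.fv w ≤ hQ.fv (τ X) ^ m :=
    hw.trans (fvt_le hQ (hmN.trans (le_max_right _ _)))
  obtain ⟨z0, hz0, hz0'⟩ := hm Q τ hQ (w - fval hQ S L e3 c.2) (Valuation.map_sub_le _ h2 h1)
  refine ⟨io hQ c0 + z0, ⟨c0, hc0.trans (fvt_le hP (le_max_left _ _)), ?_⟩, ?_⟩
  · rwa [add_sub_cancel_left]
  · rw [fval_update hQ hj, act_add_right, hz0, he3, fval_update hQ hj]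
    ring

/-- the form `D x - E y` -/
noncomputable def comb (hP : Mdl p σ) (hQ : Mdl p τ) (D E : (FF p)[X]) (x y : Fo p P Q) :
    Fo p P Q :=
  ⟨fun k => star p D (x.L k) - star p E (y.L k),
    (act p (io hP) D x.c.1 - act p (io hP) E y.c.1, act p (io hQ) D x.c.2 - act p (io hQ) E y.c.2)⟩

/-- the form `x + E y` -/
noncomputable def addf (hP : Mdl p σ) (hQ : Mdl p τ) (E : (FF p)[X]) (x y : Fo p P Q) :
    Fo p P Q :=
  ⟨fun k => x.L k + star p E (y.L k),
    (x.c.1 + act p (io hP) E y.c.1, x.c.2 + act p (io hQ) E y.c.2)⟩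

theorem comb_mem (hG : GA hP hQ G Λ) (D E : (FF p)[X]) {x y : Fo p P Q} (hx : x.c ∈ G)
    (hy : y.c ∈ G) : (comb hP hQ D E x y).c ∈ G :=
  hG.sub _ (hG.act_mem D hx) _ (hG.act_mem E hy)

theorem addf_mem (hG : GA hP hQ G Λ) (E : (FF p)[X]) {x y : Fo p P Q} (hx : x.c ∈ G)
    (hy : y.c ∈ G) : (addf hP hQ E x y).c ∈ G :=
  hG.add hx (hG.act_mem E hy)

theorem comb_vP {S : Finset ℕ} {j : ℕ} (hj : j ∈ S) (D E : (FF p)[X]) (x y : Fo p P Q)
    (h : star p D (x.L j) = star p E (y.L j)) (e : ℕ → P) :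
    (comb hP hQ D E x y).vP hP (S.erase j) e =
      act p (io hP) D (x.vP hP S e) - act p (io hP) E (y.vP hP S e) :=
  fval_elim hP hj D E x.L y.L h e _ _

theorem comb_vQ {S : Finset ℕ} {j : ℕ} (hj : j ∈ S) (D E : (FF p)[X]) (x y : Fo p P Q)
    (h : star p D (x.L j) = star p E (y.L j)) (e : ℕ → Q) :
    (comb hP hQ D E x y).vQ hQ (S.erase j) e =
      act p (io hQ) D (x.vQ hQ S e) - act p (io hQ) E (y.vQ hQ S e) :=
  fval_elim hQ hj D E x.L y.L h e _ _

theorem addf_vP (S : Finset ℕ) (E : (FF p)[X]) (x y : Fo p P Q) (e : ℕ → P) :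
    (addf hP hQ E x y).vP hP S e = x.vP hP S e + act p (io hP) E (y.vP hP S e) := by
  unfold Fo.vP addf
  rw [fval_add, fval_act]

theorem addf_vQ (S : Finset ℕ) (E : (FF p)[X]) (x y : Fo p P Q) (e : ℕ → Q) :
    (addf hP hQ E x y).vQ hQ S e = x.vQ hQ S e + act p (io hQ) E (y.vQ hQ S e) := by
  unfold Fo.vQ addf
  rw [fval_add, fval_act]

end two

end AF80
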