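import Pool.Agent.AF80.Core2

/-!
# The extension lemma for finitely many affine forms
-/

set_option autoImplicit false
set_option maxSynthPendingDepth 10

open Polynomial Filter

namespace AF80

open FT80 BF80

section two

variable {p : ℕ} [hp : Fact p.Prime] {P Q : Type} [Field P] [Field Q] {σ : P1 p →+* P}
  {τ : P1 p →+* Q} {hP : Mdl p σ} {hQ : Mdl p τ} {Λ : Subgroup (hP.VGˣ × hQ.VGˣ)}
  {G : Set (P × Q)}

/-- the extension property for the variables in `S` -/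
def KL (hP : Mdl p σ) (hQ : Mdl p τ) (Λ : Subgroup (hP.VGˣ × hQ.VGˣ)) (G : Set (P × Q))
    (e : ℕ → P) (S : Finset ℕ) : Prop :=
  ∀ F : List (Fo p P Q), (∀ x ∈ F, x.c ∈ G) → ∀ n : ℕ, ∃ e' : ℕ → Q,
    (∀ k ∈ S, Near hP hQ n (e k) (e' k)) ∧ ∀ x ∈ F, RVC hP hQ Λ (x.vP hP S e) (x.vQ hQ S e')

/-- what has to be found for the elimination of the variable `j` -/
def Good (hP : Mdl p σ) (hQ : Mdl p τ) (Λ : Subgroup (hP.VGˣ × hQ.VGˣ)) (e : ℕ → P)
    (S : Finset ℕ) (j : ℕ) (F : List (Fo p P Q)) (x1 : Fo p P Q)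
    (D E : Fo p P Q → (FF p)[X]) : Prop :=
  ∀ N : ℕ, ∃ (e'' : ℕ → Q) (w : Q), (∀ k ∈ S.erase j, Near hP hQ N (e k) (e'' k)) ∧
    hQ.fv w ≤ hQ.fv (τ X) ^ N ∧ ∀ x ∈ F, RVC hP hQ Λ (act p (io hP) (D x) (x.vP hP S e))
      ((comb hP hQ (D x) (E x) x x1).vQ hQ (S.erase j) e'' + act p (io hQ) (E x) w)

/-- the leading form is approximated by a form in the other variables -/
theorem good_of_zeta (hG : GA hP hQ G Λ) {e : ℕ → P} {S : Finset ℕ} {j : ℕ} (hj : j ∈ S)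
    (ih : KL hP hQ Λ G e (S.erase j)) {F : List (Fo p P Q)} (hF : ∀ x ∈ F, x.c ∈ G)
    {x1 : Fo p P Q} (hx1 : x1.c ∈ G) {D E : Fo p P Q → (FF p)[X]}
    (hDE : ∀ x, star p (D x) (x.L j) = star p (E x) (x1.L j)) (ζ : Fo p P Q) (hζ : ζ.c ∈ G)
    (hinf : hP.vc (ζ.vP hP (S.erase j) e) < 1)
    (h : ∀ x ∈ F, x1.vP hP S e = ζ.vP hP (S.erase j) e ∨
      hP.fv (act p (io hP) (E x) (x1.vP hP S e - ζ.vP hP (S.erase j) e)) <
        hP.fv (act p (io hP) (D x) (x.vP hP S e))) :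
    Good hP hQ Λ e S j F x1 D E := by
  intro N
  have cP := charP_of hP
  obtain ⟨e'', h1, h2⟩ := ih (ζ :: F.map fun x => addf hP hQ (E x)
    (comb hP hQ (D x) (E x) x x1) ζ) (by
      intro x hx
      rcases List.mem_cons.1 hx with rfl | hx
      · exact hζ
      · obtain ⟨y, hy, rfl⟩ := List.mem_map.1 hx
        exact addf_mem hG _ (comb_mem hG _ _ (hF y hy) hx1) hζ) N
  have hz := h2 ζ (List.mem_cons_self ..)
  refine ⟨e'', ζ.vQ hQ (S.erase j) e'', h1,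
    (rvc_small hG.iso hG.tt hz N).1 ((inf_iff _ _).1 hinf N), fun x hx => ?_⟩
  have h3 := h2 _ (List.mem_cons_of_mem _ (List.mem_map_of_mem hx))
  rw [addf_vP, addf_vQ, comb_vP hj _ _ _ _ (hDE x)] at h3
  rcases h x hx with h4 | h4
  · rw [← h4, sub_add_cancel] at h3
    exact h3
  · have h5 : RVeq hP (act p (io hP) (D x) (x.vP hP S e) -
        act p (io hP) (E x) (x1.vP hP S e) + act p (io hP) (E x) (ζ.vP hP (S.erase j) e))
        (act p (io hP) (D x) (x.vP hP S e)) := by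
      unfold RVeq
      have e1 : act p (io hP) (D x) (x.vP hP S e) -
          act p (io hP) (E x) (x1.vP hP S e) + act p (io hP) (E x) (ζ.vP hP (S.erase j) e) -
          act p (io hP) (D x) (x.vP hP S e) =
          -(act p (io hP) (E x) (x1.vP hP S e - ζ.vP hP (S.erase j) e)) := by
        rw [act_sub_right]
        ring
      rw [e1, Valuation.map_neg]
      exact h4
    exact (RVC.congr_left h5).1 h3

/-- the leading form is independent of the forms in the other variables -/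
theorem good_of_indep (hG : GA hP hQ G Λ) {e : ℕ → P} {S : Finset ℕ} {j : ℕ} (hj : j ∈ S)
    (ih : KL hP hQ Λ G e (S.erase j)) {F : List (Fo p P Q)} (hF : ∀ x ∈ F, x.c ∈ G)
    {x1 : Fo p P Q} (hx1 : x1.c ∈ G) {D E : Fo p P Q → (FF p)[X]}
    (hDE : ∀ x, star p (D x) (x.L j) = star p (E x) (x1.L j))
    (hinf : hP.vc (x1.vP hP S e) < 1)
    (hdom : ∀ h : x1.vP hP S e ≠ 0, ∃ δ, (hP.vu (x1.vP hP S e) h, δ) ∈ Λ)
    (h : ∀ x ∈ F, act p (io hP) (D x) (x.vP hP S e) - act p (io hP) (E x) (x1.vP hP S e) ≠ 0 →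
      act p (io hP) (E x) (x1.vP hP S e) ≠ 0 →
      hP.fv (act p (io hP) (D x) (x.vP hP S e) - act p (io hP) (E x) (x1.vP hP S e)) ≠
        hP.fv (act p (io hP) (E x) (x1.vP hP S e))) :
    Good hP hQ Λ e S j F x1 D E := by
  intro N
  obtain ⟨r, hr⟩ := RVC.exists (hM := hP) (hN := hQ) (Λ := Λ) hdom
  obtain ⟨M, hM⟩ := list_bound F (fun x m => ∀ (a : P) (b : Q), hP.fv a ≤ hP.fv (σ X) ^ m →
      hQ.fv b ≤ hQ.fv (τ X) ^ m → RVC hP hQ Λ a b →
      RVC hP hQ Λ (act p (io hP) (E x) a) (act p (io hQ) (E x) b))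
    (fun x m n hmn h a b ha hb => h a b (ha.trans (fvt_le hP hmn)) (hb.trans (fvt_le hQ hmn)))
    (fun x _ => rvc_act hG.iso hG.tt (E x))
  have hi := (inf_iff _ _).1 hinf
  have hri : ∀ n : ℕ, hQ.fv r ≤ hQ.fv (τ X) ^ n := fun n =>
    (rvc_small hG.iso hG.tt hr n).1 (hi n)
  obtain ⟨e'', h1, h2⟩ := ih (F.map fun x => comb hP hQ (D x) (E x) x x1) (by
      intro x hx
      obtain ⟨y, hy, rfl⟩ := List.mem_map.1 hx
      exact comb_mem hG _ _ (hF y hy) hx1) N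
  refine ⟨e'', r, h1, hri N, fun x hx => ?_⟩
  have h3 := h2 _ (List.mem_map_of_mem hx)
  rw [comb_vP hj _ _ _ _ (hDE x)] at h3
  have h4 := hM x hx _ _ (hi M) (hri M) hr
  have h5 := RVC.add hG.iso h3 h4 (h x hx)
  rwa [sub_add_cancel] at h5

/-- elimination of one variable -/
theorem exists_good (hG : GA hP hQ G Λ) {e : ℕ → P} {S : Finset ℕ}
    (hdom : ∀ (L : ℕ → (FF p)[X]) (c : P × Q), c ∈ G → ∀ h : fval hP S L e c.1 ≠ 0,
      ∃ δ, (hP.vu (fval hP S L e c.1) h, δ) ∈ Λ)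
    {j : ℕ} (hj : j ∈ S) (ih : KL hP hQ Λ G e (S.erase j)) {F : List (Fo p P Q)}
    (hF : ∀ x ∈ F, x.c ∈ G) (hFi : ∀ x ∈ F, hP.vc (x.vP hP S e) < 1) {x1 : Fo p P Q}
    (hx1F : x1 ∈ F) (hmin : ∀ x ∈ F, hP.vc (x1.vP hP S e) ≤ hP.vc (x.vP hP S e))
    {D E : Fo p P Q → (FF p)[X]} (hD : ∀ x, (D x).coeff 0 ≠ 0)
    (hDE : ∀ x, star p (D x) (x.L j) = star p (E x) (x1.L j)) :
    Good hP hQ Λ e S j F x1 D E := by
  have hx1 := hF x1 hx1F
  have hinf := hFi x1 hx1F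
  by_cases h0 : x1.vP hP S e = 0
  · -- the leading form is zero
    refine good_of_zeta hG hj ih hF hx1 hDE ⟨fun _ => 0, 0⟩ hG.zero ?_ fun x _ => Or.inl ?_
    · unfold Fo.vP
      rw [fval_zero hP _ _ fun _ _ => rfl]
      show hP.vc 0 < 1
      rw [map_zero]
      exact zero_lt_one
    · rw [h0]
      unfold Fo.vP
      rw [fval_zero hP _ _ fun _ _ => rfl]
      rfl
  by_cases h1 : ∀ x ∈ F,
      act p (io hP) (D x) (x.vP hP S e) - act p (io hP) (E x) (x1.vP hP S e) ≠ 0 →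
      act p (io hP) (E x) (x1.vP hP S e) ≠ 0 →
      hP.fv (act p (io hP) (D x) (x.vP hP S e) - act p (io hP) (E x) (x1.vP hP S e)) ≠
        hP.fv (act p (io hP) (E x) (x1.vP hP S e))
  · exact good_of_indep hG hj ih hF hx1 hDE hinf (fun h => hdom x1.L x1.c hx1 h) h1
  · push Not at h1
    obtain ⟨x0, hx0, hy0, hE0, hfv⟩ := h1
    have hvc := vc_eq_of hP h0 (hFi x0 hx0) (hmin x0 hx0) (D x0) (E x0) (hD x0) rfl hE0 hfv
    set y0 := act p (io hP) (D x0) (x0.vP hP S e) - act p (io hP) (E x0) (x1.vP hP S e) with hy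
    obtain ⟨N, hN⟩ := list_bound F (fun x N => ∀ u : P,
        hP.fv u ≤ hP.fv (x1.vP hP S e) * hP.fv (σ X) ^ N →
        hP.fv (act p (io hP) (E x) u) < hP.fv (act p (io hP) (D x) (x.vP hP S e)))
      (fun x m n hmn h u hu => h u (hu.trans (mul_le_mul_right (fvt_le hP hmn) _)))
      (fun x hx => dom_bound hP h0 (hFi x hx) (hmin x hx) (D x) (E x) (hD x))
    obtain ⟨c, hc⟩ := exists_scalar hP h0 hy0 hvc.symm N
    set ζ : Fo p P Q := ⟨fun k => C c * (comb hP hQ (D x0) (E x0) x0 x1).L k,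
      (io hP c * (comb hP hQ (D x0) (E x0) x0 x1).c.1,
        io hQ c * (comb hP hQ (D x0) (E x0) x0 x1).c.2)⟩ with hζ
    have hζv : ζ.vP hP (S.erase j) e = io hP c * y0 := by
      have h2 := comb_vP (hP := hP) (hQ := hQ) hj (D x0) (E x0) x0 x1 (hDE x0) e
      rw [hy, ← h2, hζ]
      unfold Fo.vP
      exact fval_smul hP _ c _ e _
    refine good_of_zeta hG hj ih hF hx1 hDE ζ
      (hG.smul c _ (comb_mem hG _ _ (hF x0 hx0) hx1)) ?_ fun x hx => Or.inr ?_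
    · rw [hζv]
      have h3 : io hP c * y0 = x1.vP hP S e - (x1.vP hP S e - io hP c * y0) := by ring
      rw [inf_iff]
      intro n
      have h4 := (inf_iff _ _).1 hinf n
      rw [h3]
      exact Valuation.map_sub_le _ h4
        ((hc.trans (mul_le_of_le_one_right' (fvt_le_one hP N))).trans h4)
    · rw [hζv]
      exact hN x hx _ hc

/-- forms with separable coefficients -/
theorem KL_sep (hG : GA hP hQ G Λ) {e : ℕ → P} (he : ∀ k, e k ∈ hP.OC) {S : Finset ℕ}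
    (hdom : ∀ (L : ℕ → (FF p)[X]) (c : P × Q), c ∈ G → ∀ h : fval hP S L e c.1 ≠ 0,
      ∃ δ, (hP.vu (fval hP S L e c.1) h, δ) ∈ Λ)
    (ih : ∀ j ∈ S, KL hP hQ Λ G e (S.erase j)) (F : List (Fo p P Q))
    (hF : ∀ x ∈ F, x.c ∈ G ∧ ∃ k ∈ S, (x.L k).coeff 0 ≠ 0) (n : ℕ) : ∃ e' : ℕ → Q,
    (∀ k ∈ S, Near hP hQ n (e k) (e' k)) ∧
      ∀ x ∈ F, RVC hP hQ Λ (x.vP hP S e) (x.vQ hQ S e') := by
  classical
  -- the finite forms
  obtain ⟨N1, hN1⟩ := list_bound F (fun x N => ¬ hP.vc (x.vP hP S e) < 1 → ∀ e' : ℕ → Q,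
      (∀ k ∈ S, Near hP hQ N (e k) (e' k)) → RVC hP hQ Λ (x.vP hP S e) (x.vQ hQ S e'))
    (fun x m n hmn h hx e' he' => h hx e' fun k hk => (he' k hk).mono hmn) (by
      intro x hx
      by_cases hi : hP.vc (x.vP hP S e) < 1
      · exact ⟨0, fun h => absurd hi h⟩
      · have h1 := hi
        rw [inf_iff] at h1
        push Not at h1
        obtain ⟨m, hm⟩ := h1
        obtain ⟨N, _, hN⟩ := near_fval hP hQ S x.L m
        refine ⟨N, fun _ e' he' => ?_⟩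
        exact (hN e e' he' x.c.1 x.c.2 (hG.near (hF x hx).1 m)).rvc hG.iso hG.tt (not_le.2 hm))
  set F2 := F.filter fun x => decide (hP.vc (x.vP hP S e) < 1) with hF2
  have hmem : ∀ x, x ∈ F2 ↔ x ∈ F ∧ hP.vc (x.vP hP S e) < 1 := by
    intro x
    rw [hF2, List.mem_filter, decide_eq_true_iff]
  by_cases hnil : F2 = []
  · -- no infinitesimal forms
    have h1 : ∀ k, ∃ c : FF p, hP.fv (e k - io hP c) ≤ hP.fv (σ X) ^ (max n N1) := fun k =>
      exists_io_near hP (he k) _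
    choose c hc using h1
    refine ⟨fun k => io hQ (c k), fun k _ => (near_io hP hQ (hc k)).mono (le_max_left _ _),
      fun x hx => hN1 x hx ?_ _ fun k _ => (near_io hP hQ (hc k)).mono (le_max_right _ _)⟩
    intro hi
    have h2 := (hmem x).2 ⟨hx, hi⟩
    rw [hnil] at h2
    exact absurd h2 (List.not_mem_nil)
  obtain ⟨x1, hx1F, hmin⟩ := list_min (fun x => hP.vc (x.vP hP S e)) F2 hnil
  obtain ⟨hx1, hinf⟩ := (hmem x1).1 hx1F
  obtain ⟨j, hj, hLj⟩ := (hF x1 hx1).2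
  have hore : ∀ x : Fo p P Q, ∃ D E : (FF p)[X], D.coeff 0 ≠ 0 ∧
      star p D (x.L j) = star p E (x1.L j) := fun x => ore (x.L j) (x1.L j) hLj
  choose D E hD hDE using hore
  have hgood := exists_good hG hdom hj (ih j hj) (F := F2) (fun x hx => (hF x ((hmem x).1 hx).1).1)
    (fun x hx => ((hmem x).1 hx).2) hx1F hmin hD hDE
  -- bounds
  obtain ⟨N2, hN2⟩ := list_bound F2 (fun x m => ∀ (a : P) (b : Q), hP.fv a ≤ hP.fv (σ X) ^ m →
      hQ.fv b ≤ hQ.fv (τ X) ^ m →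
      RVC hP hQ Λ (act p (io hP) (D x) a) (act p (io hQ) (D x) b) → RVC hP hQ Λ a b)
    (fun x m n hmn h a b ha hb => h a b (ha.trans (fvt_le hP hmn)) (hb.trans (fvt_le hQ hmn)))
    (fun x _ => rvc_of_act hG.iso hG.tt (D x) (hD x))
  obtain ⟨N3, hN3⟩ := list_bound F2 (fun x N => ∀ e' : ℕ → Q,
      (∀ k ∈ S, Near hP hQ N (e k) (e' k)) → hQ.fv (x.vQ hQ S e') ≤ hQ.fv (τ X) ^ N2)
    (fun x m n hmn h e' he' => h e' fun k hk => (he' k hk).mono hmn) (by
      intro x hx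
      obtain ⟨N, _, hN⟩ := near_fval hP hQ S x.L N2
      refine ⟨N, fun e' he' => ?_⟩
      obtain ⟨h1, h2⟩ := (hmem x).1 hx
      exact (hN e e' he' x.c.1 x.c.2 (hG.near (hF x h1).1 N2)).small ((inf_iff _ _).1 h2 N2))
  obtain ⟨N5, hN5, hsolve⟩ := solve hG hj x1.L hLj (hF x1 hx1).1 he hinf (max n (max N1 N3))
  obtain ⟨e'', w, h1, h2, h3⟩ := hgood N5
  obtain ⟨z, hz1, hz2⟩ := hsolve e'' h1 w h2
  have hnear : ∀ k ∈ S, Near hP hQ (max n (max N1 N3)) (e k) (Function.update e'' j z k) := by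
    intro k hk
    by_cases hkj : k = j
    · subst hkj
      rwa [Function.update_self]
    · rw [Function.update_of_ne hkj]
      exact (h1 k (Finset.mem_erase.2 ⟨hkj, hk⟩)).mono hN5
  refine ⟨Function.update e'' j z, fun k hk => (hnear k hk).mono (le_max_left _ _),
    fun x hx => ?_⟩
  by_cases hi : hP.vc (x.vP hP S e) < 1
  · have hx2 := (hmem x).2 ⟨hx, hi⟩
    have h4 := comb_vQ (hP := hP) (hQ := hQ) hj (D x) (E x) x x1 (hDE x) (Function.update e'' j z)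
    have h5 : x1.vQ hQ S (Function.update e'' j z) = w := hz2
    have h6 : (comb hP hQ (D x) (E x) x x1).vQ hQ (S.erase j) (Function.update e'' j z) =
        (comb hP hQ (D x) (E x) x x1).vQ hQ (S.erase j) e'' := by
      unfold Fo.vQ
      apply fval_congr
      intro k hk
      rw [Function.update_of_ne (Finset.ne_of_mem_erase hk)]
    rw [h5, h6] at h4
    have h7 := h3 x hx2
    rw [h4, sub_add_cancel] at h7
    refine hN2 x hx2 _ _ ((inf_iff _ _).1 hi N2) ?_ h7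
    exact hN3 x hx2 _ fun k hk =>
      (hnear k hk).mono ((le_max_right _ _).trans (le_max_right _ _))
  · exact hN1 x hx hi _ fun k hk =>
      (hnear k hk).mono ((le_max_left _ _).trans (le_max_right _ _))

/-- the extension lemma -/
theorem KL_all (hG : GA hP hQ G Λ) {e : ℕ → P} (he : ∀ k, e k ∈ hP.OC)
    (hdom : ∀ (S : Finset ℕ) (L : ℕ → (FF p)[X]) (c : P × Q), c ∈ G →
      ∀ h : fval hP S L e c.1 ≠ 0, ∃ δ, (hP.vu (fval hP S L e c.1) h, δ) ∈ Λ)
    (S : Finset ℕ) : KL hP hQ Λ G e S := by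
  induction S using Finset.strongInduction with
  | H S ih =>
    intro F hF n
    have h1 : ∀ x : Fo p P Q, ∃ R : List (Fo p P Q), x ∈ F →
        (∀ y ∈ R, y.c ∈ G ∧ ∃ k ∈ S, (y.L k).coeff 0 ≠ 0) ∧
        ∀ (e : ℕ → P) (e' : ℕ → Q), (∀ y ∈ R, RVC hP hQ Λ (y.vP hP S e) (y.vQ hQ S e')) →
          RVC hP hQ Λ (x.vP hP S e) (x.vQ hQ S e') := by
      intro x
      by_cases hx : x ∈ F
      · obtain ⟨m, hm⟩ := finset_bound S (fun k m => (x.L k).natDegree ≤ m)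
          (fun k m n hmn h => h.trans hmn) (fun k _ => ⟨_, le_rfl⟩)
        obtain ⟨R, hR⟩ := reduce hG S m x (hF x hx) hm
        exact ⟨R, fun _ => hR⟩
      · exact ⟨[], fun h => absurd h hx⟩
    choose R hR using h1
    obtain ⟨e', h2, h3⟩ := KL_sep hG he (hdom S) (fun j hj => ih _ (Finset.erase_ssubset hj))
      (F.flatMap R) (by
        intro y hy
        obtain ⟨x, hx, hyx⟩ := List.mem_flatMap.1 hy
        exact (hR x hx).1 y hyx) n
    exact ⟨e', h2, fun x hx => (hR x hx).2 e e' fun y hy =>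
      h3 y (List.mem_flatMap.2 ⟨x, hx, hy⟩)⟩

end two

end AF80
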