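import Pool.Agent.BF80.ZG2
import Pool.Agent.BF80.Val

/-!
# The additive fragment over `F_p[[t]]`: definitions
-/

set_option autoImplicit false
set_option maxSynthPendingDepth 10

open Polynomial Filter

namespace AF80

open FT80 BF80

/-! ### Formulas -/

/-- terms: `0`, `1`, variables, sums, differences, `t a` and `a ^ p` -/
inductive AT
  | zero
  | one
  | var (k : ℕ)
  | add (a b : AT)
  | sub (a b : AT)
  | tm (a : AT)
  | fr (a : AT)

/-- the value of a term, `e k` is the value of `x_k` -/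
def AT.val {R : Type*} [CommRing R] (p : ℕ) (t : R) (e : ℕ → R) : AT → R
  | .zero => 0
  | .one => 1
  | .var k => e k
  | .add a b => a.val p t e + b.val p t e
  | .sub a b => a.val p t e - b.val p t e
  | .tm a => t * a.val p t e
  | .fr a => a.val p t e ^ p

/-- a term as a word in prefix notation -/
def AT.code : AT → List ℕ
  | .zero => [0]
  | .one => [1]
  | .tm a => 2 :: a.code
  | .add a b => 3 :: (a.code ++ b.code)
  | .sub a b => 4 :: (a.code ++ b.code)
  | .fr a => 5 :: a.code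
  | .var k => [9 + 8 * k]

/-- formulas: `dvd i j k l` says that `x_i * x_j` divides `x_k * x_l`, and `pow d i` says that
`x_i` is a `d`-th power -/
inductive AFm
  | eq (a b : AT)
  | dvd (i j k l : ℕ)
  | pow (d i : ℕ)
  | not (φ : AFm)
  | and (φ ψ : AFm)
  | or (φ ψ : AFm)
  | ex (i : ℕ) (φ : AFm)
  | all (i : ℕ) (φ : AFm)

/-- satisfaction of a formula in a ring -/
def AFm.Holds {R : Type*} [CommRing R] (p : ℕ) (t : R) : (ℕ → R) → AFm → Prop
  | e, .eq a b => a.val p t e = b.val p t e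
  | e, .dvd i j k l => e i * e j ∣ e k * e l
  | e, .pow d i => ∃ y : R, y ^ d = e i
  | e, .not φ => ¬ AFm.Holds p t e φ
  | e, .and φ ψ => AFm.Holds p t e φ ∧ AFm.Holds p t e ψ
  | e, .or φ ψ => AFm.Holds p t e φ ∨ AFm.Holds p t e ψ
  | e, .ex i φ => ∃ a : R, AFm.Holds p t (Function.update e i a) φ
  | e, .all i φ => ∀ a : R, AFm.Holds p t (Function.update e i a) φ

/-- a formula as a word in prefix notation -/
def AFm.code : AFm → List ℕ
  | .eq a b => 12 :: (a.code ++ b.code)
  | .dvd i j k l => [13 + 8 * Nat.pair (Nat.pair i j) (Nat.pair k l)]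
  | .pow d i => [14 + 8 * Nat.pair d i]
  | .not φ => 6 :: φ.code
  | .and φ ψ => 7 :: (φ.code ++ ψ.code)
  | .or φ ψ => 8 :: (φ.code ++ ψ.code)
  | .ex i φ => (10 + 8 * i) :: φ.code
  | .all i φ => (11 + 8 * i) :: φ.code

/-- the defining condition of the valuation ring -/
def VR {R : Type*} [CommRing R] (t x : R) : Prop := ∃ y : R, y ^ 2 + y = t * x ^ 2

/-- satisfaction with quantifiers over the definable valuation ring -/
def AFm.HoldsV {R : Type*} [CommRing R] (p : ℕ) (t : R) : (ℕ → R) → AFm → Prop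
  | e, .eq a b => a.val p t e = b.val p t e
  | e, .dvd i j k l => DV t (e i * e j) (e k * e l)
  | e, .pow d i => ∃ y : R, y ^ d = e i
  | e, .not φ => ¬ AFm.HoldsV p t e φ
  | e, .and φ ψ => AFm.HoldsV p t e φ ∧ AFm.HoldsV p t e ψ
  | e, .or φ ψ => AFm.HoldsV p t e φ ∨ AFm.HoldsV p t e ψ
  | e, .ex i φ => ∃ a : R, VR t a ∧ AFm.HoldsV p t (Function.update e i a) φ
  | e, .all i φ => ∀ a : R, VR t a → AFm.HoldsV p t (Function.update e i a) φ

/-! ### Models -/

/-- models in which `1, t, …, t ^ (p - 1)` span the field over the `p`-th powers -/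
structure MdlA (p : ℕ) {M : Type*} [Field M] (σ : P1 p →+* M) : Prop extends MdlV p σ where
  pb : ∀ x : M, ∃ y : ℕ → M, x = ∑ s ∈ Finset.range p, σ X ^ s * y s ^ p

/-! ### Twisted polynomials -/

/-- the field of rational functions -/
abbrev FF (p : ℕ) [Fact p.Prime] : Type := FractionRing (P1 p)

/-- the operator `x ↦ Σ c_i x ^ (p ^ i)` of the sequence of coefficients `L` -/
noncomputable def act {F B : Type*} [Field F] [CommRing B] (p : ℕ) (ι : F →+* B)
    (L : Polynomial F) (x : B) : B :=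
  L.sum fun i c => ι c * x ^ p ^ i

section mdl

variable {p : ℕ} [Fact p.Prime] {M : Type} [Field M] {σ : P1 p →+* M}

/-- rational functions as elements of a model -/
noncomputable def io (hM : Mdl p σ) : FF p →+* M := IsFractionRing.lift hM.σ_injective

/-- `x` and `y` are nonzero and have the same leading term -/
def RVeq (hM : Mdl p σ) (x y : M) : Prop := hM.fv (x - y) < hM.fv y

open Classical in
/-- the angular component: `x = γ t ^ j y ^ (p - 1)` has the angular component `γ` -/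
noncomputable def ac (hM : Mdl p σ) (x : M) : ZMod p :=
  if h : ∃ γ : ZMod p, γ ≠ 0 ∧ ∃ (j : ℕ) (y : M), y ≠ 0 ∧ x = σ (C γ) * σ X ^ j * y ^ (p - 1) then
    h.choose else 0

end mdl

/-! ### Correspondence of leading terms -/

section corr

variable {p : ℕ} [Fact p.Prime] {P Q : Type} [Field P] [Field Q] {σ : P1 p →+* P}
  {τ : P1 p →+* Q}

/-- `a` and `b` are both zero, or their values correspond and their angular components agree -/
def RVC (hP : Mdl p σ) (hQ : Mdl p τ) (Λ : Subgroup (hP.VGˣ × hQ.VGˣ)) (a : P) (b : Q) : Prop :=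
  (a = 0 ∧ b = 0) ∨ (VIn hP hQ Λ a b ∧ ac hP a = ac hQ b)

/-- countable partial isomorphisms -/
structure GA (hP : Mdl p σ) (hQ : Mdl p τ) (G : Set (P × Q)) (Λ : Subgroup (hP.VGˣ × hQ.VGˣ)) :
    Prop where
  cnt : G.Countable
  one : ((1 : P), (1 : Q)) ∈ G
  sub : ∀ a ∈ G, ∀ b ∈ G, a - b ∈ G
  smul : ∀ c : FF p, ∀ a ∈ G, (io hP c * a.1, io hQ c * a.2) ∈ G
  frob : ∀ a ∈ G, a ^ p ∈ G
  lam : ∀ a ∈ G, ∃ f : ℕ → P × Q, (∀ s, f s ∈ G) ∧
    a = ∑ s ∈ Finset.range p, (σ X, τ X) ^ s * f s ^ p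
  oc : ∀ a ∈ G, a.1 ∈ hP.OC
  rvc : ∀ a ∈ G, RVC hP hQ Λ a.1 a.2
  iso : PIso Λ
  tt : VIn hP hQ Λ (σ X) (τ X)

end corr

end AF80
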