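import Pool.Agent.AF80.Rv
import Pool.Agent.BF80.BackForthV

/-!
# The initial partial isomorphism
-/

set_option autoImplicit false
set_option maxSynthPendingDepth 10

open Polynomial Filter

namespace AF80

open FT80 BF80

variable {p : ℕ} [hp : Fact p.Prime] {P Q : Type} [Field P] [Field Q] {σ : P1 p →+* P}
  {τ : P1 p →+* Q}

theorem exists_GA (hP : MdlA p σ) (hQ : MdlA p τ) :
    ∃ (G : Set (P × Q)) (Λ : Subgroup (hP.toMdl.VGˣ × hQ.toMdl.VGˣ)),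
      GA hP.toMdl hQ.toMdl G Λ := by
  have hiso : PIso (Subgroup.zpowers
      (hP.toMdl.vu (σ X) hP.toMdl.t_ne, hQ.toMdl.vu (τ X) hQ.toMdl.t_ne)) :=
    piso_t hP.toMdlV.zg hQ.toMdlV.zg
  have htt : VIn hP.toMdl hQ.toMdl (Subgroup.zpowers
      (hP.toMdl.vu (σ X) hP.toMdl.t_ne, hQ.toMdl.vu (τ X) hQ.toMdl.t_ne)) (σ X) (τ X) :=
    ⟨hP.toMdl.t_ne, hQ.toMdl.t_ne, Subgroup.mem_zpowers _⟩
  refine ⟨Set.range fun c : FF p => (io hP.toMdl c, io hQ.toMdl c), _,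
    { cnt := Set.countable_range _
      one := ⟨1, Prod.ext (map_one _) (map_one _)⟩
      sub := ?_
      smul := ?_
      frob := ?_
      lam := ?_
      oc := ?_
      rvc := ?_
      iso := hiso
      tt := htt }⟩
  · rintro _ ⟨c, rfl⟩ _ ⟨d, rfl⟩
    exact ⟨c - d, Prod.ext (map_sub _ _ _) (map_sub _ _ _)⟩
  · rintro c _ ⟨d, rfl⟩
    exact ⟨c * d, Prod.ext (map_mul _ _ _) (map_mul _ _ _)⟩
  · rintro _ ⟨c, rfl⟩
    exact ⟨c ^ p, Prod.ext (map_pow _ _ _) (map_pow _ _ _)⟩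
  · rintro _ ⟨c, rfl⟩
    obtain ⟨g, hg⟩ := ff_basis c
    refine ⟨fun s => (io hP.toMdl (g s), io hQ.toMdl (g s)), fun s => ⟨g s, rfl⟩, ?_⟩
    apply Prod.ext
    · rw [Prod.fst_sum]
      show io hP.toMdl c = _
      conv_lhs => rw [hg]
      rw [map_sum]
      refine Finset.sum_congr rfl fun s _ => ?_
      rw [map_mul, map_pow, map_pow, io_tF]
      rfl
    · rw [Prod.snd_sum]
      show io hQ.toMdl c = _
      conv_lhs => rw [hg]
      rw [map_sum]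
      refine Finset.sum_congr rfl fun s _ => ?_
      rw [map_mul, map_pow, map_pow, io_tF]
      rfl
  · rintro _ ⟨c, rfl⟩
    exact io_mem_OC _ c
  · rintro _ ⟨c, rfl⟩
    exact RVC_io hiso htt c

theorem RVC.symm {hP : Mdl p σ} {hQ : Mdl p τ} {Λ : Subgroup (hP.VGˣ × hQ.VGˣ)} {a : P} {b : Q}
    (h : RVC hP hQ Λ a b) : RVC hQ hP (swapS Λ) b a := by
  rcases h with ⟨h1, h2⟩ | ⟨h1, h2⟩
  · exact Or.inl ⟨h2, h1⟩
  · exact Or.inr ⟨h1.symm, h2.symm⟩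

theorem GA.oc_snd {hP : Mdl p σ} {hQ : Mdl p τ} {G : Set (P × Q)}
    {Λ : Subgroup (hP.VGˣ × hQ.VGˣ)} (h : GA hP hQ G Λ) {a : Q × P} (ha : a ∈ Prod.swap ⁻¹' G) :
    a.1 ∈ hQ.OC := by
  have h1 : a.2 ∈ hP.OC := h.oc _ ha
  have h2 : RVC hP hQ Λ a.2 a.1 := h.rvc _ ha
  rcases h2 with ⟨-, h2⟩ | ⟨⟨ha0, hb0, h2⟩, -⟩
  · rw [h2]
    exact hQ.OC.zero_mem
  obtain ⟨n, hn⟩ := h1
  obtain ⟨ht, hs, h3⟩ := h.tt
  refine ⟨n, ?_⟩
  rw [← hQ.fv_le_one, map_mul, map_pow]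
  rw [← hP.fv_le_one, map_mul, map_pow] at hn
  have h4 := h.iso.le _ (Λ.mul_mem (Λ.pow_mem h3 n) h2)
  exact h4.1 hn

theorem GA.symm {hP : Mdl p σ} {hQ : Mdl p τ} {G : Set (P × Q)}
    {Λ : Subgroup (hP.VGˣ × hQ.VGˣ)} (h : GA hP hQ G Λ) :
    GA hQ hP (Prod.swap ⁻¹' G) (swapS Λ) where
  cnt := h.cnt.preimage_of_injOn Prod.swap_injective.injOn
  one := h.one
  sub := fun a ha b hb => h.sub _ ha _ hb
  smul := fun c a ha => h.smul c _ ha
  frob := fun a ha => h.frob _ ha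
  lam := by
    intro a ha
    obtain ⟨f, hf, hs⟩ := h.lam _ ha
    refine ⟨fun s => Prod.swap (f s), fun s => hf s, ?_⟩
    apply Prod.ext
    · have h1 := congrArg Prod.snd hs
      rw [Prod.snd_sum] at h1
      rw [Prod.fst_sum]
      exact h1
    · have h1 := congrArg Prod.fst hs
      rw [Prod.fst_sum] at h1
      rw [Prod.snd_sum]
      exact h1
  oc := fun a ha => GA.oc_snd h ha
  rvc := fun a ha => (h.rvc _ ha).symm
  iso := h.iso.symm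
  tt := h.tt.symm

end AF80
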