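import Pool.Agent.AF80.Defs
import Pool.Agent.BF80.UpV
import Pool.Agent.FT80.Theta

/-!
# The additive fragment: ultrapowers and the model `F_p((t))`
-/

set_option autoImplicit false
set_option maxSynthPendingDepth 10
set_option linter.unusedSectionVars false

open Polynomial Filter

namespace AF80

open FT80 BF80

namespace UpA

theorem val_map {R S : Type*} [CommRing R] [CommRing S] (p : ℕ) (φ : R →+* S) (t : R) (e : ℕ → R)
    (a : AT) : a.val p (φ t) (fun k => φ (e k)) = φ (a.val p t e) := by
  induction a with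
  | zero => exact (map_zero φ).symm
  | one => exact (map_one φ).symm
  | var k => rfl
  | add a b ha hb => simp only [AT.val, ha, hb, map_add]
  | sub a b ha hb => simp only [AT.val, ha, hb, map_sub]
  | tm a ha => simp only [AT.val, ha, map_mul]
  | fr a ha => simp only [AT.val, ha, map_pow]

section up

variable {M : Type} [Field M]

theorem aval_cl (p : ℕ) (t : M) (f : ℕ → ℕ → M) (a : AT) :
    a.val p (diag M t) (fun i => cl M (f i)) =
      cl M (fun l => a.val p t (fun i => f i l)) := by
  have h1 : diag M t = cl M (fun _ => t) := rfl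
  rw [h1, val_map]
  congr 1
  funext l
  exact (val_map p (Pi.evalRingHom (fun _ : ℕ => M) l) (fun _ => t) f a).symm

theorem VR_cl (t : M) (f : ℕ → M) : VR (diag M t) (cl M f) ↔
    ∀ᶠ l in ((hyperfilter ℕ : Ultrafilter ℕ) : Filter ℕ), VR t (f l) := VO_cl t f

theorem pow_cl (d : ℕ) (f : ℕ → M) : (∃ y : UP M, y ^ d = cl M f) ↔
    ∀ᶠ l in ((hyperfilter ℕ : Ultrafilter ℕ) : Filter ℕ), ∃ y : M, y ^ d = f l := by
  constructor
  · rintro ⟨y, hy⟩
    obtain ⟨g, rfl⟩ := cl_surj y
    rw [← map_pow, cl_eq] at hy
    exact hy.mono fun l hl => ⟨g l, hl⟩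
  · intro h
    obtain ⟨g, hg⟩ := h.choice
    refine ⟨cl M g, ?_⟩
    rw [← map_pow, cl_eq]
    exact hg

end up

end UpA

open UpA

theorem losA (p : ℕ) {M : Type} [Field M] (t : M) (f : ℕ → ℕ → M) (φ : AFm) :
    φ.HoldsV p (diag M t) (fun i => cl M (f i)) ↔
      ∀ᶠ l in ((hyperfilter ℕ : Ultrafilter ℕ) : Filter ℕ), φ.HoldsV p t (fun i => f i l) := by
  induction φ generalizing f with
  | eq a b =>
    simp only [AFm.HoldsV]
    rw [aval_cl, aval_cl, cl_eq]
  | dvd i j k l =>
    simp only [AFm.HoldsV]
    rw [← map_mul, ← map_mul, DV_cl]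
    rfl
  | pow d i =>
    simp only [AFm.HoldsV]
    exact pow_cl d (f i)
  | not φ h =>
    simp only [AFm.HoldsV]
    rw [h]
    exact Ultrafilter.eventually_not.symm
  | and φ ψ h1 h2 =>
    simp only [AFm.HoldsV]
    rw [h1, h2, eventually_and]
  | or φ ψ h1 h2 =>
    simp only [AFm.HoldsV]
    rw [h1, h2]
    exact Ultrafilter.eventually_or.symm
  | ex i φ h =>
    simp only [AFm.HoldsV]
    have key : ∀ g : ℕ → M, (Function.update (fun i => cl M (f i)) i (cl M g))
        = fun k => cl M (Function.update f i g k) := by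
      intro g
      funext k
      by_cases hk : k = i
      · subst hk
        simp
      · simp [Function.update_of_ne hk]
    have key2 : ∀ (g : ℕ → M) (l : ℕ), (fun k => Function.update f i g k l)
        = Function.update (fun k => f k l) i (g l) := by
      intro g l
      funext k
      by_cases hk : k = i
      · subst hk
        simp
      · simp [Function.update_of_ne hk]
    constructor
    · rintro ⟨a, hv, ha⟩
      obtain ⟨g, rfl⟩ := cl_surj a
      rw [key, h] at ha
      rw [VR_cl] at hv
      refine (hv.and ha).mono fun l hl => ⟨g l, hl.1, ?_⟩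
      have hl2 := hl.2
      rw [key2] at hl2
      exact hl2
    · intro hex
      obtain ⟨g, hg⟩ := hex.choice
      refine ⟨cl M g, ?_, ?_⟩
      · rw [VR_cl]
        exact hg.mono fun l hl => hl.1
      · rw [key, h]
        refine hg.mono fun l hl => ?_
        rw [key2]
        exact hl.2
  | all i φ h =>
    simp only [AFm.HoldsV]
    have key : ∀ g : ℕ → M, (Function.update (fun i => cl M (f i)) i (cl M g))
        = fun k => cl M (Function.update f i g k) := by
      intro g
      funext k
      by_cases hk : k = i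
      · subst hk
        simp
      · simp [Function.update_of_ne hk]
    have key2 : ∀ (g : ℕ → M) (l : ℕ), (fun k => Function.update f i g k l)
        = Function.update (fun k => f k l) i (g l) := by
      intro g l
      funext k
      by_cases hk : k = i
      · subst hk
        simp
      · simp [Function.update_of_ne hk]
    constructor
    · intro hall
      by_contra hc
      rw [← Ultrafilter.eventually_not] at hc
      have hc' : ∀ᶠ l in ((hyperfilter ℕ : Ultrafilter ℕ) : Filter ℕ),
          ∃ a, VR t a ∧ ¬ φ.HoldsV p t (Function.update (fun k => f k l) i a) := by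
        refine hc.mono fun l hl => ?_
        push Not at hl
        exact hl
      obtain ⟨g, hg⟩ := hc'.choice
      have := hall (cl M g) ((VR_cl t g).2 (hg.mono fun l hl => hl.1))
      rw [key, h] at this
      obtain ⟨l, hl1, hl2⟩ := (this.and hg).exists
      rw [key2] at hl1
      exact hl2.2 hl1
    · intro hall a hv
      obtain ⟨g, rfl⟩ := cl_surj a
      rw [key, h]
      rw [VR_cl] at hv
      refine (hv.and hall).mono fun l hl => ?_
      rw [key2]
      exact hl.2 (g l) hl.1

variable {p : ℕ} [hp : Fact p.Prime] {M : Type} [Field M] {σ : P1 p →+* M}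


theorem mdlA_up (hM : MdlA p σ) : MdlA p ((diag M).comp σ) := by
  refine ⟨mdlV_up hM.toMdlV, ?_⟩
  intro x
  obtain ⟨f, rfl⟩ := cl_surj x
  have h1 : ∀ l, ∃ y : ℕ → M, f l = ∑ s ∈ Finset.range p, σ X ^ s * y s ^ p := fun l => hM.pb (f l)
  choose y hy using h1
  refine ⟨fun s => cl M (fun l => y l s), ?_⟩
  have htt : ((diag M).comp σ) X = cl M (fun _ => σ X) := rfl
  rw [htt]
  have h2 : f = ∑ s ∈ Finset.range p, (fun _ => σ X) ^ s * (fun l => y l s) ^ p := by
    funext l
    rw [Finset.sum_apply]
    exact hy l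
  conv_lhs => rw [h2]
  rw [map_sum]
  refine Finset.sum_congr rfl fun s _ => ?_
  rw [map_mul, map_pow, map_pow]

theorem ps_sections (a : OO p) : a = ∑ s ∈ Finset.range p, PowerSeries.X ^ s *
    (PowerSeries.mk fun m => PowerSeries.coeff (s + p * m) a) ^ p := by
  ext n
  have hn : n = n % p + p * (n / p) := (Nat.mod_add_div n p).symm
  have hlt : n % p < p := Nat.mod_lt _ hp.out.pos
  rw [map_sum]
  conv_rhs => rw [hn]
  rw [Finset.sum_congr rfl (fun s hs =>
    coeff_X_pow_mul_pow _ (Finset.mem_range.1 hs) hlt (n / p))]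
  rw [Finset.sum_ite_eq', if_pos (Finset.mem_range.2 hlt), PowerSeries.coeff_mk, ← hn]

theorem mdlA_KK : MdlA p (tauK p) := by
  refine ⟨mdlV_KK, ?_⟩
  intro x
  obtain ⟨n, a, ha⟩ := exists_clear x
  have hp0 : 1 ≤ p := hp.out.one_le
  have h1 : TT p (p * n) * x = TT p (p * n - n) * iK p a := by
    rw [ha, ← mul_assoc, ← TT_add]
    congr 2
    ring
  have h2 : InO (TT p (p * n) * x) := by
    rw [h1]
    refine (InO.TT ?_).mul (InO.iK a)
    have : (n : ℤ) * 1 ≤ n * p := mul_le_mul_of_nonneg_left (by exact_mod_cast hp0) (by positivity)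
    linarith
  obtain ⟨b, hb⟩ := h2
  have hpow : ∀ (m : ℤ) (k : ℕ), TT p m ^ k = TT p (m * k) := by
    intro m k
    induction k with
    | zero => simp [TT_zero]
    | succ k ih =>
      rw [pow_succ, ih, ← TT_add]
      congr 1
      push_cast
      ring
  have h3 : x = TT p (-n) ^ p * iK p b := by
    rw [hb, hpow, ← mul_assoc, ← TT_add]
    have : (-(n : ℤ) * p + p * n) = 0 := by ring
    rw [this, TT_zero, one_mul]
  refine ⟨fun s => TT p (-n) * iK p (PowerSeries.mk fun m => PowerSeries.coeff (s + p * m) b), ?_⟩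
  have hX : tauK p X = iK p PowerSeries.X := by
    rw [tauK_X]
    have h2 := TT_nat (p := p) 1
    rw [pow_one] at h2
    push_cast at h2
    exact h2
  rw [h3]
  conv_lhs => rw [ps_sections b, map_sum, Finset.mul_sum]
  refine Finset.sum_congr rfl fun s _ => ?_
  rw [map_mul, map_pow, map_pow, hX, mul_pow]
  ring

end AF80
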