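import Pool.Agent.AF80.Atoms
import Pool.Agent.AF80.Init
import Pool.Agent.AF80.Up

/-!
# The equivalence of all models, for the additive fragment
-/

set_option autoImplicit false
set_option maxSynthPendingDepth 10

open Polynomial Filter

namespace AF80

open FT80 BF80

variable {p : ℕ} [hp : Fact p.Prime] {P Q : Type} [Field P] [Field Q] {σ : P1 p →+* P}
  {τ : P1 p →+* Q}

/-- the extension property -/
def ForthA (hP : Mdl p σ) (hQ : Mdl p τ) : Prop :=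
  ∀ (G : Set (P × Q)) (Λ : Subgroup (hP.VGˣ × hQ.VGˣ)), GA hP hQ G Λ → ∀ x : P, VO (σ X) x →
    ∃ (G' : Set (P × Q)) (Λ' : Subgroup (hP.VGˣ × hQ.VGˣ)), G ⊆ G' ∧ GA hP hQ G' Λ' ∧
      ∃ y, (x, y) ∈ G'

theorem ForthA.swap {hP : Mdl p σ} {hQ : Mdl p τ} (h2 : ForthA hQ hP) (G : Set (P × Q))
    (Λ : Subgroup (hP.VGˣ × hQ.VGˣ)) (hG : GA hP hQ G Λ) (y : Q) (hy : VO (τ X) y) :
    ∃ (G' : Set (P × Q)) (Λ' : Subgroup (hP.VGˣ × hQ.VGˣ)), G ⊆ G' ∧ GA hP hQ G' Λ' ∧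
      ∃ x, (x, y) ∈ G' := by
  obtain ⟨G', Λ', h3, h4, x, h5⟩ := h2 _ _ hG.symm y hy
  refine ⟨Prod.swap ⁻¹' G', swapS Λ', ?_, h4.symm, x, h5⟩
  intro a ha
  exact h3 (show Prod.swap (Prod.swap a) ∈ G from ha)

theorem holdsA_iff (hP : Mdl p σ) (hQ : Mdl p τ) (h1 : ForthA hP hQ) (h2 : ForthA hQ hP)
    (φ : AFm) : ∀ (G : Set (P × Q)) (Λ : Subgroup (hP.VGˣ × hQ.VGˣ)), GA hP hQ G Λ →
      ∀ (e : ℕ → P) (e' : ℕ → Q), (∀ i, (e i, e' i) ∈ G) →
      (φ.HoldsV p (σ X) e ↔ φ.HoldsV p (τ X) e') := by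
  have hupd : ∀ (G G' : Set (P × Q)) (e : ℕ → P) (e' : ℕ → Q), G ⊆ G' →
      (∀ i, (e i, e' i) ∈ G) → ∀ (i : ℕ) (x : P) (y : Q), (x, y) ∈ G' →
      ∀ k, (Function.update e i x k, Function.update e' i y k) ∈ G' := by
    intro G G' e e' hGG he i x y hxy k
    by_cases hk : k = i
    · subst hk
      simpa using hxy
    · rw [Function.update_of_ne hk, Function.update_of_ne hk]
      exact hGG (he k)
  induction φ with
  | eq a b =>
    intro G Λ hG e e' he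
    exact hG.eq_iff (hG.term he a) (hG.term he b)
  | dvd i j k l =>
    intro G Λ hG e e' he
    exact hG.dvd_iff (he i) (he j) (he k) (he l)
  | pow d i =>
    intro G Λ hG e e' he
    exact hG.pow_iff (he i) d
  | not φ h =>
    intro G Λ hG e e' he
    simp only [AFm.HoldsV]
    rw [h G Λ hG e e' he]
  | and φ ψ h1 h2 =>
    intro G Λ hG e e' he
    simp only [AFm.HoldsV]
    rw [h1 G Λ hG e e' he, h2 G Λ hG e e' he]
  | or φ ψ h1 h2 =>
    intro G Λ hG e e' he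
    simp only [AFm.HoldsV]
    rw [h1 G Λ hG e e' he, h2 G Λ hG e e' he]
  | ex i φ h =>
    intro G Λ hG e e' he
    simp only [AFm.HoldsV]
    constructor
    · rintro ⟨x, hxV, hx⟩
      obtain ⟨G', Λ', h3, h4, y, h5⟩ := h1 G Λ hG x hxV
      exact ⟨y, (h4.vo_iff h5).1 hxV, (h G' Λ' h4 _ _ (hupd G G' e e' h3 he i x y h5)).1 hx⟩
    · rintro ⟨y, hyV, hy⟩
      obtain ⟨G', Λ', h3, h4, x, h5⟩ := h2.swap G Λ hG y hyV
      exact ⟨x, (h4.vo_iff h5).2 hyV, (h G' Λ' h4 _ _ (hupd G G' e e' h3 he i x y h5)).2 hy⟩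
  | all i φ h =>
    intro G Λ hG e e' he
    simp only [AFm.HoldsV]
    constructor
    · intro hx y hyV
      obtain ⟨G', Λ', h3, h4, x, h5⟩ := h2.swap G Λ hG y hyV
      exact (h G' Λ' h4 _ _ (hupd G G' e e' h3 he i x y h5)).1 (hx x ((h4.vo_iff h5).2 hyV))
    · intro hy x hxV
      obtain ⟨G', Λ', h3, h4, y, h5⟩ := h1 G Λ hG x hxV
      exact (h G' Λ' h4 _ _ (hupd G G' e e' h3 he i x y h5)).2 (hy y ((h4.vo_iff h5).1 hxV))

theorem equivA_of (hP : MdlA p σ) (hQ : MdlA p τ) (h1 : ForthA hP.toMdl hQ.toMdl)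
    (h2 : ForthA hQ.toMdl hP.toMdl) (φ : AFm) :
    φ.HoldsV p (σ X) (fun _ => (0 : P)) ↔ φ.HoldsV p (τ X) (fun _ => (0 : Q)) := by
  obtain ⟨G, Λ, hG⟩ := exists_GA hP hQ
  exact holdsA_iff hP.toMdl hQ.toMdl h1 h2 φ G Λ hG _ _ (fun _ => hG.zero_mem)

theorem af_equiv_of
    (hf : ∀ (M N : Type) [Field M] [Field N] (σ : P1 p →+* M) (τ : P1 p →+* N)
      (hM : MdlA p σ) (hN : MdlA p τ), ForthA hM.toMdl (mdl_up hN.toMdl))
    {M N : Type} [Field M] [Field N] {σ : P1 p →+* M} {τ : P1 p →+* N}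
    (hM : MdlA p σ) (hN : MdlA p τ) (φ : AFm) :
    φ.HoldsV p (σ X) (fun _ => (0 : M)) ↔ φ.HoldsV p (τ X) (fun _ => (0 : N)) := by
  have key : ∀ (M : Type) [Field M] (σ : P1 p →+* M),
      φ.HoldsV p (σ X) (fun _ => (0 : M)) ↔
        φ.HoldsV p (((diag M).comp σ) X) (fun _ => (0 : UP M)) := by
    intro M _ σ
    have := losA p (σ X) (fun _ _ => (0 : M)) φ
    rw [eventually_const] at this
    have e : (fun _ : ℕ => cl M (fun _ => (0 : M))) = fun _ => 0 := by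
      funext i
      exact map_zero (cl M)
    rw [e] at this
    exact this.symm
  rw [key M σ, key N τ]
  exact equivA_of (mdlA_up hM) (mdlA_up hN) (hf _ _ _ _ (mdlA_up hM) hN)
    (hf _ _ _ _ (mdlA_up hN) hM) φ

end AF80
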