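import Pool.Agent.AF80.Final0
import Pool.Agent.AF80.Compile

/-!
# The additive fragment is decidable, from the equivalence of the models
-/

set_option autoImplicit false
set_option maxSynthPendingDepth 10

open Polynomial

namespace AF80

open FT80 BF80

theorem afm_main_of (p : ℕ) [Fact p.Prime]
    (hbf : ∀ (M : Type) [Field M] (σ : P1 p →+* M), MdlA p σ → ∀ φ : AFm,
      (φ.HoldsV p (σ X) (fun _ => (0 : M)) ↔
        φ.HoldsV p (tauK p X) (fun _ => (0 : KK p)))) :
    ∃ D : List ℕ → Bool, Computable D ∧ ∀ φ : AFm, (D φ.code = true ↔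
      φ.Holds p (PowerSeries.X : PowerSeries (ZMod p)) (fun _ => 0)) :=
  afm_main_of' p (exists_compileA p) hbf

end AF80
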