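import Pool.Agent.AF80.Up
import Pool.Agent.AF80.Axioms
import Pool.Agent.BF80.FinalV

/-!
# The additive fragment is decidable: assembly
-/

set_option autoImplicit false
set_option maxSynthPendingDepth 10

open Polynomial

namespace AF80

open FT80 BF80

namespace FinA

/-- decision over the field -/
theorem decide_ofA (p : ℕ) [Fact p.Prime]
    (hcomp : ∃ (c : AFm → FR) (f : List ℕ → ℕ), Primrec f ∧
      (∀ φ, f φ.code = (c φ).code) ∧ (∀ w, ∃ φ, f w = (c φ).code) ∧
      ∀ (R : Type) [CommRing R] (t : R) (φ : AFm),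
        (Sat (ringRS t) (fun _ => 0) (c φ) ↔ φ.HoldsV p t (fun _ => 0)))
    {k : Type} [Field k] (σ₀ : P1 p →+* k) (h0 : MdlA p σ₀)
    (hbf : ∀ (M : Type) [Field M] (σ : P1 p →+* M), MdlA p σ → ∀ φ : AFm,
      (φ.HoldsV p (σ X) (fun _ => (0 : M)) ↔
        φ.HoldsV p (σ₀ X) (fun _ => (0 : k)))) :
    ∃ D : List ℕ → Bool, Computable D ∧
      ∀ φ : AFm, (D φ.code = true ↔ φ.HoldsV p (σ₀ X) (fun _ => 0)) := by
  obtain ⟨c, f, hf, hfc, hfw, hc⟩ := hcomp
  obtain ⟨AL, hAL, hsound, hcomplete⟩ := exists_axiomsA p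
  obtain ⟨P, hP, hPe⟩ := re_conseq AL hAL
  have hg : Primrec (fun w => Asm.kClose (f w) (f w + 1)) :=
    Asm.primrec_kClose.comp hf (Primrec.succ.comp hf)
  have hg2 : Primrec (fun w => Nat.pair 6 (Asm.kClose (f w) (f w + 1))) :=
    Ax.p_pair (Primrec.const 6) hg
  have hmod : ∀ φ : AFm, ∀ (α : Type) (R : RS α), (∀ n e, Sat R e (AL n)) → ∀ a : α,
      (Sat R (fun _ => a) (Asm.close (c φ) ((c φ).code + 1)) ↔
        φ.HoldsV p (σ₀ X) (fun _ => 0)) := by
    intro φ α R hR a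
    obtain ⟨F, σ, rfl, hσ⟩ := @hcomplete α ⟨a⟩ R hR
    rw [Asm.sat_close_code, hc α (σ X)]
    exact hbf α σ hσ φ
  have h1 : ∀ w φ, f w = (c φ).code →
      (P (Asm.kClose (f w) (f w + 1)) ↔ φ.HoldsV p (σ₀ X) (fun _ => 0)) := by
    intro w φ hw
    rw [hw, ← Asm.code_close, hPe]
    constructor
    · intro h
      exact (hmod φ k (ringRS (σ₀ X)) (hsound k σ₀ h0) 0).1 (h k _ (hsound k σ₀ h0) 0)
    · intro h α R hR a
      exact (hmod φ α R hR a).2 h
  have h2 : ∀ w φ, f w = (c φ).code →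
      (P (Nat.pair 6 (Asm.kClose (f w) (f w + 1))) ↔
        ¬ φ.HoldsV p (σ₀ X) (fun _ => 0)) := by
    intro w φ hw
    rw [hw, ← Asm.code_close]
    refine (hPe (.neg (Asm.close (c φ) ((c φ).code + 1)))).trans ?_
    constructor
    · intro h h'
      exact h k _ (hsound k σ₀ h0) 0 ((hmod φ k (ringRS (σ₀ X)) (hsound k σ₀ h0) 0).2 h')
    · intro h α R hR a h'
      exact h ((hmod φ α R hR a).1 h')
  have h3 : ComputablePred (fun w : List ℕ => P (Asm.kClose (f w) (f w + 1))) := by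
    rw [ComputablePred.computable_iff_re_compl_re']
    have h4 : REPred (fun w => P (Nat.pair 6 (Asm.kClose (f w) (f w + 1)))) :=
      hP.comp hg2.to_comp
    refine ⟨hP.comp hg.to_comp, h4.of_eq fun w => ?_⟩
    obtain ⟨φ, hφ⟩ := hfw w
    rw [h1 w φ hφ]
    exact h2 w φ hφ
  obtain ⟨D, hD, hDe⟩ := ComputablePred.computable_iff.1 h3
  refine ⟨D, hD, fun φ => ?_⟩
  have h4 := congrFun hDe φ.code
  rw [← iff_eq_eq] at h4
  rw [← h4]
  exact h1 φ.code φ (hfc φ)

/-- quantifiers over the definable valuation ring are quantifiers over the ring -/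
theorem holdsV_iff {R K : Type*} [CommRing R] [Field K] (p : ℕ) (f : R →+* K)
    (hf : Function.Injective f) (t : R) (hV : ∀ x : K, VR (f t) x ↔ ∃ r, f r = x)
    (hinv : ∀ x : K, VR (f t) x ∨ VR (f t) x⁻¹) (φ : AFm) :
    ∀ e : ℕ → R, φ.HoldsV p (f t) (fun i => f (e i)) ↔ φ.Holds p t e := by
  have hu : ∀ (e : ℕ → R) (i : ℕ) (r : R), Function.update (fun i => f (e i)) i (f r) =
      fun j => f (Function.update e i r j) := by
    intro e i r
    funext j
    by_cases h : j = i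
    · subst h
      simp
    · simp [h]
  have hD : ∀ a b : R, DV (f t) (f a) (f b) ↔ a ∣ b := by
    intro a b
    constructor
    · rintro ⟨c, hc, hcb⟩
      obtain ⟨r, rfl⟩ := (hV c).1 hc
      refine ⟨r, hf ?_⟩
      rw [← hcb, map_mul, mul_comm]
    · rintro ⟨r, rfl⟩
      exact ⟨f r, (hV _).2 ⟨r, rfl⟩, by rw [map_mul, mul_comm]⟩
  have hpow : ∀ (d : ℕ) (r : R), (∃ y : K, y ^ d = f r) ↔ ∃ y : R, y ^ d = r := by
    intro d r
    constructor
    · rintro ⟨y, hy⟩
      rcases Nat.eq_zero_or_pos d with rfl | hd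
      · refine ⟨1, hf ?_⟩
        rw [← hy, pow_zero, pow_zero, map_one]
      · have h1 : ∃ s, f s = y := by
          rcases hinv y with h | h
          · exact (hV y).1 h
          · obtain ⟨s, hs⟩ := (hV _).1 h
            rcases eq_or_ne y 0 with rfl | hy0
            · exact ⟨0, map_zero f⟩
            · refine ⟨r * s ^ (d - 1), ?_⟩
              rw [map_mul, map_pow, hs, ← hy, inv_pow]
              obtain ⟨d, rfl⟩ : ∃ d', d = d' + 1 := ⟨d - 1, by omega⟩
              rw [Nat.add_sub_cancel, pow_succ', mul_assoc,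
                mul_inv_cancel₀ (pow_ne_zero _ hy0), mul_one]
        obtain ⟨s, rfl⟩ := h1
        exact ⟨s, hf (by rw [map_pow, hy])⟩
    · rintro ⟨y, rfl⟩
      exact ⟨f y, (map_pow f y d).symm⟩
  induction φ with
  | eq a b =>
    intro e
    simp only [AFm.HoldsV, AFm.Holds]
    rw [UpA.val_map, UpA.val_map]
    exact hf.eq_iff
  | dvd i j k l =>
    intro e
    simp only [AFm.HoldsV, AFm.Holds]
    rw [← map_mul, ← map_mul, hD]
  | pow d i =>
    intro e
    simp only [AFm.HoldsV, AFm.Holds]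
    exact hpow d (e i)
  | not φ ih =>
    intro e
    exact not_congr (ih e)
  | and φ ψ ih ih' =>
    intro e
    exact and_congr (ih e) (ih' e)
  | or φ ψ ih ih' =>
    intro e
    exact or_congr (ih e) (ih' e)
  | ex i φ ih =>
    intro e
    simp only [AFm.HoldsV, AFm.Holds, hV]
    constructor
    · rintro ⟨a, ⟨r, rfl⟩, h⟩
      rw [hu] at h
      exact ⟨r, (ih _).1 h⟩
    · rintro ⟨r, h⟩
      refine ⟨f r, ⟨r, rfl⟩, ?_⟩
      rw [hu]
      exact (ih _).2 h
  | all i φ ih =>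
    intro e
    simp only [AFm.HoldsV, AFm.Holds, hV]
    constructor
    · intro h r
      have h1 := h (f r) ⟨r, rfl⟩
      rw [hu] at h1
      exact (ih _).1 h1
    · rintro h a ⟨r, rfl⟩
      rw [hu]
      exact (ih _).2 (h r)

end FinA

open FinA in
/-- decidability of the additive fragment, from the ingredients -/
theorem afm_main_of' (p : ℕ) [Fact p.Prime]
    (hcomp : ∃ (c : AFm → FR) (f : List ℕ → ℕ), Primrec f ∧
      (∀ φ, f φ.code = (c φ).code) ∧ (∀ w, ∃ φ, f w = (c φ).code) ∧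
      ∀ (R : Type) [CommRing R] (t : R) (φ : AFm),
        (Sat (ringRS t) (fun _ => 0) (c φ) ↔ φ.HoldsV p t (fun _ => 0)))
    (hbf : ∀ (M : Type) [Field M] (σ : P1 p →+* M), MdlA p σ → ∀ φ : AFm,
      (φ.HoldsV p (σ X) (fun _ => (0 : M)) ↔
        φ.HoldsV p (tauK p X) (fun _ => (0 : KK p)))) :
    ∃ D : List ℕ → Bool, Computable D ∧ ∀ φ : AFm, (D φ.code = true ↔
      φ.Holds p (PowerSeries.X : PowerSeries (ZMod p)) (fun _ => 0)) := by
  obtain ⟨D, hD, h⟩ := decide_ofA p hcomp (tauK p) mdlA_KK hbf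
  refine ⟨D, hD, fun φ => (h φ).trans ?_⟩
  have h2 : tauK p X = iK p PowerSeries.X := by
    rw [tauK, RingHom.comp_apply, tau_X]
  have h1 := holdsV_iff p (iK p) FT80.iK_injective PowerSeries.X (fun x => by
    rw [← h2]
    exact VO_KK x) (fun x => by
    rw [← h2]
    exact (mdlA_KK (p := p)).inv x) φ (fun _ => 0)
  rw [h2]
  simp only [map_zero] at h1
  exact h1

end AF80
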