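import Pool.Agent.AF80.Forth0

/-!
# The extension property
-/

set_option autoImplicit false
set_option maxSynthPendingDepth 10

open Polynomial Filter

namespace AF80

open FT80 BF80

section mono

variable {p : ℕ} [hp : Fact p.Prime] {P Q : Type} [Field P] [Field Q] {σ : P1 p →+* P}
  {τ : P1 p →+* Q} {hP : Mdl p σ} {hQ : Mdl p τ} {Λ Λ' : Subgroup (hP.VGˣ × hQ.VGˣ)}
  {G : Set (P × Q)}

theorem RVC.mono (hΛ : Λ ≤ Λ') {a : P} {b : Q} (h : RVC hP hQ Λ a b) : RVC hP hQ Λ' a b := by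
  rcases h with h | ⟨h1, h2⟩
  · exact Or.inl h
  · exact Or.inr ⟨h1.mono hΛ, h2⟩

theorem GA.mono (h : GA hP hQ G Λ) (hΛ : Λ ≤ Λ') (hiso : PIso Λ') : GA hP hQ G Λ' :=
  ⟨h.cnt, h.one, h.sub, h.smul, h.frob, h.lam, h.oc, fun a ha => (h.rvc a ha).mono hΛ, hiso,
    h.tt.mono hΛ⟩

end mono

/-- closed sets contain the values of forms -/
theorem closed_fval {p : ℕ} [hp : Fact p.Prime] {P : Type} [Field P] {σ : P1 p →+* P}
    (hP : Mdl p σ) {T : Set P} (h0 : (0 : P) ∈ T)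
    (h1 : ∀ c : FF p, ∀ a ∈ T, ∀ b ∈ T, a - io hP c * b ∈ T) (h2 : ∀ a ∈ T, a ^ p ∈ T)
    (S : Finset ℕ) (L : ℕ → (FF p)[X]) {e : ℕ → P} (he : ∀ k, e k ∈ T) {a : P} (ha : a ∈ T) :
    fval hP S L e a ∈ T := by
  have hsm : ∀ c : FF p, ∀ b ∈ T, io hP c * b ∈ T := by
    intro c b hb
    have := h1 (-c) 0 h0 b hb
    rwa [map_neg, neg_mul, sub_neg_eq_add, zero_add] at this
  have hadd : ∀ a ∈ T, ∀ b ∈ T, a + b ∈ T := by
    intro a ha b hb
    have := h1 (-1) a ha b hb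
    rwa [map_neg, map_one, neg_mul, one_mul, sub_neg_eq_add] at this
  have hfr : ∀ (i : ℕ), ∀ a ∈ T, a ^ p ^ i ∈ T := by
    intro i
    induction i with
    | zero =>
      intro a ha
      rwa [pow_zero, pow_one]
    | succ i ih =>
      intro a ha
      rw [pow_succ, pow_mul]
      exact h2 _ (ih a ha)
  have hact : ∀ (L : (FF p)[X]), ∀ b ∈ T, act p (io hP) L b ∈ T := by
    intro L b hb
    induction L using Polynomial.induction_on' with
    | add L K hL hK =>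
      rw [act_add_left]
      exact hadd _ hL _ hK
    | monomial i c =>
      rw [act_monomial]
      exact hsm c _ (hfr i b hb)
  unfold fval
  refine hadd _ ?_ _ ha
  classical
  induction S using Finset.induction_on with
  | empty => simpa using h0
  | insert k S hk ih =>
    rw [Finset.sum_insert hk]
    exact hadd _ (hact _ _ (he k)) _ ih

/-- the extension property of ultrapowers -/
theorem forthA (M N : Type) [Field M] [Field N] {p : ℕ} [hp : Fact p.Prime] (σ : P1 p →+* M)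
    (τ : P1 p →+* N) (hM : MdlA p σ) (hN : MdlA p τ) : ForthA hM.toMdl (mdl_up hN.toMdl) := by
  intro G Λ hG x hx
  have cM := charP_of hM.toMdl
  -- the closed set
  obtain ⟨T, hAT, hTc, hTO, hT1, hT2, hT3⟩ := exists_closed hM (Prod.fst '' G ∪ {x})
    ((hG.cnt.image _).union (Set.countable_singleton x)) (by
      rintro a (⟨g, hg, rfl⟩ | ha)
      · exact hG.oc g hg
      · rw [Set.mem_singleton_iff] at ha
        rw [ha]
        exact hM.toMdl.OC_of_VO hx)
  have hGT : ∀ g ∈ G, g.1 ∈ T := fun g hg => hAT (Or.inl ⟨g, hg, rfl⟩)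
  have hxT : x ∈ T := hAT (Or.inr rfl)
  have h0T : (0 : M) ∈ T := hGT _ hG.zero
  obtain ⟨a, ha⟩ := hTc.exists_eq_range ⟨0, h0T⟩
  have haT : ∀ k, a k ∈ T := fun k => by
    rw [ha]
    exact ⟨k, rfl⟩
  have hTa : ∀ b ∈ T, ∃ k, a k = b := fun b hb => by
    rw [ha] at hb
    exact hb
  -- the values
  have hC : {γ : hM.toMdl.VGˣ | ∃ (k : ℕ) (h : a k ≠ 0), hM.toMdl.vu (a k) h = γ}.Countable := by
    have h1 : {γ : hM.toMdl.VGˣ | ∃ (k : ℕ) (h : a k ≠ 0), hM.toMdl.vu (a k) h = γ} =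
        Set.range (fun k : {k : ℕ // a k ≠ 0} => hM.toMdl.vu (a k) k.2) := by
      ext γ
      constructor
      · rintro ⟨k, h, rfl⟩
        exact ⟨⟨k, h⟩, rfl⟩
      · rintro ⟨⟨k, h⟩, rfl⟩
        exact ⟨k, h, rfl⟩
    rw [h1]
    exact Set.countable_range _
  obtain ⟨Λ', hle, hiso, hdom⟩ := piso_extend hM.toMdlV hN.toMdlV Λ hG.iso hG.tt _ hC
  have hG' : GA hM.toMdl (mdl_up hN.toMdl) G Λ' := hG.mono hle hiso
  have hdomT : ∀ b ∈ T, ∀ h : b ≠ 0, ∃ δ, (hM.toMdl.vu b h, δ) ∈ Λ' := by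
    intro b hb h
    obtain ⟨k, rfl⟩ := hTa b hb
    exact hdom _ ⟨k, h, rfl⟩
  have hKL : ∀ S : Finset ℕ, KL hM.toMdl (mdl_up hN.toMdl) Λ' G a S := by
    intro S
    refine KL_all hG' (fun k => hTO _ (haT k)) ?_ S
    intro S L c hc h
    exact hdomT _ (closed_fval hM.toMdl h0T hT1 hT2 S L haT (hGT c hc)) h
  -- leading terms
  have hr : ∀ k, ∃ r : UP N, RVC hM.toMdl (mdl_up hN.toMdl) Λ' (a k) r := fun k =>
    RVC.exists (hdomT _ (haT k))
  choose r hr using hr
  have hr' : ∀ k, ∃ ρ : ℕ → N, cl N ρ = r k := fun k => cl_surj _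
  choose ρ hρ using hr'
  have hg' : ∀ g : G, ∃ γ : ℕ → N, cl N γ = (g : M × UP N).2 := fun g => cl_surj _
  choose γ hγ using hg'
  have hGc : Countable G := hG.cnt.to_subtype
  have hJc : Countable (Jc p G) := countable_Jc G
  haveI : Nonempty (Jc p G) := ⟨Jc.rv 0⟩
  obtain ⟨en, hen⟩ := exists_surjective_nat (Jc p G)
  have hrr : (fun k => cl N (ρ k)) = r := funext hρ
  have hgg : (fun g : G => cl N (γ g)) = fun g : G => (g : M × UP N).2 := funext hγ
  -- saturation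
  obtain ⟨d, hd⟩ := exists_diag (D := ℕ → N)
    (fun i l y => Cd hM.toMdl hN.toMdl (fun g : G => (g : M × UP N).1) (fun g => γ g l) a
      (fun k => ρ k l) y (en i)) (by
      intro m
      have h1 : ∀ i : ℕ, ∃ (f : Fo p M (UP N)) (b : ℕ), f.c ∈ G ∧
          ∀ S : Finset ℕ, (∀ i < b, i ∈ S) → ∀ y : ℕ → UP N,
            RVC hM.toMdl (mdl_up hN.toMdl) Λ' (f.vP hM.toMdl S a) (f.vQ (mdl_up hN.toMdl) S y) →
            Cd hM.toMdl (mdl_up hN.toMdl) (fun g : G => (g : M × UP N).1)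
              (fun g : G => (g : M × UP N).2) a r y (en i) := fun i =>
        cond_form hG' a r hr (en i)
      choose f b hf hfb using h1
      obtain ⟨B, hB⟩ := list_bound (List.range m) (fun i n => b i ≤ n)
        (fun i m n hmn h => h.trans hmn) (fun i _ => ⟨b i, le_rfl⟩)
      obtain ⟨y, _, hy⟩ := hKL (Finset.range B) ((List.range m).map f) (by
        intro z hz
        obtain ⟨i, _, rfl⟩ := List.mem_map.1 hz
        exact hf i) 0
      have hy' : ∀ k, ∃ η : ℕ → N, cl N η = y k := fun k => cl_surj _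
      choose η hη using hy'
      have hyy : (fun k => cl N (η k)) = y := funext hη
      have h2 : ∀ i ∈ Finset.range m, ∀ᶠ l in ((hyperfilter ℕ : Ultrafilter ℕ) : Filter ℕ),
          Cd hM.toMdl hN.toMdl (fun g : G => (g : M × UP N).1) (fun g => γ g l) a
            (fun k => ρ k l) (fun k => η k l) (en i) := by
        intro i hi
        have hi' : i ∈ List.range m := List.mem_range.2 (Finset.mem_range.1 hi)
        have h3 := hfb i (Finset.range B)
          (fun k hk => Finset.mem_range.2 (lt_of_lt_of_le hk (hB i hi'))) y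
          (hy _ (List.mem_map_of_mem hi'))
        have h4 := Cd_up hM.toMdl hN.toMdl (fun g : G => (g : M × UP N).1) γ a ρ η (en i)
        rw [hrr, hgg, hyy] at h4
        exact h4.1 h3
      have h3 := (eventually_all_finset _).2 h2
      exact h3.mono fun l hl => ⟨fun k => η k l, fun i hi => hl i (Finset.mem_range.2 hi)⟩)
  -- the extension
  set y : ℕ → UP N := fun k => cl N (fun l => d l k) with hy
  have hcd : ∀ z : Jc p G, Cd hM.toMdl (mdl_up hN.toMdl) (fun g : G => (g : M × UP N).1)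
      (fun g : G => (g : M × UP N).2) a r y z := by
    intro z
    obtain ⟨i, rfl⟩ := hen z
    have h4 := Cd_up hM.toMdl hN.toMdl (fun g : G => (g : M × UP N).1) γ a ρ
      (fun k l => d l k) (en i)
    rw [hrr, hgg] at h4
    exact h4.2 (hd i)
  have hmm : ∀ (i : ℕ) (g : M × UP N), g ∈ G → a i = g.1 → y i = g.2 := fun i g hg =>
    hcd (Jc.mm i ⟨g, hg⟩)
  have hsb : ∀ (c : FF p) (i j k : ℕ), a i - io hM.toMdl c * a j = a k →
      y i - io (mdl_up hN.toMdl) c * y j = y k := fun c i j k => hcd (Jc.sb c i j k)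
  have hfr : ∀ (i k : ℕ), a i ^ p = a k → y i ^ p = y k := fun i k => hcd (Jc.fr i k)
  have hrv : ∀ i : ℕ, a i ≠ 0 → RVeq (mdl_up hN.toMdl) (y i) (r i) := fun i => hcd (Jc.rv i)
  have h0y : ∀ i, a i = 0 → y i = 0 := fun i hi => hmm i 0 hG.zero hi
  set G1 : Set (M × UP N) := Set.range (fun k => (a k, y k)) with hG1
  have g_sb : ∀ c : FF p, ∀ u ∈ G1, ∀ v ∈ G1,
      (u.1 - io hM.toMdl c * v.1, u.2 - io (mdl_up hN.toMdl) c * v.2) ∈ G1 := by
    rintro c _ ⟨i, rfl⟩ _ ⟨j, rfl⟩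
    obtain ⟨k, hk⟩ := hTa _ (hT1 c _ (haT i) _ (haT j))
    exact ⟨k, Prod.ext hk (hsb c i j k hk.symm).symm⟩
  have g_zero : ((0 : M), (0 : UP N)) ∈ G1 := by
    obtain ⟨k, hk⟩ := hTa 0 h0T
    exact ⟨k, Prod.ext hk (h0y k hk)⟩
  have g_sub : ∀ u ∈ G1, ∀ v ∈ G1, u - v ∈ G1 := by
    intro u hu v hv
    have := g_sb 1 u hu v hv
    rw [map_one, map_one, one_mul, one_mul] at this
    exact this
  have g_smul : ∀ c : FF p, ∀ u ∈ G1, (io hM.toMdl c * u.1, io (mdl_up hN.toMdl) c * u.2) ∈ G1 := by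
    intro c u hu
    have := g_sb (-c) _ g_zero u hu
    rw [map_neg, map_neg, neg_mul, neg_mul, sub_neg_eq_add, sub_neg_eq_add, zero_add,
      zero_add] at this
    exact this
  have g_add : ∀ u ∈ G1, ∀ v ∈ G1, u + v ∈ G1 := by
    intro u hu v hv
    have := g_sb (-1) u hu v hv
    rw [map_neg, map_neg, map_one, map_one, neg_mul, neg_mul, one_mul, one_mul, sub_neg_eq_add,
      sub_neg_eq_add] at this
    exact this
  have g_frob : ∀ u ∈ G1, u ^ p ∈ G1 := by
    rintro _ ⟨i, rfl⟩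
    obtain ⟨k, hk⟩ := hTa _ (hT2 _ (haT i))
    exact ⟨k, Prod.ext hk (hfr i k hk.symm).symm⟩
  have g_func : ∀ (b : M) (v w : UP N), (b, v) ∈ G1 → (b, w) ∈ G1 → v = w := by
    intro b v w hv hw
    obtain ⟨k, hk⟩ := g_sub _ hv _ hw
    have h1 : a k = 0 := by
      have := congrArg Prod.fst hk
      simpa using this
    have h2 := h0y k h1
    have h3 := congrArg Prod.snd hk
    simp only [Prod.snd_sub] at h3
    rw [h2] at h3
    exact (sub_eq_zero.1 h3.symm)
  have g_sum : ∀ (S : Finset ℕ) (f : ℕ → M × UP N), (∀ s ∈ S, f s ∈ G1) → ∑ s ∈ S, f s ∈ G1 := by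
    classical
    intro S f hf
    induction S using Finset.induction_on with
    | empty => exact g_zero
    | insert k S hk ih =>
      rw [Finset.sum_insert hk]
      exact g_add _ (hf k (Finset.mem_insert_self _ _)) _
        (ih fun s hs => hf s (Finset.mem_insert_of_mem hs))
  refine ⟨G1, Λ', ?_, ⟨Set.countable_range _, ?_, g_sub, g_smul, g_frob, ?_, ?_, ?_, hiso,
    hG'.tt⟩, ?_⟩
  · intro g hg
    obtain ⟨k, hk⟩ := hTa _ (hGT g hg)
    exact ⟨k, Prod.ext hk (hmm k g hg hk)⟩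
  · obtain ⟨k, hk⟩ := hTa _ (hGT _ hG.one)
    exact ⟨k, Prod.ext hk (hmm k _ hG.one hk)⟩
  · rintro _ ⟨i, rfl⟩
    obtain ⟨f, hf, hfi⟩ := hT3 _ (haT i)
    have h1 : ∀ s, ∃ k, a k = f s := fun s => hTa _ (hf s)
    choose k hk using h1
    refine ⟨fun s => (a (k s), y (k s)), fun s => ⟨k s, rfl⟩, ?_⟩
    have h2 : ∑ s ∈ Finset.range p, (σ X, ((diag N).comp τ) X) ^ s * (a (k s), y (k s)) ^ p ∈
        G1 := by
      refine g_sum _ _ fun s _ => ?_
      have h3 := g_smul (tF p ^ s) _ (g_frob _ ⟨k s, rfl⟩)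
      rw [map_pow, map_pow, io_tF, io_tF] at h3
      exact h3
    have h3 : (∑ s ∈ Finset.range p,
        (σ X, ((diag N).comp τ) X) ^ s * (a (k s), y (k s)) ^ p).1 = a i := by
      have h4 := map_sum (RingHom.fst M (UP N)) (fun s =>
        (σ X, ((diag N).comp τ) X) ^ s * (a (k s), y (k s)) ^ p) (Finset.range p)
      have h5 : (∑ s ∈ Finset.range p,
        (σ X, ((diag N).comp τ) X) ^ s * (a (k s), y (k s)) ^ p).1 =
          ∑ s ∈ Finset.range p, σ X ^ s * a (k s) ^ p := h4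
      rw [h5, hfi]
      exact Finset.sum_congr rfl fun s _ => by rw [hk s]
    refine Prod.ext h3.symm ?_
    refine g_func (a i) _ _ ⟨i, rfl⟩ ?_
    rw [← h3]
    exact h2
  · rintro _ ⟨i, rfl⟩
    exact hTO _ (haT i)
  · rintro _ ⟨i, rfl⟩
    by_cases h : a i = 0
    · exact Or.inl ⟨h, h0y i h⟩
    · exact (RVC.rveq h hiso (hr i)).2 (hrv i h)
  · obtain ⟨k, hk⟩ := hTa _ hxT
    exact ⟨y k, k, Prod.ext hk rfl⟩

end AF80
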