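import Pool.Agent.AF80.Core3
import Pool.Agent.AF80.Clo
import Pool.Agent.AF80.Equiv
import Pool.Agent.BF80.Diag

/-!
# Extension of a partial isomorphism to a countable closed set
-/

set_option autoImplicit false
set_option maxSynthPendingDepth 10

open Polynomial Filter

namespace AF80

open FT80 BF80

/-! ### Leading terms in ultrapowers -/

section up

variable {p : ℕ} [hp : Fact p.Prime] {M : Type} [Field M] {σ : P1 p →+* M}

theorem RVeq_iff_VO (hM : Mdl p σ) (x y : M) :
    RVeq hM x y ↔ y ≠ 0 ∧ VO (σ X) ((x - y) / (y * σ X)) := by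
  have ht := hM.t_ne
  constructor
  · intro h
    have hy := h.ne_right
    refine ⟨hy, ?_⟩
    have hvy : (0 : hM.VG) < hM.fv y := zero_lt_iff.2 ((Valuation.ne_zero_iff _).2 hy)
    have h1 : hM.fv ((x - y) / y) < 1 := by
      rw [map_div₀, div_lt_one₀ hvy]
      exact h
    have h2 := hM.le_fv_t h1
    rw [← hM.fv_le_one, ← div_div, map_div₀]
    exact (div_le_one₀ (zero_lt_iff.2 ((Valuation.ne_zero_iff _).2 ht))).2 h2
  · rintro ⟨hy, h⟩
    have hvy : (0 : hM.VG) < hM.fv y := zero_lt_iff.2 ((Valuation.ne_zero_iff _).2 hy)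
    rw [← hM.fv_le_one, ← div_div, map_div₀,
      div_le_one₀ (zero_lt_iff.2 ((Valuation.ne_zero_iff _).2 ht))] at h
    have h1 := h.trans_lt hM.fv_t_lt
    rwa [map_div₀, div_lt_one₀ hvy] at h1

theorem RVeq_cl (hM : Mdl p σ) (f g : ℕ → M) :
    RVeq (mdl_up hM) (cl M f) (cl M g) ↔
      ∀ᶠ l in ((hyperfilter ℕ : Ultrafilter ℕ) : Filter ℕ), RVeq hM (f l) (g l) := by
  rw [RVeq_iff_VO]
  have h1 : (cl M f - cl M g) / (cl M g * ((diag M).comp σ) X) =
      cl M (fun l => (f l - g l) / (g l * σ X)) := by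
    rw [show ((diag M).comp σ) X = cl M (fun _ => σ X) from rfl, ← map_sub, ← map_mul, cl_div]
    rfl
  rw [h1, show ((diag M).comp σ) X = diag M (σ X) from rfl, VO_cl, cl_ne_zero_iff,
    ← eventually_and]
  exact eventually_congr (Eventually.of_forall fun l => (RVeq_iff_VO hM _ _).symm)

end up

/-! ### Conditions -/

section cond

variable {p : ℕ} [hp : Fact p.Prime] {P Q : Type} [Field P] [Field Q] {σ : P1 p →+* P}
  {τ : P1 p →+* Q}

/-- single coefficients -/
theorem fval_single (hP : Mdl p σ) {S : Finset ℕ} {i : ℕ} (hi : i ∈ S) (D : (FF p)[X])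
    (e : ℕ → P) : fval hP S (Pi.single i D) e 0 = act p (io hP) D (e i) := by
  unfold fval
  rw [Finset.sum_eq_single i, Pi.single_eq_same, add_zero]
  · intro k _ hk
    rw [Pi.single_eq_of_ne hk, act_zero_left]
  · intro h
    exact absurd hi h

theorem fval_single' (hP : Mdl p σ) {S : Finset ℕ} {i : ℕ} (hi : i ∈ S) (D : (FF p)[X])
    (e : ℕ → P) (a : P) : fval hP S (Pi.single i D) e a = act p (io hP) D (e i) + a := by
  have h := fval_single hP hi D e
  unfold fval at h ⊢
  rw [add_zero] at h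
  rw [h]

/-- the kinds of conditions -/
inductive Jc (p : ℕ) [Fact p.Prime] (G : Type)
  | sb (c : FF p) (i j k : ℕ)
  | fr (i k : ℕ)
  | mm (i : ℕ) (g : G)
  | rv (i : ℕ)

theorem countable_Jc (G : Type) [Countable G] : Countable (Jc p G) := by
  let f : Jc p G → (FF p × ℕ × ℕ × ℕ) ⊕ (ℕ × ℕ) ⊕ (ℕ × G) ⊕ ℕ := fun x =>
    match x with
    | .sb c i j k => Sum.inl (c, i, j, k)
    | .fr i k => Sum.inr (Sum.inl (i, k))
    | .mm i g => Sum.inr (Sum.inr (Sum.inl (i, g)))
    | .rv i => Sum.inr (Sum.inr (Sum.inr i))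
  refine Function.Injective.countable (f := f) ?_
  intro x y h
  cases x <;> cases y <;> simp_all [f]

/-- the condition `x` for the sequence `y`; `r` is a sequence of elements with the right leading
terms -/
def Cd (hP : Mdl p σ) {Q' : Type} [Field Q'] {τ' : P1 p →+* Q'} (hQ : Mdl p τ') {G : Type}
    (g1 : G → P) (g2 : G → Q') (a : ℕ → P) (r y : ℕ → Q') : Jc p G → Prop
  | .sb c i j k => a i - io hP c * a j = a k → y i - io hQ c * y j = y k
  | .fr i k => a i ^ p = a k → y i ^ p = y k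
  | .mm i g => a i = g1 g → y i = g2 g
  | .rv i => a i ≠ 0 → RVeq hQ (y i) (r i)

theorem Cd_up (hP : Mdl p σ) {N : Type} [Field N] {τ : P1 p →+* N} (hN : Mdl p τ) {G : Type}
    (g1 : G → P) (g2 : G → ℕ → N) (a : ℕ → P) (r y : ℕ → ℕ → N) (x : Jc p G) :
    Cd hP (mdl_up hN) g1 (fun g => cl N (g2 g)) a (fun k => cl N (r k)) (fun k => cl N (y k)) x ↔
      ∀ᶠ l in ((hyperfilter ℕ : Ultrafilter ℕ) : Filter ℕ),
        Cd hP hN g1 (fun g => g2 g l) a (fun k => r k l) (fun k => y k l) x := by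
  have key : ∀ (A : Prop) (B : Prop) (C : ℕ → Prop),
      (B ↔ ∀ᶠ l in ((hyperfilter ℕ : Ultrafilter ℕ) : Filter ℕ), C l) →
      ((A → B) ↔ ∀ᶠ l in ((hyperfilter ℕ : Ultrafilter ℕ) : Filter ℕ), (A → C l)) := by
    intro A B C h
    by_cases hA : A
    · simp only [hA, true_imp_iff]
      exact h
    · simp [hA]
  cases x with
  | sb c i j k =>
    refine key _ _ _ ?_
    rw [io_up hN (mdl_up hN) c, show diag N (io hN c) = cl N (fun _ => io hN c) from rfl,
      ← map_mul, ← map_sub, cl_eq]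
    rfl
  | fr i k =>
    refine key _ _ _ ?_
    rw [← map_pow, cl_eq]
    rfl
  | mm i g =>
    refine key _ _ _ ?_
    rw [cl_eq]
  | rv i =>
    refine key _ _ _ ?_
    exact RVeq_cl hN _ _

variable {hP : Mdl p σ} {hQ : Mdl p τ} {Λ : Subgroup (hP.VGˣ × hQ.VGˣ)} {G : Set (P × Q)}

/-- every condition follows from the correspondence for one form -/
theorem cond_form (hG : GA hP hQ G Λ) (a : ℕ → P) (r : ℕ → Q)
    (hr : ∀ k, RVC hP hQ Λ (a k) (r k)) (x : Jc p G) : ∃ (f : Fo p P Q) (b : ℕ), f.c ∈ G ∧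
      ∀ S : Finset ℕ, (∀ i < b, i ∈ S) → ∀ y : ℕ → Q,
        RVC hP hQ Λ (f.vP hP S a) (f.vQ hQ S y) →
          Cd hP hQ (fun g : G => (g : P × Q).1) (fun g : G => (g : P × Q).2) a r y x := by
  cases x with
  | sb c i j k =>
    refine ⟨⟨fun n => (Pi.single i (1 : (FF p)[X]) : ℕ → (FF p)[X]) n -
      (Pi.single j (C c) : ℕ → (FF p)[X]) n - (Pi.single k (1 : (FF p)[X]) : ℕ → (FF p)[X]) n,
      (0 - 0 - 0, 0 - 0 - 0)⟩, i + j + k + 1, ?_, ?_⟩
    · have h0 : ((0 : P) - 0 - 0, (0 : Q) - 0 - 0) = (0 : P × Q) :=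
        Prod.ext (by simp) (by simp)
      show ((0 : P) - 0 - 0, (0 : Q) - 0 - 0) ∈ G
      rw [h0]
      exact hG.zero
    · intro S hS y h hak
      have hi := hS i (by omega)
      have hj := hS j (by omega)
      have hk := hS k (by omega)
      unfold Fo.vP Fo.vQ at h
      simp only at h
      rw [fval_sub, fval_sub, fval_sub, fval_sub, fval_single hP hi, fval_single hP hj,
        fval_single hP hk, fval_single hQ hi, fval_single hQ hj, fval_single hQ hk, act_one,
        act_one, act_one, act_one, act_C, act_C] at h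
      have h1 := h.zero_iff.1 (by rw [hak, sub_self])
      exact sub_eq_zero.1 h1
  | fr i k =>
    refine ⟨⟨fun n => (Pi.single i (X : (FF p)[X]) : ℕ → (FF p)[X]) n -
      (Pi.single k (1 : (FF p)[X]) : ℕ → (FF p)[X]) n, (0 - 0, 0 - 0)⟩, i + k + 1, ?_, ?_⟩
    · have h0 : ((0 : P) - 0, (0 : Q) - 0) = (0 : P × Q) := Prod.ext (by simp) (by simp)
      show ((0 : P) - 0, (0 : Q) - 0) ∈ G
      rw [h0]
      exact hG.zero
    · intro S hS y h hak
      have hi := hS i (by omega)
      have hk := hS k (by omega)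
      unfold Fo.vP Fo.vQ at h
      simp only at h
      rw [fval_sub, fval_sub, fval_single hP hi, fval_single hP hk, fval_single hQ hi,
        fval_single hQ hk, act_one, act_one, act_X, act_X] at h
      have h1 := h.zero_iff.1 (by rw [hak, sub_self])
      exact sub_eq_zero.1 h1
  | mm i g =>
    refine ⟨⟨Pi.single i 1, -(g : P × Q)⟩, i + 1, hG.neg g.2, ?_⟩
    intro S hS y h hag
    have hi := hS i (by omega)
    unfold Fo.vP Fo.vQ at h
    simp only at h
    rw [fval_single' hP hi, fval_single' hQ hi, act_one, act_one] at h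
    have h1 := h.zero_iff.1 (by
      show a i + -(g : P × Q).1 = 0
      rw [hag, add_neg_cancel])
    have h2 : y i + -(g : P × Q).2 = 0 := h1
    rwa [← sub_eq_add_neg, sub_eq_zero] at h2
  | rv i =>
    refine ⟨⟨Pi.single i 1, 0⟩, i + 1, hG.zero, ?_⟩
    intro S hS y h ha0
    have hi := hS i (by omega)
    unfold Fo.vP Fo.vQ at h
    simp only [Prod.fst_zero, Prod.snd_zero] at h
    rw [fval_single hP hi, fval_single hQ hi, act_one, act_one] at h
    exact (RVC.rveq ha0 hG.iso (hr i)).1 h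

end cond

end AF80
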