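import Pool.Agent.AF80.Forth
import Pool.Agent.AF80.Final

/-!
# The additive fragment over `F_p[[t]]` is decidable
-/

set_option autoImplicit false
set_option maxSynthPendingDepth 10

open Polynomial Filter

namespace AF80

open FT80 BF80

/-- all models satisfy the same formulas -/
theorem af_equiv {p : ℕ} [Fact p.Prime] {M N : Type} [Field M] [Field N] {σ : P1 p →+* M}
    {τ : P1 p →+* N} (hM : MdlA p σ) (hN : MdlA p τ) (φ : AFm) :
    φ.HoldsV p (σ X) (fun _ => (0 : M)) ↔ φ.HoldsV p (τ X) (fun _ => (0 : N)) :=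
  af_equiv_of (fun M N _ _ σ τ hM hN => forthA M N σ τ hM hN) hM hN φ

theorem afm_main (p : ℕ) [Fact p.Prime] :
    ∃ D : List ℕ → Bool, Computable D ∧ ∀ φ : AFm, (D φ.code = true ↔
      φ.Holds p (PowerSeries.X : PowerSeries (ZMod p)) (fun _ => 0)) :=
  afm_main_of p fun _ _ _ h φ => af_equiv h mdlA_KK φ

end AF80
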