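import Pool.Agent.AF80.Rv

/-!
# Approximation by rational functions, estimates and Hensel's lemma for operators
-/

set_option autoImplicit false
set_option maxSynthPendingDepth 10

open Polynomial Filter

namespace AF80

open FT80 BF80

variable {p : ℕ} [hp : Fact p.Prime] {M N : Type} [Field M] [Field N] {σ : P1 p →+* M}
  {τ : P1 p →+* N}

section aux

theorem fv_t_ne (hM : Mdl p σ) : hM.fv (σ X) ≠ 0 := (Valuation.ne_zero_iff _).2 hM.t_ne

theorem fv_t_pos (hM : Mdl p σ) : 0 < hM.fv (σ X) := zero_lt_iff.2 (fv_t_ne hM)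

theorem fv_posN (hM : Mdl p σ) {x : M} (hx : x ≠ 0) : 0 < hM.fv x :=
  zero_lt_iff.2 ((Valuation.ne_zero_iff _).2 hx)

theorem zpow_fv_le (hM : Mdl p σ) {a b : ℤ} : hM.fv (σ X) ^ a ≤ hM.fv (σ X) ^ b ↔ b ≤ a :=
  zpow_le_zpow_iff_right_of_lt_one₀ (fv_t_pos hM) hM.fv_t_lt

theorem zpow_fv_lt (hM : Mdl p σ) {a b : ℤ} : hM.fv (σ X) ^ a < hM.fv (σ X) ^ b ↔ b < a :=
  zpow_lt_zpow_iff_right_of_lt_one₀ (fv_t_pos hM) hM.fv_t_lt

theorem pow_fv_le (hM : Mdl p σ) {a : ℕ} {b : ℤ} :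
    hM.fv (σ X) ^ a ≤ hM.fv (σ X) ^ b ↔ b ≤ (a : ℤ) := by
  rw [← zpow_natCast, zpow_fv_le]

theorem fv_C_ne (hM : Mdl p σ) {γ : ZMod p} (hγ : γ ≠ 0) : hM.fv (σ (C γ)) = 1 := by
  have h := hM.unit_σ (f := C γ) (by rwa [coeff_C_zero])
  exact hM.fv_eq_one h.1 (hM.VO_σ _) h.2

/-- the values of rational functions do not depend on the model -/
theorem exists_ord : ∃ κ : FF p → ℤ, ∀ c : FF p, c ≠ 0 → ∀ (M : Type) [Field M] (σ : P1 p →+* M)
    (hM : Mdl p σ), hM.fv (io hM c) = hM.fv (σ X) ^ κ c := by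
  have h : ∀ c : FF p, ∃ k : ℤ, c ≠ 0 → ∀ (M : Type) [Field M] (σ : P1 p →+* M)
      (hM : Mdl p σ), hM.fv (io hM c) = hM.fv (σ X) ^ k := by
    intro c
    by_cases hc : c = 0
    · exact ⟨0, fun h => absurd hc h⟩
    · obtain ⟨γ, k, hγ, h⟩ := io_lead c hc
      refine ⟨k, fun _ M _ σ hM => ?_⟩
      rw [(h M σ hM).fv_eq, map_mul, fv_C_ne hM hγ, one_mul, map_zpow₀]
  choose κ hκ using h
  exact ⟨κ, hκ⟩

theorem act_eq_sum {F B : Type*} [Field F] [CommRing B] (ι : F →+* B) (L : Polynomial F) (x : B) :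
    act p ι L x = ∑ i ∈ L.support, ι (L.coeff i) * x ^ p ^ i := rfl

theorem ne_zero_of_mem {F : Type*} [Field F] {L : Polynomial F} {i : ℕ} (h : i ∈ L.support) :
    L.coeff i ≠ 0 := mem_support_iff.1 h

end aux

theorem exists_io_near (hM : Mdl p σ) {x : M} (hx : x ∈ hM.OC) (n : ℕ) :
    ∃ c : FF p, hM.fv (x - io hM c) ≤ hM.fv (σ X) ^ n := by
  have ht := hM.t_ne
  obtain ⟨m, hm⟩ := hx
  obtain ⟨s, hs⟩ := hM.exists_dig hm
  refine ⟨algebraMap (P1 p) (FF p) (PowerSeries.trunc (m + n) s) / tF p ^ m, ?_⟩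
  have h1 := (hM.fv_le_one _).2 (hs (m + n))
  rw [map_div₀, map_pow, io_map, io_tF]
  have h2 : x - σ (PowerSeries.trunc (m + n) s) / σ X ^ m =
      σ X ^ n * ((σ X ^ m * x - σ (PowerSeries.trunc (m + n) s)) / σ X ^ (m + n)) := by
    rw [pow_add]
    field_simp
  rw [h2, map_mul, map_pow]
  exact mul_le_of_le_one_right' h1

theorem io_small (hM : Mdl p σ) (hN : Mdl p τ) (c : FF p) (n : ℕ) :
    hM.fv (io hM c) ≤ hM.fv (σ X) ^ n ↔ hN.fv (io hN c) ≤ hN.fv (τ X) ^ n := by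
  rcases eq_or_ne c 0 with rfl | hc
  · simp only [map_zero, zero_le]
  · obtain ⟨κ, hκ⟩ := exists_ord (p := p)
    rw [hκ c hc M σ hM, hκ c hc N τ hN, ← zpow_natCast, ← zpow_natCast, zpow_fv_le, zpow_fv_le]

theorem act_mem_OC (hM : Mdl p σ) (L : (FF p)[X]) {x : M} (hx : x ∈ hM.OC) :
    act p (io hM) L x ∈ hM.OC := by
  rw [act_eq_sum]
  exact sum_mem fun i _ => hM.OC.mul_mem _ _ (io_mem_OC hM _) (pow_mem hx _)

theorem fv_act_le (L : (FF p)[X]) : ∃ m : ℕ, ∀ (M : Type) [Field M] (σ : P1 p →+* M)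
    (hM : Mdl p σ) (z : M), hM.fv z ≤ 1 →
    hM.fv (act p (io hM) L z) * hM.fv (σ X) ^ m ≤ hM.fv z := by
  obtain ⟨κ, hκ⟩ := exists_ord (p := p)
  refine ⟨∑ i ∈ L.support, (-κ (L.coeff i)).toNat, fun M _ σ hM z hz => ?_⟩
  set m := ∑ i ∈ L.support, (-κ (L.coeff i)).toNat with hm
  rw [← map_pow, ← map_mul, act_eq_sum, Finset.sum_mul]
  refine Valuation.map_sum_le _ (fun i hi => ?_)
  have h1 : (-κ (L.coeff i)).toNat ≤ m :=
    Finset.single_le_sum (f := fun i => (-κ (L.coeff i)).toNat) (fun _ _ => Nat.zero_le _) hi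
  have h2 : hM.fv z ^ p ^ i ≤ hM.fv z := by
    calc hM.fv z ^ p ^ i ≤ hM.fv z ^ 1 :=
          pow_le_pow_right_of_le_one' hz (Nat.one_le_pow _ _ hp.out.pos)
      _ = hM.fv z := pow_one _
  have h3 : hM.fv (σ X) ^ κ (L.coeff i) * hM.fv (σ X) ^ m ≤ 1 := by
    rw [← zpow_natCast, ← zpow_add₀ (fv_t_ne hM), ← zpow_zero (hM.fv (σ X)), zpow_fv_le]
    omega
  rw [map_mul, map_mul, map_pow, map_pow, hκ _ (ne_zero_of_mem hi) M σ hM]
  calc hM.fv (σ X) ^ κ (L.coeff i) * hM.fv z ^ p ^ i * hM.fv (σ X) ^ m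
      = (hM.fv (σ X) ^ κ (L.coeff i) * hM.fv (σ X) ^ m) * hM.fv z ^ p ^ i := by
        rw [mul_right_comm]
    _ ≤ 1 * hM.fv z := mul_le_mul' h3 h2
    _ = hM.fv z := one_mul _

theorem act_lead (L : (FF p)[X]) (hL : L ≠ 0) : ∃ m : ℕ, ∀ (M : Type) [Field M]
    (σ : P1 p →+* M) (hM : Mdl p σ) (z : M), z ≠ 0 → hM.fv z ≤ hM.fv (σ X) ^ m →
    RVeq hM (act p (io hM) L z) (io hM L.trailingCoeff * z ^ p ^ L.natTrailingDegree) := by
  obtain ⟨κ, hκ⟩ := exists_ord (p := p)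
  set d := L.natTrailingDegree with hd
  have hcd : L.coeff d ≠ 0 := by
    rw [hd, ← trailingCoeff]
    exact trailingCoeff_nonzero_iff_nonzero.2 hL
  have hdm : d ∈ L.support := mem_support_iff.2 hcd
  refine ⟨∑ i ∈ L.support, (κ (L.coeff d) - κ (L.coeff i) + 1).toNat, fun M _ σ hM z hz0 hz => ?_⟩
  set m := ∑ i ∈ L.support, (κ (L.coeff d) - κ (L.coeff i) + 1).toNat with hm
  have hz1 : hM.fv z ≤ 1 := hz.trans (pow_le_one' hM.fv_t_lt.le m)
  have hzp : 0 < hM.fv z := fv_posN hM hz0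
  unfold RVeq
  rw [act_eq_sum, ← Finset.add_sum_erase _ _ hdm, trailingCoeff, ← hd, add_sub_cancel_left,
    map_mul, map_pow, hκ _ hcd M σ hM]
  have hne : hM.fv (σ X) ^ κ (L.coeff d) * hM.fv z ^ p ^ d ≠ 0 :=
    mul_ne_zero (zpow_ne_zero _ (fv_t_ne hM)) (pow_ne_zero _ hzp.ne')
  refine Valuation.map_sum_lt _ hne (fun i hi => ?_)
  have his : i ∈ L.support := Finset.mem_of_mem_erase hi
  have hid : d < i := by
    refine lt_of_le_of_ne (natTrailingDegree_le_of_mem_supp _ his) ?_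
    exact (Finset.ne_of_mem_erase hi).symm
  have h1 : (κ (L.coeff d) - κ (L.coeff i) + 1).toNat ≤ m :=
    Finset.single_le_sum (f := fun i => (κ (L.coeff d) - κ (L.coeff i) + 1).toNat)
      (fun _ _ => Nat.zero_le _) his
  have hpl : p ^ d < p ^ i := Nat.pow_lt_pow_right hp.out.one_lt hid
  have h2 : hM.fv z ^ (p ^ i - p ^ d) ≤ hM.fv (σ X) ^ m := by
    calc hM.fv z ^ (p ^ i - p ^ d) ≤ hM.fv z ^ 1 :=
          pow_le_pow_right_of_le_one' hz1 (by omega)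
      _ = hM.fv z := pow_one _
      _ ≤ _ := hz
  have h3 : hM.fv (σ X) ^ κ (L.coeff i) * hM.fv (σ X) ^ m < hM.fv (σ X) ^ κ (L.coeff d) := by
    rw [← zpow_natCast, ← zpow_add₀ (fv_t_ne hM), zpow_fv_lt]
    omega
  rw [map_mul, map_pow, hκ _ (ne_zero_of_mem his) M σ hM]
  calc hM.fv (σ X) ^ κ (L.coeff i) * hM.fv z ^ p ^ i
      = hM.fv (σ X) ^ κ (L.coeff i) * hM.fv z ^ (p ^ i - p ^ d) * hM.fv z ^ p ^ d := by
        rw [mul_assoc, ← pow_add]
        congr 2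
        omega
    _ ≤ hM.fv (σ X) ^ κ (L.coeff i) * hM.fv (σ X) ^ m * hM.fv z ^ p ^ d :=
        mul_le_mul' (mul_le_mul' le_rfl h2) le_rfl
    _ < hM.fv (σ X) ^ κ (L.coeff d) * hM.fv z ^ p ^ d :=
        mul_lt_mul_of_pos_right h3 (pow_pos hzp _)

theorem exists_act_eq (L : (FF p)[X]) (hL : L.coeff 0 ≠ 0) (n : ℕ) : ∃ m : ℕ,
    ∀ (M : Type) [Field M] (σ : P1 p →+* M) (hM : Mdl p σ) (y : M),
    hM.fv y ≤ hM.fv (σ X) ^ m → ∃ z : M, act p (io hM) L z = y ∧ hM.fv z ≤ hM.fv (σ X) ^ n := by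
  obtain ⟨κ, hκ⟩ := exists_ord (p := p)
  set a : ℕ := n + ∑ i ∈ L.support, (κ (L.coeff 0) - κ (L.coeff i)).toNat with ha
  refine ⟨(κ (L.coeff 0)).toNat + a + 1, fun M _ σ hM y hy => ?_⟩
  have ht := hM.t_ne
  have h0m : 0 ∈ L.support := mem_support_iff.2 hL
  have hc0 : io hM (L.coeff 0) ≠ 0 := by
    rw [Ne, map_eq_zero]
    exact hL
  set b : ℕ → M := fun i => io hM (L.coeff i) * (σ X ^ a) ^ p ^ i / (io hM (L.coeff 0) * σ X ^ a)
    with hb
  set e : M := y / (io hM (L.coeff 0) * σ X ^ a) with he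
  have hD : io hM (L.coeff 0) * σ X ^ a ≠ 0 := mul_ne_zero hc0 (pow_ne_zero _ ht)
  have hb0 : b 0 = 1 := by
    simp only [hb, pow_zero, pow_one]
    exact div_self hD
  set f : M[X] := ∑ i ∈ L.support, C (b i) * X ^ p ^ i - C e with hf
  have hcoef : ∀ j, f.coeff j =
      ∑ i ∈ L.support, (if j = p ^ i then b i else 0) - (if j = 0 then e else 0) := by
    intro j
    rw [hf, coeff_sub, finsetSum_coeff, coeff_C]
    simp only [coeff_C_mul, coeff_X_pow, mul_ite, mul_one, mul_zero]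
  have hbV : ∀ i ∈ L.support, VO (σ X) (b i) := by
    intro i hi
    rw [← hM.fv_le_one]
    simp only [hb]
    have h1 : (κ (L.coeff 0) - κ (L.coeff i)).toNat ≤
        ∑ i ∈ L.support, (κ (L.coeff 0) - κ (L.coeff i)).toNat :=
      Finset.single_le_sum (f := fun i => (κ (L.coeff 0) - κ (L.coeff i)).toNat)
        (fun _ _ => Nat.zero_le _) hi
    have hpi : 1 ≤ p ^ i := Nat.one_le_pow _ _ hp.out.pos
    rcases Nat.eq_zero_or_pos i with rfl | hi0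
    · have := congrArg hM.fv hb0
      simp only [hb] at this
      rw [this, map_one]
    have hpi2 : 2 ≤ p ^ i := by
      calc 2 ≤ p := hp.out.two_le
        _ = p ^ 1 := (pow_one p).symm
        _ ≤ p ^ i := Nat.pow_le_pow_right hp.out.pos hi0
    have h2 : 2 * a ≤ a * p ^ i := by nlinarith
    rw [map_div₀, map_mul, map_mul, map_pow, map_pow, hκ _ (ne_zero_of_mem hi) M σ hM,
      hκ _ hL M σ hM, ← pow_mul]
    rw [← zpow_natCast, ← zpow_natCast, ← zpow_add₀ (fv_t_ne hM), ← zpow_add₀ (fv_t_ne hM),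
      ← zpow_sub₀ (fv_t_ne hM), ← zpow_zero (hM.fv (σ X)), zpow_fv_le]
    have h3 : (2 * a : ℤ) ≤ ((a * p ^ i : ℕ) : ℤ) := by exact_mod_cast h2
    omega
  have heV : VO (σ X) (e / σ X) := by
    rw [← hM.fv_le_one, he, map_div₀, map_div₀, map_mul, map_pow, hκ _ hL M σ hM]
    have h1 : hM.fv y ≤ hM.fv (σ X) ^ κ (L.coeff 0) * hM.fv (σ X) ^ a * hM.fv (σ X) := by
      refine hy.trans ?_
      rw [mul_assoc, ← pow_succ, ← zpow_natCast, ← zpow_natCast, ← zpow_add₀ (fv_t_ne hM),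
        zpow_fv_le]
      push_cast
      omega
    rw [div_div]
    apply div_le_one_of_le₀ h1 (zero_le)
  have hne : ∀ i, p ^ i ≠ 0 := fun i => pow_ne_zero _ hp.out.ne_zero
  have hf0 : f.coeff 0 = -e := by
    rw [hcoef, if_pos rfl, Finset.sum_eq_zero, zero_sub]
    intro i _
    rw [if_neg (hne i).symm]
  have hf1 : f.coeff 1 = 1 := by
    rw [hcoef, if_neg one_ne_zero, sub_zero, Finset.sum_eq_single_of_mem 0 h0m]
    · rw [pow_zero, if_pos rfl, hb0]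
    · intro i _ hi
      rw [if_neg]
      exact (Nat.one_lt_pow hi hp.out.one_lt).ne
  have hfV : ∀ j, VO (σ X) (f.coeff j) := by
    intro j
    rcases Nat.eq_zero_or_pos j with rfl | hj
    · rw [hf0]
      have h1 := hM.mul _ _ hM.VO_t heV
      rw [mul_div_cancel₀ _ ht] at h1
      exact h1.neg
    · rw [hcoef, if_neg hj.ne', sub_zero]
      refine sum_mem (S := hM.OV) (fun i hi => ?_)
      split_ifs
      · exact hbV i hi
      · exact VO_zero _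
  obtain ⟨y', hy', hev⟩ := hM.hensel f hfV (by rw [hf0, neg_div]; exact heV.neg)
    (by rw [hf1]; exact one_ne_zero) (by rw [hf1, inv_one]; exact hM.one)
  refine ⟨σ X ^ a * (σ X * y'), ?_, ?_⟩
  · rw [hf, eval_sub, eval_C, eval_finsetSum, sub_eq_zero] at hev
    simp only [eval_mul, eval_C, eval_pow, eval_X] at hev
    have h1 : act p (io hM) L (σ X ^ a * (σ X * y')) =
        (io hM (L.coeff 0) * σ X ^ a) * ∑ i ∈ L.support, b i * (σ X * y') ^ p ^ i := by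
      rw [act_eq_sum, Finset.mul_sum]
      refine Finset.sum_congr rfl (fun i _ => ?_)
      simp only [hb]
      rw [mul_pow]
      field_simp
    rw [h1, hev, he, mul_div_cancel₀ _ hD]
  · rw [map_mul, map_mul, map_pow]
    have h1 := (hM.fv_le_one _).2 hy'
    calc hM.fv (σ X) ^ a * (hM.fv (σ X) * hM.fv y')
        ≤ hM.fv (σ X) ^ a * (1 * 1) := mul_le_mul' le_rfl (mul_le_mul' hM.fv_t_lt.le h1)
      _ = hM.fv (σ X) ^ a := by rw [mul_one, mul_one]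
      _ ≤ hM.fv (σ X) ^ n := pow_le_pow_right_of_le_one' hM.fv_t_lt.le (by omega)

theorem exists_scalar (hM : Mdl p σ) {x y : M} (hx : x ≠ 0) (hy : y ≠ 0)
    (h : hM.vc x = hM.vc y) (n : ℕ) :
    ∃ c : FF p, hM.fv (x - io hM c * y) ≤ hM.fv x * hM.fv (σ X) ^ n := by
  have h1 : hM.vc (x / y) = 1 := by
    rw [map_div₀, h]
    exact div_self ((Valuation.ne_zero_iff _).2 hy)
  obtain ⟨k, hk⟩ := hM.fv_of_vc _ h1
  obtain ⟨c, hc⟩ := exists_io_near hM (hM.vc_le_one.1 h1.le) (k + n).toNat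
  refine ⟨c, ?_⟩
  have h2 : x - io hM c * y = (x / y - io hM c) * y := by
    rw [sub_mul, div_mul_cancel₀ _ hy]
  have h3 : hM.fv x = hM.fv (x / y) * hM.fv y := by
    rw [← map_mul, div_mul_cancel₀ _ hy]
  rw [h2, map_mul, h3, hk, mul_right_comm]
  refine mul_le_mul' (hc.trans ?_) le_rfl
  rw [← zpow_natCast, ← zpow_natCast, ← zpow_add₀ (fv_t_ne hM), zpow_fv_le]
  exact Int.self_le_toNat _

end AF80
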