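import Pool.Agent.AF80.Defs

/-!
# Divisibility of powers of `t` in the value group
-/

set_option autoImplicit false
set_option maxSynthPendingDepth 10

open Polynomial Filter

namespace AF80

open FT80 BF80

/-- `t` has no roots in the value group -/
theorem fv_pow_eq {p : ℕ} [Fact p.Prime] {M : Type} [Field M] {σ : P1 p →+* M} (hM : Mdl p σ)
    {n : ℕ} (hn : n ≠ 0) {m : ℤ} {y : M} (h : hM.fv y ^ n = hM.fv (σ X) ^ m) : (n : ℤ) ∣ m := by
  have ht0 : hM.fv (σ X) ≠ 0 := (Valuation.ne_zero_iff _).2 hM.t_ne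
  obtain ⟨q, r, hrn, rfl⟩ : ∃ (q : ℤ) (r : ℕ), r < n ∧ m = n * q + r := by
    have hn' : (0 : ℤ) < n := by exact_mod_cast Nat.pos_of_ne_zero hn
    obtain ⟨r, hr⟩ := Int.eq_ofNat_of_zero_le (Int.emod_nonneg m hn'.ne')
    refine ⟨m / n, r, ?_, ?_⟩
    · have := Int.emod_lt_of_pos m hn'
      omega
    · rw [← hr]
      exact (Int.mul_ediv_add_emod m n).symm
  rcases Nat.eq_zero_or_pos r with rfl | hr
  · rw [Nat.cast_zero, add_zero]
    exact dvd_mul_right _ _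
  exfalso
  set c : M := y * (σ X ^ q)⁻¹ with hc
  have h1 : hM.fv c ^ n = hM.fv (σ X) ^ r := by
    rw [hc, map_mul, map_inv₀, map_zpow₀, mul_pow, h, inv_pow, ← zpow_natCast (_ ^ q), ← zpow_mul,
      mul_comm q, zpow_add₀ ht0, zpow_natCast, mul_comm, inv_mul_cancel_left₀ (zpow_ne_zero _ ht0)]
  have h2 : hM.fv c < 1 := by
    by_contra h0
    rw [not_lt] at h0
    have h3 : 1 ≤ hM.fv c ^ n := one_le_pow_of_one_le' h0 n
    rw [h1] at h3
    exact absurd h3 (not_le.2 (pow_lt_one' hM.fv_t_lt hr.ne'))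
  have h3 : hM.fv c ^ n ≤ hM.fv (σ X) ^ n := pow_le_pow_left' (hM.le_fv_t h2) n
  rw [h1] at h3
  have h4 : hM.fv (σ X) ^ n < hM.fv (σ X) ^ r :=
    pow_lt_pow_right_of_lt_one₀ (zero_lt_iff.2 ht0) hM.fv_t_lt hrn
  exact absurd h3 (not_le.2 h4)

end AF80
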