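import Pool.Agent.AF80.Alg
import Pool.Agent.AF80.Pre

/-!
# Leading terms and angular components
-/

set_option autoImplicit false
set_option maxSynthPendingDepth 10

open Polynomial Filter

namespace AF80

open FT80 BF80

variable {p : ℕ} [hp : Fact p.Prime] {M : Type} [Field M] {σ : P1 p →+* M}

theorem charP_of (hM : Mdl p σ) : CharP M p :=
  charP_of_injective_ringHom hM.σ_injective p

theorem io_map (hM : Mdl p σ) (f : P1 p) : io hM (algebraMap (P1 p) (FF p) f) = σ f :=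
  IsFractionRing.lift_algebraMap hM.σ_injective f

theorem io_tF (hM : Mdl p σ) : io hM (tF p) = σ X := io_map hM X

theorem OC_VO (hM : Mdl p σ) {x : M} (h : VO (σ X) x) : x ∈ hM.OC := hM.OC_of_VO h

theorem P1_lead {f : P1 p} (hf : f ≠ 0) : ∃ (a : ℕ) (g : P1 p), g.coeff 0 ≠ 0 ∧ f = X ^ a * g := by
  obtain ⟨g, hg, hg'⟩ := exists_eq_pow_rootMultiplicity_mul_and_not_dvd f hf 0
  refine ⟨f.rootMultiplicity 0, g, ?_, ?_⟩
  · intro h
    apply hg'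
    rw [C_0, sub_zero, X_dvd_iff]
    exact h
  · rw [C_0, sub_zero] at hg
    exact hg

theorem io_mem_OC (hM : Mdl p σ) (c : FF p) : io hM c ∈ hM.OC := by
  obtain ⟨f, g, hg, rfl⟩ := IsFractionRing.div_surjective (A := P1 p) c
  have hg0 : g ≠ 0 := nonZeroDivisors.ne_zero hg
  rw [map_div₀, io_map, io_map, div_eq_mul_inv]
  apply hM.OC.mul_mem _ _ (OC_VO hM (hM.VO_σ f))
  obtain ⟨a, g1, h1, rfl⟩ := P1_lead hg0
  rw [map_mul, map_pow, mul_inv, ← inv_pow]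
  exact hM.OC.mul_mem _ _ (pow_mem hM.t_inv_mem a) (OC_VO hM (hM.unit_σ h1).2)

theorem io_up (hM : Mdl p σ) (hU : Mdl p ((diag M).comp σ)) (c : FF p) :
    io hU c = diag M (io hM c) := by
  obtain ⟨f, g, hg, rfl⟩ := IsFractionRing.div_surjective (A := P1 p) c
  rw [map_div₀, map_div₀, map_div₀, io_map, io_map, io_map, io_map]
  rfl

/-! ### leading terms -/

theorem fv_pos {hM : Mdl p σ} {x : M} (h : x ≠ 0) : 0 < hM.fv x :=
  zero_lt_iff.2 ((Valuation.ne_zero_iff _).2 h)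

theorem RVeq.ne_right {hM : Mdl p σ} {x y : M} (h : RVeq hM x y) : y ≠ 0 := by
  rintro rfl
  unfold RVeq at h
  rw [map_zero] at h
  exact not_lt_zero h

theorem RVeq.fv_eq {hM : Mdl p σ} {x y : M} (h : RVeq hM x y) : hM.fv x = hM.fv y := by
  have h1 : x = y + (x - y) := by ring
  rw [h1]
  exact Valuation.map_add_eq_of_lt_left _ h

theorem RVeq.ne_left {hM : Mdl p σ} {x y : M} (h : RVeq hM x y) : x ≠ 0 := by
  rintro rfl
  have h1 := h.fv_eq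
  rw [map_zero] at h1
  exact h.ne_right ((map_eq_zero _).1 h1.symm)

theorem RVeq.refl (hM : Mdl p σ) {x : M} (h : x ≠ 0) : RVeq hM x x := by
  unfold RVeq
  rw [sub_self, map_zero]
  exact fv_pos h

theorem RVeq.symm {hM : Mdl p σ} {x y : M} (h : RVeq hM x y) : RVeq hM y x := by
  unfold RVeq
  rw [← Valuation.map_neg, neg_sub, h.fv_eq]
  exact h

theorem RVeq.trans {hM : Mdl p σ} {x y z : M} (h : RVeq hM x y) (h' : RVeq hM y z) :
    RVeq hM x z := by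
  have e : x - z = (x - y) + (y - z) := by ring
  unfold RVeq
  rw [e]
  refine lt_of_le_of_lt (Valuation.map_add _ _ _) (max_lt ?_ h')
  rw [← h'.fv_eq]
  exact h

theorem RVeq.mul_left {hM : Mdl p σ} {x y : M} (h : RVeq hM x y) {z : M} (hz : z ≠ 0) :
    RVeq hM (z * x) (z * y) := by
  unfold RVeq
  rw [← mul_sub, map_mul, map_mul]
  exact mul_lt_mul_of_pos_left h (fv_pos hz)

theorem RVeq.mul {hM : Mdl p σ} {x y x' y' : M} (h : RVeq hM x y) (h' : RVeq hM x' y') :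
    RVeq hM (x * x') (y * y') := by
  refine (h'.mul_left h.ne_left).trans ?_
  rw [mul_comm x y', mul_comm y y']
  exact h.mul_left h'.ne_right

theorem RVeq.pow {hM : Mdl p σ} {x y : M} (h : RVeq hM x y) (n : ℕ) :
    RVeq hM (x ^ n) (y ^ n) := by
  induction n with
  | zero =>
    rw [pow_zero, pow_zero]
    exact RVeq.refl hM one_ne_zero
  | succ n ih =>
    rw [pow_succ, pow_succ]
    exact ih.mul h

theorem RVeq.add_right {hM : Mdl p σ} {x y z : M} (h : RVeq hM x y) (hz : hM.fv z < hM.fv y) :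
    RVeq hM (x + z) y := by
  have e : x + z - y = (x - y) + z := by ring
  unfold RVeq
  rw [e]
  exact lt_of_le_of_lt (Valuation.map_add _ _ _) (max_lt h hz)

theorem RVeq.inv {hM : Mdl p σ} {x y : M} (h : RVeq hM x y) : RVeq hM x⁻¹ y⁻¹ := by
  have hx := h.ne_left
  have hy := h.ne_right
  have h1 := h.symm.mul_left (mul_ne_zero (inv_ne_zero hx) (inv_ne_zero hy))
  have e1 : x⁻¹ * y⁻¹ * y = x⁻¹ := by field_simp
  have e2 : x⁻¹ * y⁻¹ * x = y⁻¹ := by field_simp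
  rw [e1, e2] at h1
  exact h1

theorem RVeq.of_div {hM : Mdl p σ} {x y : M} (hy : y ≠ 0) (h : RVeq hM (x / y) 1) :
    RVeq hM x y := by
  have h1 := h.mul_left hy
  rwa [mul_div_cancel₀ _ hy, mul_one] at h1

/-! ### constants -/

theorem σC_ne (hM : Mdl p σ) {a : ZMod p} (ha : a ≠ 0) : σ (C a) ≠ 0 :=
  (hM.unit_σ (f := C a) (by rwa [coeff_C_zero])).1

theorem fv_C (hM : Mdl p σ) {a : ZMod p} (ha : a ≠ 0) : hM.fv (σ (C a)) = 1 := by
  have h := hM.unit_σ (f := C a) (by rwa [coeff_C_zero])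
  exact hM.fv_eq_one h.1 (hM.VO_σ _) h.2

theorem RVeq_C (hM : Mdl p σ) {a b : ZMod p} (h : RVeq hM (σ (C a)) (σ (C b))) : a = b := by
  by_contra hab
  have h1 : hM.fv (σ (C (a - b))) = 1 := fv_C hM (sub_ne_zero.2 hab)
  have hb : b ≠ 0 := by
    rintro rfl
    exact h.ne_right (by rw [C_0, map_zero])
  unfold RVeq at h
  rw [← map_sub, ← C_sub, h1, fv_C hM hb] at h
  exact lt_irrefl _ h

theorem exists_res (hM : Mdl p σ) {x : M} (hx : hM.fv x = 1) :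
    ∃ a : ZMod p, a ≠ 0 ∧ RVeq hM x (σ (C a)) := by
  obtain ⟨a, ha, h⟩ := hM.res x ((hM.fv_le_one x).1 hx.le)
  have e : (a : M) = σ (C ((a : ℕ) : ZMod p)) := by
    rw [C_eq_natCast, map_natCast]
  rw [e] at h
  have h1 : hM.fv (x - σ (C ((a : ℕ) : ZMod p))) < 1 := by
    have h2 := (hM.fv_le_one _).2 h
    rw [map_div₀] at h2
    have ht := fv_pos (hM := hM) hM.t_ne
    have h3 := (div_le_one₀ ht).1 h2
    exact lt_of_le_of_lt h3 hM.fv_t_lt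
  have h0 : ((a : ℕ) : ZMod p) ≠ 0 := by
    intro h0
    rw [h0, C_0, map_zero, sub_zero, hx] at h1
    exact lt_irrefl _ h1
  refine ⟨_, h0, ?_⟩
  unfold RVeq
  rw [fv_C hM h0]
  exact h1

theorem pm1 : p - 1 ≠ 0 := by
  have := hp.out.two_le
  omega

/-- `x = γ t ^ j y ^ (p - 1)` with `v x = 1`: `γ` is the residue -/
theorem res_of (hM : Mdl p σ) {γ : ZMod p} (hγ : γ ≠ 0) (j : ℤ) {y : M} (hy : y ≠ 0)
    (h1 : hM.fv (σ X ^ j * y ^ (p - 1)) = 1) :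
    RVeq hM (σ (C γ) * (σ X ^ j * y ^ (p - 1))) (σ (C γ)) := by
  have ht := hM.t_ne
  have h2 : hM.fv y⁻¹ ^ (p - 1) = hM.fv (σ X) ^ j := by
    rw [map_mul, map_zpow₀, map_pow] at h1
    rw [map_inv₀, inv_pow]
    exact (eq_inv_of_mul_eq_one_left h1).symm
  obtain ⟨k, hk⟩ := fv_pow_eq hM pm1 h2
  have e : σ X ^ j * y ^ (p - 1) = (σ X ^ k * y) ^ (p - 1) := by
    rw [mul_pow, ← zpow_natCast (σ X ^ k), ← zpow_mul, hk, mul_comm k]
  rw [e] at h1 ⊢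
  rw [map_pow] at h1
  have h3 : hM.fv (σ X ^ k * y) = 1 := by
    rcases lt_trichotomy (hM.fv (σ X ^ k * y)) 1 with h | h | h
    · exact absurd h1 (pow_lt_one₀ zero_le' h pm1).ne
    · exact h
    · exact absurd h1 (one_lt_pow₀ h pm1).ne'
  obtain ⟨a, ha, h4⟩ := exists_res hM h3
  have h5 := h4.pow (p - 1)
  rw [← map_pow, ← C_pow, ZMod.pow_card_sub_one_eq_one ha, C_1, map_one] at h5
  have h6 := h5.mul_left (σC_ne hM hγ)
  rwa [mul_one] at h6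

theorem exists_ac (hM : Mdl p σ) {x : M} (hx : x ≠ 0) :
    ∃ γ : ZMod p, γ ≠ 0 ∧ ∃ (j : ℕ) (y : M), y ≠ 0 ∧
      x = σ (C γ) * σ X ^ j * y ^ (p - 1) := by
  have hpn : ¬ p ∣ p - 1 := by
    intro h
    have h1 := Nat.le_of_dvd (Nat.pos_of_ne_zero pm1) h
    have := hp.out.two_le
    omega
  obtain ⟨γ, hγ, j, hj, y, h1, h2⟩ := hM.pow (p - 1) hpn x hx
  refine ⟨(γ : ZMod p), ?_, j, y, ?_, ?_⟩
  · rw [Ne, ZMod.natCast_eq_zero_iff]
    intro h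
    exact absurd (Nat.le_of_dvd h1 h) (not_le.2 hγ)
  · rintro rfl
    rw [zero_pow pm1, mul_zero] at h2
    exact hx h2
  · rw [h2, C_eq_natCast, map_natCast]

theorem ac_zero (hM : Mdl p σ) : ac hM 0 = 0 := by
  unfold ac
  rw [dif_neg]
  rintro ⟨γ, hγ, j, y, hy, h⟩
  exact mul_ne_zero (mul_ne_zero (σC_ne hM hγ) (pow_ne_zero _ hM.t_ne)) (pow_ne_zero _ hy) h.symm

theorem ac_spec (hM : Mdl p σ) {x : M} (hx : x ≠ 0) : ac hM x ≠ 0 ∧ ∃ (j : ℕ) (y : M), y ≠ 0 ∧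
    x = σ (C (ac hM x)) * σ X ^ j * y ^ (p - 1) := by
  have h := exists_ac hM hx
  have e : ac hM x = h.choose := by
    unfold ac
    rw [dif_pos h]
  rw [e]
  exact h.choose_spec

theorem ac_unique (hM : Mdl p σ) {γ γ' : ZMod p} (hγ : γ ≠ 0) (hγ' : γ' ≠ 0) {i j : ℤ} {y z : M}
    (hy : y ≠ 0) (hz : z ≠ 0) (h : σ (C γ) * (σ X ^ i * y ^ (p - 1)) =
      σ (C γ') * (σ X ^ j * z ^ (p - 1))) : γ = γ' := by
  have ht := hM.t_ne
  have hz' : z ^ (p - 1) ≠ 0 := pow_ne_zero _ hz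
  have hg := σC_ne hM hγ
  have hg' := σC_ne hM hγ'
  have h1 : σ X ^ (i - j) * (y / z) ^ (p - 1) = σ (C γ') * (σ (C γ))⁻¹ := by
    rw [zpow_sub₀ ht, div_pow, div_mul_div_comm, div_eq_iff (mul_ne_zero (zpow_ne_zero _ ht) hz'),
      mul_assoc, mul_comm (σ (C γ))⁻¹, ← mul_assoc, ← h]
    field_simp
  have h2 : σ (C γ') * (σ (C γ))⁻¹ = σ (C (γ' * γ⁻¹)) := by
    rw [C_mul, map_mul, inv_eq_of_mul_eq_one_right (hM.inv_C hγ)]
  have h3 : hM.fv (σ X ^ (i - j) * (y / z) ^ (p - 1)) = 1 := by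
    rw [h1, h2, fv_C hM (mul_ne_zero hγ' (inv_ne_zero hγ))]
  have h4 := res_of hM hγ (i - j) (div_ne_zero hy hz) h3
  rw [h1, mul_comm (σ (C γ')), mul_inv_cancel_left₀ hg] at h4
  exact (RVeq_C hM h4).symm

theorem ac_eq' (hM : Mdl p σ) {γ : ZMod p} (hγ : γ ≠ 0) (j : ℤ) {y : M} (hy : y ≠ 0) {x : M}
    (h : x = σ (C γ) * (σ X ^ j * y ^ (p - 1))) : ac hM x = γ := by
  have ht := hM.t_ne
  have hx : x ≠ 0 := by
    rw [h]
    exact mul_ne_zero (σC_ne hM hγ) (mul_ne_zero (zpow_ne_zero _ ht) (pow_ne_zero _ hy))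
  obtain ⟨h0, i, z, hz, h1⟩ := ac_spec hM hx
  refine ac_unique hM (i := (i : ℤ)) (j := j) h0 hγ hz hy ?_
  rw [← h, zpow_natCast, ← mul_assoc]
  exact h1.symm

theorem ac_eq (hM : Mdl p σ) {γ : ZMod p} (hγ : γ ≠ 0) (j : ℕ) {y : M} (hy : y ≠ 0) :
    ac hM (σ (C γ) * σ X ^ j * y ^ (p - 1)) = γ :=
  ac_eq' hM hγ j hy (by rw [zpow_natCast, mul_assoc])

theorem ac_ne_zero (hM : Mdl p σ) {x : M} (hx : x ≠ 0) : ac hM x ≠ 0 :=
  (ac_spec hM hx).1

theorem ac_mul (hM : Mdl p σ) (x y : M) :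
    ac hM (x * y) = ac hM x * ac hM y := by
  rcases eq_or_ne x 0 with rfl | hx
  · rw [zero_mul, ac_zero, zero_mul]
  rcases eq_or_ne y 0 with rfl | hy
  · rw [mul_zero, ac_zero, mul_zero]
  obtain ⟨h0, i, z, hz, h1⟩ := ac_spec hM hx
  obtain ⟨h0', i', z', hz', h1'⟩ := ac_spec hM hy
  refine ac_eq' hM (mul_ne_zero h0 h0') ((i + i' : ℕ) : ℤ) (mul_ne_zero hz hz') ?_
  conv_lhs => rw [h1, h1']
  rw [zpow_natCast, C_mul, map_mul, pow_add, mul_pow]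
  ring

theorem ac_C (hM : Mdl p σ) (γ : ZMod p) : ac hM (σ (C γ)) = γ := by
  rcases eq_or_ne γ 0 with rfl | h
  · rw [C_0, map_zero, ac_zero]
  · exact ac_eq' hM h 0 one_ne_zero (by rw [zpow_zero, one_pow, mul_one, mul_one])

theorem ac_one (hM : Mdl p σ) : ac hM 1 = 1 := by
  have h := ac_C hM 1
  rwa [C_1, map_one] at h

theorem ac_pow (hM : Mdl p σ) (x : M) (n : ℕ) : ac hM (x ^ n) = ac hM x ^ n := by
  induction n with
  | zero => rw [pow_zero, pow_zero, ac_one hM]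
  | succ n ih => rw [pow_succ, pow_succ, ac_mul hM, ih]

theorem ac_inv (hM : Mdl p σ) (x : M) : ac hM x⁻¹ = (ac hM x)⁻¹ := by
  rcases eq_or_ne x 0 with rfl | hx
  · rw [inv_zero, ac_zero, inv_zero]
  · apply eq_inv_of_mul_eq_one_left
    rw [← ac_mul hM, inv_mul_cancel₀ hx, ac_one hM]

theorem ac_t (hM : Mdl p σ) : ac hM (σ X) = 1 :=
  ac_eq' hM one_ne_zero 1 one_ne_zero (by rw [zpow_one, one_pow, mul_one, C_1, map_one, one_mul])

theorem rv_ac (hM : Mdl p σ) {x : M} (hx : hM.fv x = 1) :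
    RVeq hM x (σ (C (ac hM x))) := by
  have hx0 : x ≠ 0 := by
    rintro rfl
    rw [map_zero] at hx
    exact zero_ne_one hx
  obtain ⟨h0, i, z, hz, h1⟩ := ac_spec hM hx0
  have h2 : hM.fv (σ X ^ (i : ℤ) * z ^ (p - 1)) = 1 := by
    rw [h1, mul_assoc, map_mul, fv_C hM h0, one_mul] at hx
    rw [zpow_natCast]
    exact hx
  have h3 := res_of hM h0 i hz h2
  rw [zpow_natCast, ← mul_assoc, ← h1] at h3
  exact h3

theorem rveq_one (hM : Mdl p σ) {x : M} (h1 : hM.fv x = 1) :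
    RVeq hM x 1 ↔ ac hM x = 1 := by
  have h := rv_ac hM h1
  constructor
  · intro h2
    have h3 := h.symm.trans h2
    have e : (1 : M) = σ (C 1) := by rw [C_1, map_one]
    rw [e] at h3
    exact RVeq_C hM h3
  · intro h2
    rwa [h2, C_1, map_one] at h

theorem rveq_iff (hM : Mdl p σ) {x y : M} (hx : x ≠ 0) (hy : y ≠ 0) :
    RVeq hM x y ↔ hM.fv x = hM.fv y ∧ ac hM x = ac hM y := by
  have e : x = y * (x / y) := (mul_div_cancel₀ x hy).symm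
  have hfy := (fv_pos (hM := hM) hy).ne'
  have hay := ac_ne_zero hM hy
  constructor
  · intro h
    refine ⟨h.fv_eq, ?_⟩
    have h1 : RVeq hM (x / y) 1 := by
      have h2 := h.mul_left (inv_ne_zero hy)
      rwa [inv_mul_cancel₀ hy, mul_comm, ← div_eq_mul_inv] at h2
    have h3 := (rveq_one hM (by rw [h1.fv_eq, map_one])).1 h1
    rw [e, ac_mul hM, h3, mul_one]
  · rintro ⟨h1, h2⟩
    apply RVeq.of_div hy
    rw [rveq_one hM (by rw [map_div₀, h1, div_self hfy]), div_eq_mul_inv, ac_mul hM,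
      ac_inv hM, h2, mul_inv_cancel₀ hay]

theorem vu_pow (hM : Mdl p σ) {x : M} (hx : x ≠ 0) (n : ℕ) :
    hM.vu (x ^ n) (pow_ne_zero n hx) = hM.vu x hx ^ n := by
  apply Units.ext
  rw [Units.val_pow_eq_pow_val]
  exact map_pow _ _ _

theorem vu_mul (hM : Mdl p σ) {x y : M} (hx : x ≠ 0) (hy : y ≠ 0) :
    hM.vu (x * y) (mul_ne_zero hx hy) = hM.vu x hx * hM.vu y hy := by
  apply Units.ext
  rw [Units.val_mul]
  exact map_mul _ _ _

theorem vu_inv (hM : Mdl p σ) {x : M} (hx : x ≠ 0) :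
    hM.vu x⁻¹ (inv_ne_zero hx) = (hM.vu x hx)⁻¹ := by
  apply Units.ext
  rw [Units.val_inv_eq_inv_val]
  exact map_inv₀ hM.fv x

theorem vu_zpow (hM : Mdl p σ) {x : M} (hx : x ≠ 0) (n : ℤ) :
    hM.vu (x ^ n) (zpow_ne_zero n hx) = hM.vu x hx ^ n := by
  apply Units.ext
  rw [Units.val_zpow_eq_zpow_val]
  exact map_zpow₀ _ _ _

theorem vu_congr (hM : Mdl p σ) {x y : M} (hx : x ≠ 0) (hy : y ≠ 0) (h : hM.fv x = hM.fv y) :
    hM.vu x hx = hM.vu y hy := Units.ext h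

theorem vu_congr_iff (hM : Mdl p σ) {x y : M} (hx : x ≠ 0) (hy : y ≠ 0) :
    hM.vu x hx = hM.vu y hy ↔ hM.fv x = hM.fv y :=
  ⟨fun h => congrArg Units.val h, fun h => Units.ext h⟩

/-- tame powers -/
theorem pow_iff_ac (hM : Mdl p σ) {d : ℕ} (hd : ¬ p ∣ d) {x : M} (hx : x ≠ 0) :
    (∃ y : M, y ^ d = x) ↔ (∃ b : hM.VGˣ, b ^ d = hM.vu x hx) ∧
      ∃ γ : ZMod p, γ ^ d = ac hM x := by
  have hd0 : d ≠ 0 := by
    rintro rfl
    exact hd (dvd_zero p)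
  constructor
  · rintro ⟨y, rfl⟩
    have hy : y ≠ 0 := by
      rintro rfl
      exact hx (zero_pow hd0)
    exact ⟨⟨hM.vu y hy, (vu_pow hM hy d).symm⟩, _, (ac_pow hM y d).symm⟩
  · rintro ⟨⟨b, hb⟩, γ, hγ⟩
    obtain ⟨c, hc, j, hj, y, h1, h2⟩ := hM.pow d hd x hx
    have hy : y ≠ 0 := by
      rintro rfl
      rw [zero_pow hd0, mul_zero] at h2
      exact hx h2
    have hc0 : ((c : ℕ) : ZMod p) ≠ 0 := by
      rw [Ne, ZMod.natCast_eq_zero_iff]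
      intro h
      exact absurd (Nat.le_of_dvd h1 h) (not_le.2 hc)
    have h3 : x = σ (C ((c : ℕ) : ZMod p)) * (σ X ^ j * y ^ d) := by
      rw [h2, C_eq_natCast, map_natCast, mul_assoc]
    have ht := hM.t_ne
    have h4 : hM.fv ((hM.vu_surj b).choose * y⁻¹) ^ d = hM.fv (σ X) ^ (j : ℤ) := by
      obtain ⟨hz, h5⟩ := (hM.vu_surj b).choose_spec
      have h6 : hM.fv (hM.vu_surj b).choose ^ d = hM.fv x := by
        have h7 := congrArg Units.val hb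
        rw [← h5, Units.val_pow_eq_pow_val, Mdl.vu_val, Mdl.vu_val] at h7
        exact h7
      have h8 : hM.fv y ^ d ≠ 0 := pow_ne_zero _ (fv_pos hy).ne'
      rw [map_mul, mul_pow, h6, h3, map_mul, fv_C hM hc0, one_mul, map_mul, map_pow, map_pow,
        map_inv₀, inv_pow, mul_assoc, mul_inv_cancel₀ h8, mul_one, zpow_natCast]
    have h5 := fv_pow_eq hM hd0 h4
    have h6 : j = 0 := by
      have h7 : d ∣ j := by exact_mod_cast h5
      exact Nat.eq_zero_of_dvd_of_lt h7 hj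
    subst h6
    rw [pow_zero, one_mul] at h3
    have hay := ac_ne_zero hM hy
    have h8 : ((c : ℕ) : ZMod p) = (γ / ac hM y) ^ d := by
      have h9 : ac hM x = ((c : ℕ) : ZMod p) * ac hM y ^ d := by
        rw [h3, ac_mul hM, ac_C hM, ac_pow hM]
      rw [div_pow, hγ, h9, mul_div_cancel_right₀ _ (pow_ne_zero d hay)]
    refine ⟨σ (C (γ / ac hM y)) * y, ?_⟩
    rw [mul_pow, ← map_pow, ← C_pow, ← h8]
    exact h3.symm

section corr

variable {N : Type} [Field N] {τ : P1 p →+* N}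

theorem rv_σ (hM : Mdl p σ) {f : P1 p} (hf : f.coeff 0 ≠ 0) :
    RVeq hM (σ f) (σ (C (f.coeff 0))) := by
  obtain ⟨g, hg⟩ : X ∣ f - C (f.coeff 0) := by
    rw [X_dvd_iff, coeff_sub, coeff_C_zero, sub_self]
  unfold RVeq
  rw [← map_sub, hg, fv_C hM hf, map_mul, map_mul]
  have h1 := (hM.fv_le_one _).2 (hM.VO_σ g)
  calc hM.fv (σ X) * hM.fv (σ g) ≤ hM.fv (σ X) * 1 := mul_le_mul_right h1 _
    _ = hM.fv (σ X) := mul_one _
    _ < 1 := hM.fv_t_lt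

theorem io_lead (c : FF p) (hc : c ≠ 0) : ∃ (γ : ZMod p) (k : ℤ), γ ≠ 0 ∧
    ∀ (M : Type) [Field M] (σ : P1 p →+* M) (hM : Mdl p σ),
      RVeq hM (io hM c) (σ (C γ) * σ X ^ k) := by
  obtain ⟨f, g, hg, rfl⟩ := IsFractionRing.div_surjective (A := P1 p) c
  have hg0 : g ≠ 0 := nonZeroDivisors.ne_zero hg
  have hf0 : f ≠ 0 := by
    rintro rfl
    exact hc (by rw [map_zero, zero_div])
  obtain ⟨a, f1, hf1, rfl⟩ := P1_lead hf0
  obtain ⟨b, g1, hg1, rfl⟩ := P1_lead hg0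
  refine ⟨f1.coeff 0 * (g1.coeff 0)⁻¹, (a : ℤ) - (b : ℤ), mul_ne_zero hf1 (inv_ne_zero hg1), ?_⟩
  intro M _ σ hM
  have ht := hM.t_ne
  have h1 := ((rv_σ hM hf1).mul (rv_σ hM hg1).inv).mul_left (zpow_ne_zero ((a : ℤ) - (b : ℤ)) ht)
  have e1 : io hM (algebraMap (P1 p) (FF p) (X ^ a * f1) / algebraMap (P1 p) (FF p) (X ^ b * g1)) =
      σ X ^ ((a : ℤ) - (b : ℤ)) * (σ f1 * (σ g1)⁻¹) := by
    rw [map_div₀, io_map, io_map, zpow_sub₀ ht, map_mul, map_mul, map_pow, map_pow, zpow_natCast,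
      zpow_natCast]
    field_simp
  have e2 : σ (C (f1.coeff 0 * (g1.coeff 0)⁻¹)) * σ X ^ ((a : ℤ) - (b : ℤ)) =
      σ X ^ ((a : ℤ) - (b : ℤ)) * (σ (C (f1.coeff 0)) * (σ (C (g1.coeff 0)))⁻¹) := by
    rw [C_mul, map_mul, inv_eq_of_mul_eq_one_right (hM.inv_C hg1)]
    ring
  rw [e1, e2]
  exact h1

variable {hM : Mdl p σ} {hN : Mdl p τ} {Λ : Subgroup (hM.VGˣ × hN.VGˣ)}

theorem VIn_mul {a a' : M} {b b' : N} (h : VIn hM hN Λ a b)
    (h' : VIn hM hN Λ a' b') : VIn hM hN Λ (a * a') (b * b') := by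
  obtain ⟨ha, hb, h⟩ := h
  obtain ⟨ha', hb', h'⟩ := h'
  refine ⟨mul_ne_zero ha ha', mul_ne_zero hb hb', ?_⟩
  rw [vu_mul hM ha ha', vu_mul hN hb hb']
  exact Λ.mul_mem h h'

theorem VIn_inv {a : M} {b : N} (h : VIn hM hN Λ a b) :
    VIn hM hN Λ a⁻¹ b⁻¹ := by
  obtain ⟨ha, hb, h⟩ := h
  refine ⟨inv_ne_zero ha, inv_ne_zero hb, ?_⟩
  rw [vu_inv hM ha, vu_inv hN hb]
  exact Λ.inv_mem h

theorem VIn_one : VIn hM hN Λ 1 1 := by
  refine ⟨one_ne_zero, one_ne_zero, ?_⟩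
  have e1 : hM.vu 1 one_ne_zero = 1 := Units.ext (map_one _)
  have e2 : hN.vu 1 one_ne_zero = 1 := Units.ext (map_one _)
  rw [e1, e2]
  exact Λ.one_mem

theorem VIn_congr {a a' : M} {b b' : N} (h : VIn hM hN Λ a b)
    (ha : hM.fv a = hM.fv a') (hb : hN.fv b = hN.fv b') :
    VIn hM hN Λ a' b' := by
  obtain ⟨ha0, hb0, h⟩ := h
  have ha0' : a' ≠ 0 := by
    rintro rfl
    rw [map_zero] at ha
    exact ha0 ((map_eq_zero _).1 ha)
  have hb0' : b' ≠ 0 := by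
    rintro rfl
    rw [map_zero] at hb
    exact hb0 ((map_eq_zero _).1 hb)
  refine ⟨ha0', hb0', ?_⟩
  rw [← vu_congr hM ha0 ha0' ha, ← vu_congr hN hb0 hb0' hb]
  exact h

theorem VIn_zpow {a : M} {b : N} (h : VIn hM hN Λ a b) (n : ℤ) :
    VIn hM hN Λ (a ^ n) (b ^ n) := by
  obtain ⟨ha, hb, h⟩ := h
  refine ⟨zpow_ne_zero n ha, zpow_ne_zero n hb, ?_⟩
  rw [vu_zpow hM ha, vu_zpow hN hb]
  exact Λ.zpow_mem h n

theorem VIn_fv (hΛ : PIso Λ) {a a' : M} {b b' : N} (h : VIn hM hN Λ a b)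
    (h' : VIn hM hN Λ a' b') :
    hM.fv a ≤ hM.fv a' ↔ hN.fv b ≤ hN.fv b' := by
  obtain ⟨ha, hb, h⟩ := h
  obtain ⟨ha', hb', h'⟩ := h'
  have h1 := ZV.le_iff hΛ h h'
  rw [← Units.val_le_val, ← Units.val_le_val] at h1
  exact h1

theorem RVC_io (hΛ : PIso Λ) (ht : VIn hM hN Λ (σ X) (τ X)) (c : FF p) :
    RVC hM hN Λ (io hM c) (io hN c) := by
  rcases eq_or_ne c 0 with rfl | hc
  · left
    rw [map_zero, map_zero]
    exact ⟨rfl, rfl⟩
  obtain ⟨γ, k, hγ, h⟩ := io_lead c hc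
  have h1 := h M σ hM
  have h2 := h N τ hN
  have h3 := (rveq_iff hM h1.ne_left h1.ne_right).1 h1
  have h4 := (rveq_iff hN h2.ne_left h2.ne_right).1 h2
  right
  refine ⟨VIn_congr (VIn_zpow ht k) ?_ ?_, ?_⟩
  · rw [h3.1, map_mul, fv_C hM hγ, one_mul]
  · rw [h4.1, map_mul, fv_C hN hγ, one_mul]
  · rw [h3.2, h4.2]
    have e1 : ac hM (σ (C γ) * σ X ^ k) = γ :=
      ac_eq' hM hγ k one_ne_zero (by rw [one_pow, mul_one])
    have e2 : ac hN (τ (C γ) * τ X ^ k) = γ :=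
      ac_eq' hN hγ k one_ne_zero (by rw [one_pow, mul_one])
    rw [e1, e2]

theorem RVC.mul {a a' : M} {b b' : N} (h : RVC hM hN Λ a b)
    (h' : RVC hM hN Λ a' b') : RVC hM hN Λ (a * a') (b * b') := by
  rcases h with ⟨rfl, rfl⟩ | h
  · left
    exact ⟨zero_mul _, zero_mul _⟩
  rcases h' with ⟨rfl, rfl⟩ | h'
  · left
    exact ⟨mul_zero _, mul_zero _⟩
  right
  refine ⟨VIn_mul h.1 h'.1, ?_⟩
  rw [ac_mul hM, ac_mul hN, h.2, h'.2]

theorem RVC.inv {a : M} {b : N} (h : RVC hM hN Λ a b) :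
    RVC hM hN Λ a⁻¹ b⁻¹ := by
  rcases h with ⟨rfl, rfl⟩ | h
  · left
    exact ⟨inv_zero, inv_zero⟩
  right
  refine ⟨VIn_inv h.1, ?_⟩
  rw [ac_inv hM, ac_inv hN, h.2]

theorem RVC.one : RVC hM hN Λ 1 1 :=
  Or.inr ⟨VIn_one, by rw [ac_one hM, ac_one hN]⟩

theorem RVC.pow {a : M} {b : N} (h : RVC hM hN Λ a b) (n : ℕ) :
    RVC hM hN Λ (a ^ n) (b ^ n) := by
  induction n with
  | zero =>
    rw [pow_zero, pow_zero]
    exact RVC.one
  | succ n ih =>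
    rw [pow_succ, pow_succ]
    exact ih.mul h

theorem RVC.zero_iff {a : M} {b : N} (h : RVC hM hN Λ a b) : a = 0 ↔ b = 0 := by
  rcases h with ⟨rfl, rfl⟩ | ⟨⟨ha, hb, _⟩, _⟩
  · exact ⟨fun _ => rfl, fun _ => rfl⟩
  · exact ⟨fun h => absurd h ha, fun h => absurd h hb⟩

theorem RVC.fv_le (hΛ : PIso Λ) {a a' : M} {b b' : N} (h : RVC hM hN Λ a b)
    (h' : RVC hM hN Λ a' b') :
    hM.fv a ≤ hM.fv a' ↔ hN.fv b ≤ hN.fv b' := by
  rcases h with ⟨rfl, rfl⟩ | h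
  · rw [map_zero, map_zero]
    exact ⟨fun _ => zero_le', fun _ => zero_le'⟩
  rcases h' with ⟨rfl, rfl⟩ | h'
  · rw [map_zero, map_zero, le_zero_iff, le_zero_iff, map_eq_zero, map_eq_zero]
    exact RVC.zero_iff (Or.inr h)
  exact VIn_fv hΛ h.1 h'.1

theorem RVC.fv_lt (hΛ : PIso Λ) {a a' : M} {b b' : N} (h : RVC hM hN Λ a b)
    (h' : RVC hM hN Λ a' b') :
    hM.fv a < hM.fv a' ↔ hN.fv b < hN.fv b' := by
  rw [← not_le, ← not_le, RVC.fv_le hΛ h' h]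

theorem RVC.congr_left {a a' : M} {b : N} (h : RVeq hM a a') :
    RVC hM hN Λ a b ↔ RVC hM hN Λ a' b := by
  have key : ∀ {a a' : M}, RVeq hM a a' → RVC hM hN Λ a b →
      RVC hM hN Λ a' b := by
    intro a a' h hr
    have h1 := (rveq_iff hM h.ne_left h.ne_right).1 h
    rcases hr with ⟨h2, _⟩ | hr
    · exact absurd h2 h.ne_left
    · right
      exact ⟨VIn_congr hr.1 h1.1 rfl, by rw [← h1.2, hr.2]⟩
  exact ⟨key h, key h.symm⟩

theorem RVC.congr_right {a : M} {b b' : N} (h : RVeq hN b b') :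
    RVC hM hN Λ a b ↔ RVC hM hN Λ a b' := by
  have key : ∀ {b b' : N}, RVeq hN b b' → RVC hM hN Λ a b →
      RVC hM hN Λ a b' := by
    intro b b' h hr
    have h1 := (rveq_iff hN h.ne_left h.ne_right).1 h
    rcases hr with ⟨_, h2⟩ | hr
    · exact absurd h2 h.ne_left
    · right
      exact ⟨VIn_congr hr.1 rfl h1.1, by rw [← h1.2, hr.2]⟩
  exact ⟨key h, key h.symm⟩

theorem RVeq.of_add (hM : Mdl p σ) {x z : M} (h : hM.fv z < hM.fv x) : RVeq hM (x + z) x := by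
  unfold RVeq
  rwa [add_sub_cancel_left]

theorem RVC.add (hΛ : PIso Λ) {a a' : M} {b b' : N} (h : RVC hM hN Λ a b)
    (h' : RVC hM hN Λ a' b')
    (hne : a ≠ 0 → a' ≠ 0 → hM.fv a ≠ hM.fv a') :
    RVC hM hN Λ (a + a') (b + b') := by
  rcases eq_or_ne a 0 with ha | ha
  · have hb := (h.zero_iff).1 ha
    rw [ha, hb, zero_add, zero_add]
    exact h'
  rcases eq_or_ne a' 0 with ha' | ha'
  · have hb' := (h'.zero_iff).1 ha'
    rw [ha', hb', add_zero, add_zero]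
    exact h
  rcases lt_or_gt_of_ne (hne ha ha') with hlt | hlt
  · have h1 := RVeq.of_add hM hlt
    have h2 := RVeq.of_add hN ((RVC.fv_lt hΛ h h').1 hlt)
    rw [add_comm a a', add_comm b b']
    exact (RVC.congr_left h1).2 ((RVC.congr_right h2).2 h')
  · have h1 := RVeq.of_add hM hlt
    have h2 := RVeq.of_add hN ((RVC.fv_lt hΛ h' h).1 hlt)
    exact (RVC.congr_left h1).2 ((RVC.congr_right h2).2 h)

theorem RVC.rveq {a : M} {b r : N} (ha : a ≠ 0) (hΛ : PIso Λ) (h : RVC hM hN Λ a r) :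
    RVC hM hN Λ a b ↔ RVeq hN b r := by
  constructor
  · intro hb
    have hr0 : r ≠ 0 := fun h0 => ha ((h.zero_iff).2 h0)
    have hb0 : b ≠ 0 := fun h0 => ha ((hb.zero_iff).2 h0)
    rw [rveq_iff hN hb0 hr0]
    refine ⟨le_antisymm ((RVC.fv_le hΛ hb h).1 le_rfl)
      ((RVC.fv_le hΛ h hb).1 le_rfl), ?_⟩
    rcases h with ⟨h, _⟩ | h
    · exact absurd h ha
    rcases hb with ⟨hb, _⟩ | hb
    · exact absurd hb ha
    rw [← hb.2, h.2]
  · intro hb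
    exact (RVC.congr_right hb).2 h

theorem RVC.exists {a : M} (hd : ∀ h : a ≠ 0, ∃ δ, (hM.vu a h, δ) ∈ Λ) :
    ∃ r : N, RVC hM hN Λ a r := by
  rcases eq_or_ne a 0 with rfl | ha
  · exact ⟨0, Or.inl ⟨rfl, rfl⟩⟩
  obtain ⟨δ, hδ⟩ := hd ha
  obtain ⟨y, hy, rfl⟩ := hN.vu_surj δ
  have hay := ac_ne_zero hN hy
  have haa := ac_ne_zero hM ha
  have hc : ac hM a / ac hN y ≠ 0 := div_ne_zero haa hay
  refine ⟨τ (C (ac hM a / ac hN y)) * y,
    Or.inr ⟨VIn_congr ⟨ha, hy, hδ⟩ rfl ?_, ?_⟩⟩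
  · rw [map_mul, fv_C hN hc, one_mul]
  · rw [ac_mul hN, ac_C hN, div_mul_cancel₀ _ hay]

end corr

end AF80
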